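import Pool.Agent.Lib.MP_985a2b_al.Defs

/-!
# The twists as automorphisms of a free group of rank `2 g`

Generators `fa i`, `fb i`, `i : ZMod g`. The automorphisms `MA i`, `LA i`, `ZA hg i`, `rA`, `sA`
and their values (and the values of their inverses) on the generators.
-/

namespace MP985a

/-- The free group on `a i`, `b i`, `i : ZMod g`. -/
abbrev Fg (g : ℕ) : Type := FreeGroup (ZMod g × Bool)

/-- The generator `a i`. -/
def fa {g : ℕ} (i : ZMod g) : Fg g := FreeGroup.of (i, false)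

/-- The generator `b i`. -/
def fb {g : ℕ} (i : ZMod g) : Fg g := FreeGroup.of (i, true)

theorem hom_ext_ab {g : ℕ} {H : Type*} [Group H] {φ ψ : Fg g →* H}
    (ha : ∀ i, φ (fa i) = ψ (fa i)) (hb : ∀ i, φ (fb i) = ψ (fb i)) : φ = ψ := by
  ext ⟨i, b⟩
  cases b
  · exact ha i
  · exact hb i

theorem aut_ext {g : ℕ} {α β : MulAut (Fg g)} (ha : ∀ i, α (fa i) = β (fa i))
    (hb : ∀ i, α (fb i) = β (fb i)) : α = β := by
  have h : (α : Fg g →* Fg g) = (β : Fg g →* Fg g) := hom_ext_ab ha hb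
  ext x
  exact DFunLike.congr_fun h x

/-- The endomorphism with given values on the generators. -/
def endo {g : ℕ} (u w : ZMod g → Fg g) : Fg g →* Fg g :=
  FreeGroup.lift (fun x => if x.2 then w x.1 else u x.1)

@[simp] theorem endo_fa {g : ℕ} (u w : ZMod g → Fg g) (i : ZMod g) : endo u w (fa i) = u i := by
  simp [endo, fa]

@[simp] theorem endo_fb {g : ℕ} (u w : ZMod g → Fg g) (i : ZMod g) : endo u w (fb i) = w i := by
  simp [endo, fb]

/-- The automorphism with given values and given inverse values on the generators. -/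
def mkAut {g : ℕ} (u w u' w' : ZMod g → Fg g)
    (h1 : ∀ i, endo u w (u' i) = fa i) (h2 : ∀ i, endo u w (w' i) = fb i)
    (h3 : ∀ i, endo u' w' (u i) = fa i) (h4 : ∀ i, endo u' w' (w i) = fb i) : MulAut (Fg g) :=
  MonoidHom.toMulEquiv (endo u w) (endo u' w')
    (hom_ext_ab (fun i => by simp [h3]) (fun i => by simp [h4]))
    (hom_ext_ab (fun i => by simp [h1]) (fun i => by simp [h2]))

theorem mkAut_apply {g : ℕ} (u w u' w' : ZMod g → Fg g) (h1 h2 h3 h4) (x : Fg g) :
    mkAut u w u' w' h1 h2 h3 h4 x = endo u w x := rfl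

theorem mkAut_inv_apply {g : ℕ} (u w u' w' : ZMod g → Fg g) (h1 h2 h3 h4) (x : Fg g) :
    (mkAut u w u' w' h1 h2 h3 h4)⁻¹ x = endo u' w' x := rfl

open Classical in
/-- The twist `M i`: `a i ↦ a i * b i`. -/
noncomputable def MA {g : ℕ} (i : ZMod g) : MulAut (Fg g) :=
  mkAut (fun j => if j = i then fa j * fb j else fa j) fb
    (fun j => if j = i then fa j * (fb j)⁻¹ else fa j) fb
    (fun j => by by_cases h : j = i <;> simp [h]) (fun j => by simp)
    (fun j => by by_cases h : j = i <;> simp [h]) (fun j => by simp)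

open Classical in
/-- The twist `L i`: `b i ↦ b i * (a i)⁻¹`. -/
noncomputable def LA {g : ℕ} (i : ZMod g) : MulAut (Fg g) :=
  mkAut fa (fun j => if j = i then fb j * (fa j)⁻¹ else fb j)
    fa (fun j => if j = i then fb j * fa j else fb j)
    (fun j => by simp) (fun j => by by_cases h : j = i <;> simp [h])
    (fun j => by simp) (fun j => by by_cases h : j = i <;> simp [h])

/-- The word of the curve `z i`. -/
def dl {g : ℕ} (i : ZMod g) : Fg g := (fb i)⁻¹ * fa (i + 1) * fb (i + 1) * (fa (i + 1))⁻¹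

theorem one_ne_zero_zmod {g : ℕ} (hg : 3 ≤ g) : (1 : ZMod g) ≠ 0 := by
  haveI : Fact (1 < g) := ⟨by omega⟩
  exact one_ne_zero

theorem succ_ne {g : ℕ} (hg : 3 ≤ g) (i : ZMod g) : i + 1 ≠ i := by
  intro h
  exact one_ne_zero_zmod hg (by simpa using h)

open Classical in
/-- The twist `Z i`. -/
noncomputable def ZA {g : ℕ} (hg : 3 ≤ g) (i : ZMod g) : MulAut (Fg g) :=
  mkAut
    (fun j => if j = i then fa i * (dl i)⁻¹ else if j = i + 1 then dl i * fa (i + 1) else fa j)
    (fun j => if j = i then dl i * fb i * (dl i)⁻¹ else fb j)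
    (fun j => if j = i then fa i * dl i else if j = i + 1 then (dl i)⁻¹ * fa (i + 1) else fa j)
    (fun j => if j = i then (dl i)⁻¹ * fb i * dl i else fb j)
    (fun j => by
      have h1 := succ_ne hg i
      by_cases h : j = i
      · subst h; simp [dl, h1]; group
      · by_cases h' : j = i + 1
        · subst h'; simp [dl, h1]; group
        · simp [h, h'])
    (fun j => by
      have h1 := succ_ne hg i
      by_cases h : j = i
      · subst h; simp [dl, h1]; group
      · simp [h])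
    (fun j => by
      have h1 := succ_ne hg i
      by_cases h : j = i
      · subst h; simp [dl, h1]; group
      · by_cases h' : j = i + 1
        · subst h'; simp [dl, h1]; group
        · simp [h, h'])
    (fun j => by
      have h1 := succ_ne hg i
      by_cases h : j = i
      · subst h; simp [dl, h1]; group
      · simp [h])

/-- The rotation. -/
noncomputable def rA {g : ℕ} : MulAut (Fg g) :=
  mkAut (fun j => fa (j + 1)) (fun j => fb (j + 1)) (fun j => fa (j - 1)) (fun j => fb (j - 1))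
    (fun j => by simp) (fun j => by simp) (fun j => by simp) (fun j => by simp)

/-- The reflection. -/
noncomputable def sA {g : ℕ} : MulAut (Fg g) :=
  mkAut (fun j => (fa (-1 - j))⁻¹) (fun j => fa (-1 - j) * fb (-1 - j) * (fa (-1 - j))⁻¹)
    (fun j => (fa (-1 - j))⁻¹) (fun j => fa (-1 - j) * fb (-1 - j) * (fa (-1 - j))⁻¹)
    (fun j => by simp) (fun j => by simp; group) (fun j => by simp) (fun j => by simp; group)

section values

variable {g : ℕ}

@[simp] theorem MA_fb (i j : ZMod g) : MA i (fb j) = fb j := by simp [MA, mkAut_apply]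
@[simp] theorem MA_fa_self (i : ZMod g) : MA i (fa i) = fa i * fb i := by
  simp [MA, mkAut_apply]
theorem MA_fa_ne {i j : ZMod g} (h : j ≠ i) : MA i (fa j) = fa j := by
  simp [MA, mkAut_apply, h]
theorem MA_inv_fb (i j : ZMod g) : (MA i)⁻¹ (fb j) = fb j := by
  rw [MA, mkAut_inv_apply]; simp
theorem MA_inv_fa_self (i : ZMod g) : (MA i)⁻¹ (fa i) = fa i * (fb i)⁻¹ := by
  rw [MA, mkAut_inv_apply]; simp
theorem MA_inv_fa_ne {i j : ZMod g} (h : j ≠ i) : (MA i)⁻¹ (fa j) = fa j := by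
  rw [MA, mkAut_inv_apply]; simp [h]

@[simp] theorem LA_fa (i j : ZMod g) : LA i (fa j) = fa j := by simp [LA, mkAut_apply]
@[simp] theorem LA_fb_self (i : ZMod g) : LA i (fb i) = fb i * (fa i)⁻¹ := by
  simp [LA, mkAut_apply]
theorem LA_fb_ne {i j : ZMod g} (h : j ≠ i) : LA i (fb j) = fb j := by
  simp [LA, mkAut_apply, h]
theorem LA_inv_fa (i j : ZMod g) : (LA i)⁻¹ (fa j) = fa j := by
  rw [LA, mkAut_inv_apply]; simp
theorem LA_inv_fb_self (i : ZMod g) : (LA i)⁻¹ (fb i) = fb i * fa i := by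
  rw [LA, mkAut_inv_apply]; simp
theorem LA_inv_fb_ne {i j : ZMod g} (h : j ≠ i) : (LA i)⁻¹ (fb j) = fb j := by
  rw [LA, mkAut_inv_apply]; simp [h]

@[simp] theorem ZA_fa_self (hg : 3 ≤ g) (i : ZMod g) : ZA hg i (fa i) = fa i * (dl i)⁻¹ := by
  simp [ZA, mkAut_apply]
@[simp] theorem ZA_fa_succ (hg : 3 ≤ g) (i : ZMod g) :
    ZA hg i (fa (i + 1)) = dl i * fa (i + 1) := by
  simp [ZA, mkAut_apply, succ_ne hg i]
theorem ZA_fa_ne (hg : 3 ≤ g) {i j : ZMod g} (h : j ≠ i) (h' : j ≠ i + 1) :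
    ZA hg i (fa j) = fa j := by
  simp [ZA, mkAut_apply, h, h']
@[simp] theorem ZA_fb_self (hg : 3 ≤ g) (i : ZMod g) :
    ZA hg i (fb i) = dl i * fb i * (dl i)⁻¹ := by
  simp [ZA, mkAut_apply]
theorem ZA_fb_ne (hg : 3 ≤ g) {i j : ZMod g} (h : j ≠ i) : ZA hg i (fb j) = fb j := by
  simp [ZA, mkAut_apply, h]

theorem ZA_inv_fa_self (hg : 3 ≤ g) (i : ZMod g) : (ZA hg i)⁻¹ (fa i) = fa i * dl i := by
  rw [ZA, mkAut_inv_apply]; simp
theorem ZA_inv_fa_succ (hg : 3 ≤ g) (i : ZMod g) :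
    (ZA hg i)⁻¹ (fa (i + 1)) = (dl i)⁻¹ * fa (i + 1) := by
  rw [ZA, mkAut_inv_apply]; simp [succ_ne hg i]
theorem ZA_inv_fa_ne (hg : 3 ≤ g) {i j : ZMod g} (h : j ≠ i) (h' : j ≠ i + 1) :
    (ZA hg i)⁻¹ (fa j) = fa j := by
  rw [ZA, mkAut_inv_apply]; simp [h, h']
theorem ZA_inv_fb_self (hg : 3 ≤ g) (i : ZMod g) :
    (ZA hg i)⁻¹ (fb i) = (dl i)⁻¹ * fb i * dl i := by
  rw [ZA, mkAut_inv_apply]; simp
theorem ZA_inv_fb_ne (hg : 3 ≤ g) {i j : ZMod g} (h : j ≠ i) : (ZA hg i)⁻¹ (fb j) = fb j := by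
  rw [ZA, mkAut_inv_apply]; simp [h]

@[simp] theorem rA_fa (i : ZMod g) : rA (fa i) = fa (i + 1) := by simp [rA, mkAut_apply]
@[simp] theorem rA_fb (i : ZMod g) : rA (fb i) = fb (i + 1) := by simp [rA, mkAut_apply]
theorem rA_inv_fa (i : ZMod g) : (rA)⁻¹ (fa i) = fa (i - 1) := by
  rw [rA, mkAut_inv_apply]; simp
theorem rA_inv_fb (i : ZMod g) : (rA)⁻¹ (fb i) = fb (i - 1) := by
  rw [rA, mkAut_inv_apply]; simp
@[simp] theorem sA_fa (i : ZMod g) : sA (fa i) = (fa (-1 - i))⁻¹ := by simp [sA, mkAut_apply]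
@[simp] theorem sA_fb (i : ZMod g) : sA (fb i) = fa (-1 - i) * fb (-1 - i) * (fa (-1 - i))⁻¹ := by
  simp [sA, mkAut_apply]
theorem sA_inv : (sA : MulAut (Fg g))⁻¹ = sA := rfl

end values

end MP985a
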