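import Pool.Agent.Lib.MP_985a2b_al.Proj

/-!
# Barycenters

Write `f_w y = ∑ j, w j * dist y (p j) ^ 2`.

`bary_var`: `f_w b + dist b y ^2 ≤ f_w y`. PROOF. `min_var` with `C = univ` and `f = f_w`:
`hconv` is the sum of `w j *` (`mid_ineq h` at `z = p j`), using `∑ w j = 1`, `w j ≥ 0`.

`bary_exists`: `exists_min` with `C = univ` (nonempty: the simplex is nonempty only if `0 < k`, and
`p 0 ∈ univ`); `f_w` is continuous and `≥ 0`.

`bary_unique`: add `bary_var` for `b` at `b'` and for `b'` at `b`: `dist b b' = 0`.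

`bary_mem`: `C` closed, midpoint convex and contains all `p j` with `0 < w j`; `C` is nonempty as
some `w j > 0` (sum is 1). Let `π` be the retraction of `exists_retract`. For `w j > 0`:
`dist b (π b)^2 + dist (π b) (p j)^2 ≤ dist b (p j)^2`. Sum with weights:
`dist b (π b)^2 + f_w (π b) ≤ f_w b ≤ f_w (π b)`, so `b = π b ∈ C`.

`bary_cont`: let `R ≥ dist (p i) (p j)` for all `i j`. First `dist b (p i) ≤ 2 R` for all `i`:
`f_w b ≤ f_w (p i) ≤ R^2`, so (weights sum to 1) there is `j` with `dist b (p j)^2 ≤ R^2`, and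
`dist b (p i) ≤ dist b (p j) + dist (p j) (p i) ≤ 2R`. The same for `b'`. `bary_var` twice:
`f_w b + dist b b'^2 ≤ f_w b'`, `f_{w'} b' + dist b b'^2 ≤ f_{w'} b`. Sum:
`2 dist b b'^2 ≤ ∑ (w j - w' j) (dist b' (p j)^2 - dist b (p j)^2) ≤ ∑ |w j - w' j| * (4 R^2)`
because both squares lie in `[0, 4 R^2]`.
-/

namespace MP985a

variable {X : Type*} [MetricSpace X]

private theorem fw_conv (h : CN X) {k : ℕ} (p : Fin k → X) {w : Fin k → ℝ}
    (hw : w ∈ stdSimplex ℝ (Fin k)) (x y m : X) (hm : IsMid x y m) :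
    ∑ j, w j * dist m (p j) ^ 2 ≤ (∑ j, w j * dist x (p j) ^ 2) / 2 +
      (∑ j, w j * dist y (p j) ^ 2) / 2 - dist x y ^ 2 / 4 := by
  have hsum : ∑ j, w j = 1 := hw.2
  have h1 : ∀ j, w j * dist m (p j) ^ 2 ≤
      w j * (dist x (p j) ^ 2 / 2 + dist y (p j) ^ 2 / 2 - dist x y ^ 2 / 4) := by
    intro j
    have h2 := mid_ineq h hm (p j)
    rw [dist_comm (p j) m, dist_comm (p j) x, dist_comm (p j) y] at h2
    exact mul_le_mul_of_nonneg_left h2 (hw.1 j)
  calc ∑ j, w j * dist m (p j) ^ 2 ≤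
      ∑ j, w j * (dist x (p j) ^ 2 / 2 + dist y (p j) ^ 2 / 2 - dist x y ^ 2 / 4) :=
        Finset.sum_le_sum fun j _ => h1 j
    _ = (∑ j, w j * dist x (p j) ^ 2) / 2 + (∑ j, w j * dist y (p j) ^ 2) / 2 -
        (∑ j, w j) * (dist x y ^ 2 / 4) := by
        simp only [Finset.sum_div, Finset.sum_mul, ← Finset.sum_add_distrib,
          ← Finset.sum_sub_distrib]
        refine Finset.sum_congr rfl fun j _ => ?_
        ring
    _ = _ := by rw [hsum, one_mul]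

private theorem simplex_pos {k : ℕ} {w : Fin k → ℝ} (hw : w ∈ stdSimplex ℝ (Fin k)) :
    ∃ j, 0 < w j := by
  by_contra hcon
  push Not at hcon
  have h1 : ∑ j, w j ≤ 0 := Finset.sum_nonpos fun j _ => hcon j
  have h2 : ∑ j, w j = 1 := hw.2
  linarith

theorem bary_var (h : CN X) {k : ℕ} {p : Fin k → X} {w : Fin k → ℝ}
    (hw : w ∈ stdSimplex ℝ (Fin k)) {b : X} (hb : IsBary p w b) (y : X) :
    ∑ j, w j * dist b (p j) ^ 2 + dist b y ^ 2 ≤ ∑ j, w j * dist y (p j) ^ 2 :=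
  min_var h (C := Set.univ) (fun _ _ _ _ _ _ => trivial)
    (f := fun x => ∑ j, w j * dist x (p j) ^ 2) (fw_conv h p hw)
    (Set.mem_univ b) (fun y _ => hb y) (Set.mem_univ y)

theorem bary_exists [CompleteSpace X] (h : CN X) {k : ℕ} (p : Fin k → X) {w : Fin k → ℝ}
    (hw : w ∈ stdSimplex ℝ (Fin k)) : ∃ b, IsBary p w b := by
  obtain ⟨j, -⟩ := simplex_pos hw
  obtain ⟨b, -, hb⟩ := exists_min h (C := Set.univ) isClosed_univ (fun _ _ _ _ _ _ => trivial)
    ⟨p j, trivial⟩ (fun x => ∑ j, w j * dist x (p j) ^ 2) (by fun_prop)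
    (fun x => Finset.sum_nonneg fun j _ => mul_nonneg (hw.1 j) (sq_nonneg _)) (fw_conv h p hw)
  refine ⟨b, fun y => ?_⟩
  have h1 := hb y trivial
  have h2 := sq_nonneg (dist b y)
  linarith

theorem bary_unique (h : CN X) {k : ℕ} {p : Fin k → X} {w : Fin k → ℝ}
    (hw : w ∈ stdSimplex ℝ (Fin k)) {b b' : X} (hb : IsBary p w b) (hb' : IsBary p w b') :
    b = b' := by
  have h1 := bary_var h hw hb b'
  have h2 := bary_var h hw hb' b
  rw [dist_comm b' b] at h2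
  have h3 : dist b b' ^ 2 ≤ 0 := by linarith
  have h4 : dist b b' = 0 := by
    have := sq_nonneg (dist b b')
    exact pow_eq_zero_iff two_ne_zero |>.1 (le_antisymm h3 this)
  exact dist_eq_zero.1 h4

theorem bary_mem [CompleteSpace X] (h : CN X) {k : ℕ} {p : Fin k → X} {w : Fin k → ℝ}
    (hw : w ∈ stdSimplex ℝ (Fin k)) {b : X} (hb : IsBary p w b) {C : Set X} (hC : IsClosed C)
    (hm : MidConv C) (hp : ∀ j, 0 < w j → p j ∈ C) : b ∈ C := by
  obtain ⟨j0, hj0⟩ := simplex_pos hw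
  obtain ⟨π, hπC, -, -, hπ⟩ := exists_retract h hC hm ⟨p j0, hp j0 hj0⟩
  have hsum : ∑ j, w j = 1 := hw.2
  have h1 : ∀ j, w j * (dist b (π b) ^ 2 + dist (π b) (p j) ^ 2) ≤ w j * dist b (p j) ^ 2 := by
    intro j
    rcases (hw.1 j).eq_or_lt with h0 | h0
    · rw [← h0]
      simp
    · exact mul_le_mul_of_nonneg_left (hπ b (p j) (hp j h0)) (hw.1 j)
  have h2 : dist b (π b) ^ 2 + ∑ j, w j * dist (π b) (p j) ^ 2 ≤
      ∑ j, w j * dist b (p j) ^ 2 := by
    calc dist b (π b) ^ 2 + ∑ j, w j * dist (π b) (p j) ^ 2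
        = (∑ j, w j) * dist b (π b) ^ 2 + ∑ j, w j * dist (π b) (p j) ^ 2 := by
          rw [hsum, one_mul]
      _ = ∑ j, w j * (dist b (π b) ^ 2 + dist (π b) (p j) ^ 2) := by
          rw [Finset.sum_mul, ← Finset.sum_add_distrib]
          exact Finset.sum_congr rfl fun j _ => by ring
      _ ≤ _ := Finset.sum_le_sum fun j _ => h1 j
  have h3 := hb (π b)
  have h4 : dist b (π b) ^ 2 ≤ 0 := by linarith
  have h5 : dist b (π b) = 0 :=
    pow_eq_zero_iff two_ne_zero |>.1 (le_antisymm h4 (sq_nonneg _))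
  rw [dist_eq_zero.1 h5]
  exact hπC b

private theorem bary_near (h : CN X) {k : ℕ} {p : Fin k → X} {w : Fin k → ℝ}
    (hw : w ∈ stdSimplex ℝ (Fin k)) {b : X} (hb : IsBary p w b) {R : ℝ} (hR0 : 0 ≤ R)
    (hR : ∀ i j, dist (p i) (p j) ≤ R) (i : Fin k) : dist b (p i) ≤ 2 * R := by
  have hsum : ∑ j, w j = 1 := hw.2
  obtain ⟨j0, hj0⟩ := simplex_pos hw
  have h1 : ∑ j, w j * dist b (p j) ^ 2 ≤ R ^ 2 := by
    refine (hb (p i)).trans ?_
    calc ∑ j, w j * dist (p i) (p j) ^ 2 ≤ ∑ j, w j * R ^ 2 :=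
          Finset.sum_le_sum fun j _ => mul_le_mul_of_nonneg_left
            (pow_le_pow_left₀ dist_nonneg (hR i j) 2) (hw.1 j)
      _ = R ^ 2 := by rw [← Finset.sum_mul, hsum, one_mul]
  obtain ⟨j, hj⟩ : ∃ j, dist b (p j) ≤ R := by
    by_contra hcon
    push Not at hcon
    have hlt : ∀ j, R ^ 2 < dist b (p j) ^ 2 := fun j =>
      pow_lt_pow_left₀ (hcon j) hR0 two_ne_zero
    have h2 : ∑ j, w j * R ^ 2 < ∑ j, w j * dist b (p j) ^ 2 :=
      Finset.sum_lt_sum (fun j _ => mul_le_mul_of_nonneg_left (hlt j).le (hw.1 j))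
        ⟨j0, Finset.mem_univ _, mul_lt_mul_of_pos_left (hlt j0) hj0⟩
    rw [← Finset.sum_mul, hsum, one_mul] at h2
    linarith
  have h3 := dist_triangle b (p j) (p i)
  have h4 := hR j i
  linarith

theorem bary_cont (h : CN X) {k : ℕ} {p : Fin k → X} {w w' : Fin k → ℝ}
    (hw : w ∈ stdSimplex ℝ (Fin k)) (hw' : w' ∈ stdSimplex ℝ (Fin k)) {b b' : X}
    (hb : IsBary p w b) (hb' : IsBary p w' b') {R : ℝ} (hR : ∀ i j, dist (p i) (p j) ≤ R) :
    dist b b' ^ 2 ≤ 4 * R ^ 2 * ∑ j, |w j - w' j| := by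
  obtain ⟨j0, hj0⟩ := simplex_pos hw
  have hR0 : 0 ≤ R := dist_nonneg.trans (hR j0 j0)
  have h1 := bary_var h hw hb b'
  have h2 := bary_var h hw' hb' b
  rw [dist_comm b' b] at h2
  have h3 : ∀ j, (w j - w' j) * (dist b' (p j) ^ 2 - dist b (p j) ^ 2) ≤
      |w j - w' j| * (4 * R ^ 2) := by
    intro j
    refine (le_abs_self _).trans ?_
    rw [abs_mul]
    refine mul_le_mul_of_nonneg_left ?_ (abs_nonneg _)
    have h4 := pow_le_pow_left₀ dist_nonneg (bary_near h hw hb hR0 hR j) 2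
    have h5 := pow_le_pow_left₀ dist_nonneg (bary_near h hw' hb' hR0 hR j) 2
    have h6 := sq_nonneg (dist b (p j))
    have h7 := sq_nonneg (dist b' (p j))
    rw [abs_le]
    constructor <;> nlinarith
  have h4 : ∑ j, (w j - w' j) * (dist b' (p j) ^ 2 - dist b (p j) ^ 2) ≤
      ∑ j, |w j - w' j| * (4 * R ^ 2) := Finset.sum_le_sum fun j _ => h3 j
  have h5 : ∑ j, (w j - w' j) * (dist b' (p j) ^ 2 - dist b (p j) ^ 2) =
      (∑ j, w j * dist b' (p j) ^ 2) + (∑ j, w' j * dist b (p j) ^ 2) -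
      (∑ j, w j * dist b (p j) ^ 2) - (∑ j, w' j * dist b' (p j) ^ 2) := by
    simp only [← Finset.sum_add_distrib, ← Finset.sum_sub_distrib]
    exact Finset.sum_congr rfl fun j _ => by ring
  rw [← Finset.sum_mul] at h4
  have h6 : 0 ≤ (∑ j, |w j - w' j|) * (4 * R ^ 2) :=
    mul_nonneg (Finset.sum_nonneg fun j _ => abs_nonneg _) (by positivity)
  nlinarith

end MP985a
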