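import Mathlib

/-!
# Coxeter elements shift a chain

PROOF. Induction on `n`, with `δ n = u 0 * u 1 * ... * u n` (state the induction for the product
`δ`, i.e. prove: `∀ i < n, δ n * u i * (δ n)⁻¹ = u (i+1)`, where `δ n = (List.range (n+1)).map u
|>.prod`, `List.prod_range_succ`; or strengthen to an existence statement with: `δ` commutes with
every element commuting with `u 0, .., u n`). `δ (n+1) = δ n * u (n+1)`. For `i < n`: `u (n+1)`
commutes with `u i` (`hcom i (n+1)`), so `δ (n+1) u i δ (n+1)⁻¹ = δ n u i (δ n)⁻¹ = u (i+1)`. For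
`i = n`: `δ (n+1) = δ (n-1) * u n * u (n+1)` (`δ (-1) = 1`), and
`u n * u (n+1) * u n * (u (n+1))⁻¹ * (u n)⁻¹ = u (n+1)` by the braid relation, and `δ (n-1)` commutes
with `u (n+1)` because all `u i`, `i ≤ n - 1`, do.
-/

namespace MP985a

private theorem cox_aux {G : Type*} [Group G] (u : ℕ → G) (n : ℕ)
    (hbr : ∀ i < n, u i * u (i + 1) * u i = u (i + 1) * u i * u (i + 1))
    (hcom : ∀ i j, i + 2 ≤ j → j ≤ n → Commute (u i) (u j)) :
    ∃ ε : G, (∀ x : G, (∀ i < n, Commute (u i) x) → Commute ε x) ∧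
      ∀ i < n, (ε * u n) * u i * (ε * u n)⁻¹ = u (i + 1) := by
  induction n with
  | zero =>
    refine ⟨1, fun x _ => Commute.one_left x, fun i hi => absurd hi (Nat.not_lt_zero i)⟩
  | succ n ih =>
    obtain ⟨ε, h1, h2⟩ := ih (fun i hi => hbr i (Nat.lt_succ_of_lt hi))
      (fun i j hij hj => hcom i j hij (Nat.le_succ_of_le hj))
    refine ⟨ε * u n, ?_, ?_⟩
    · intro x hx
      exact (h1 x fun i hi => hx i (Nat.lt_succ_of_lt hi)).mul_left (hx n (Nat.lt_succ_self n))
    · intro i hi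
      rcases Nat.lt_succ_iff_lt_or_eq.1 hi with h | h
      · have hc : Commute (u i) (u (n + 1)) := hcom i (n + 1) (by omega) le_rfl
        have e : ε * u n * u (n + 1) * u i * (ε * u n * u (n + 1))⁻¹ =
            ε * u n * (u (n + 1) * u i * (u (n + 1))⁻¹) * (ε * u n)⁻¹ := by group
        rw [e, ← hc.eq, mul_inv_cancel_right]
        exact h2 i h
      · subst h
        have hb := hbr i (Nat.lt_succ_self i)
        have hc : Commute ε (u (i + 1)) := h1 _ fun k hk => hcom k (i + 1) (by omega) le_rfl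
        have e : ε * u i * u (i + 1) * u i * (ε * u i * u (i + 1))⁻¹ =
            ε * (u i * u (i + 1) * u i) * (u (i + 1))⁻¹ * (u i)⁻¹ * ε⁻¹ := by group
        rw [e, hb]
        have e2 : ε * (u (i + 1) * u i * u (i + 1)) * (u (i + 1))⁻¹ * (u i)⁻¹ * ε⁻¹ =
            ε * u (i + 1) * ε⁻¹ := by group
        rw [e2, hc.eq, mul_inv_cancel_right]

theorem coxeter {G : Type*} [Group G] (u : ℕ → G) (n : ℕ)
    (hbr : ∀ i < n, u i * u (i + 1) * u i = u (i + 1) * u i * u (i + 1))
    (hcom : ∀ i j, i + 2 ≤ j → j ≤ n → Commute (u i) (u j)) :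
    ∃ δ : G, ∀ i < n, δ * u i * δ⁻¹ = u (i + 1) := by
  obtain ⟨ε, _, h⟩ := cox_aux u n hbr hcom
  exact ⟨ε * u n, h⟩

end MP985a
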