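import Pool.Agent.Lib.MP_985a2b_al.Quad

/-!
# Displacement sets and elementary rules for almost fixed points

`disp_closed`: intersection over `s ∈ S` of the closed sets `{x | dist x (s • x) ≤ ε}`
(`x ↦ s • x` is an isometry: `isometry_smul X s`, hence continuous).

`disp_midConv`: if `m` is the midpoint of `x, y` then `s • m` is the midpoint of `s • x, s • y`
(`dist_smul_smul`/`dist_smul`), so `mid_dist_le` gives
`dist m (s • m) ≤ (dist x (s • x) + dist y (s • y)) / 2 ≤ ε`.

`AE.of_inv`: `dist x (s⁻¹ • x) = dist (s • x) x` (apply the isometry `s`).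

`AE.conj`: if `x` is moved `≤ ε` by `s` then `a • x` is moved `≤ ε` by `a * s * a⁻¹`.

`AE.closure`: for every `f ∈ closure S` there is `n : ℕ` with: for all `ε ≥ 0` and all `x` moved
`≤ ε` by all elements of `S`, `dist x (f • x) ≤ n * ε` (induction `Subgroup.closure_induction`:
`dist x (a b x) ≤ dist x (a x) + dist (a x) (a b x)`, inverses as above). For the finite set `F`
take the maximum (or the sum) `n` of these numbers and an almost fixed point of `S` for
`ε / (n + 1)`.

`Disp_smul_mem`: if every `s ∈ S` satisfies `a⁻¹ * s * a ∈ S ∨ (a⁻¹ * s * a)⁻¹ ∈ S` then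
`a • x ∈ Disp X S ε` for `x ∈ Disp X S ε`: `dist (a • x) (s • a • x) = dist x ((a⁻¹ * s * a) • x)`.
-/

namespace MP985a

variable {X : Type*} [MetricSpace X] {G : Type*} [Group G] [MulAction G X] [IsIsometricSMul G X]

theorem disp_closed (S : Set G) (ε : ℝ) : IsClosed (Disp X S ε) := by
  have h1 : Disp X S ε = ⋂ s ∈ S, {x : X | dist x (s • x) ≤ ε} := by
    ext x
    simp only [Disp, Set.mem_setOf_eq, Set.mem_iInter]
  rw [h1]
  refine isClosed_biInter fun s _ => ?_
  exact isClosed_le (continuous_id.dist (isometry_smul X s).continuous) continuous_const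

theorem disp_midConv (h : CN X) (S : Set G) (ε : ℝ) : MidConv (Disp X S ε) := by
  intro x hx y hy m hm s hs
  have h1 : IsMid (s • x) (s • y) (s • m) := by
    refine ⟨?_, ?_⟩
    · rw [dist_smul, dist_smul]; exact hm.1
    · rw [dist_smul, dist_smul]; exact hm.2
  have h2 := mid_dist_le h hm h1
  have h3 := hx s hs
  have h4 := hy s hs
  linarith

theorem dist_inv_smul (a : G) (x : X) : dist x (a⁻¹ • x) = dist x (a • x) := by
  rw [← dist_smul a x (a⁻¹ • x), smul_inv_smul, dist_comm]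

theorem Disp_smul_mem {S : Set G} {ε : ℝ} {a : G}
    (ha : ∀ s ∈ S, a⁻¹ * s * a ∈ S ∨ (a⁻¹ * s * a)⁻¹ ∈ S) {x : X} (hx : x ∈ Disp X S ε) :
    a • x ∈ Disp X S ε := by
  intro s hs
  have h1 : dist (a • x) (s • a • x) = dist x ((a⁻¹ * s * a) • x) := by
    rw [← dist_smul a x ((a⁻¹ * s * a) • x), smul_smul, smul_smul]
    congr 2
    group
  rw [h1]
  rcases ha s hs with h2 | h2
  · exact hx _ h2
  · rw [← dist_inv_smul]
    exact hx _ h2

omit [IsIsometricSMul G X] in
theorem AE.mono {S T : Set G} (hT : AE X T) (hST : S ⊆ T) : AE X S := by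
  intro ε hε
  obtain ⟨x, hx⟩ := hT ε hε
  exact ⟨x, fun s hs => hx s (hST hs)⟩

omit [IsIsometricSMul G X] in
theorem AE.empty [Nonempty X] : AE X (∅ : Set G) := by
  intro ε _
  exact ⟨Classical.arbitrary X, fun s hs => absurd hs (Set.notMem_empty s)⟩

theorem AE.of_inv {S T : Set G} (hS : AE X S) (hST : ∀ t ∈ T, t ∈ S ∨ t⁻¹ ∈ S) : AE X T := by
  intro ε hε
  obtain ⟨x, hx⟩ := hS ε hε
  refine ⟨x, fun t ht => ?_⟩
  rcases hST t ht with h1 | h1
  · exact hx t h1
  · rw [← dist_inv_smul]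
    exact hx _ h1

theorem AE.conj {S : Set G} (hS : AE X S) (a : G) : AE X ((fun s => a * s * a⁻¹) '' S) := by
  intro ε hε
  obtain ⟨x, hx⟩ := hS ε hε
  refine ⟨a • x, ?_⟩
  rintro _ ⟨s, hs, rfl⟩
  have h1 : (a * s * a⁻¹) • a • x = a • s • x := by
    rw [smul_smul, smul_smul]
    congr 1
    group
  dsimp only
  rw [h1, dist_smul]
  exact hx s hs

/-- The form that is used: every `t ∈ T` is, up to conjugation by the fixed element `a` and up to
inversion, in `S`. -/
theorem AE.of_conj {S T : Set G} (hS : AE X S) (a : G)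
    (hT : ∀ t ∈ T, a * t * a⁻¹ ∈ S ∨ (a * t * a⁻¹)⁻¹ ∈ S) : AE X T := by
  have h1 : AE X {g : G | a * g * a⁻¹ ∈ S} := by
    refine (hS.conj a⁻¹).mono ?_
    intro g hg
    refine ⟨a * g * a⁻¹, hg, ?_⟩
    dsimp only
    group
  refine h1.of_inv fun t ht => ?_
  rcases hT t ht with h2 | h2
  · exact Or.inl h2
  · refine Or.inr ?_
    change a * t⁻¹ * a⁻¹ ∈ S
    have h3 : a * t⁻¹ * a⁻¹ = (a * t * a⁻¹)⁻¹ := by group
    rw [h3]
    exact h2

theorem AE.closure {S F : Set G} (hS : AE X S) (hF : F.Finite)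
    (hFS : F ⊆ (Subgroup.closure S : Set G)) : AE X F := by
  have h1 : ∀ f ∈ Subgroup.closure S, ∃ n : ℕ, ∀ ε : ℝ, 0 ≤ ε → ∀ x : X,
      (∀ s ∈ S, dist x (s • x) ≤ ε) → dist x (f • x) ≤ n * ε := by
    intro f hf
    induction hf using Subgroup.closure_induction with
    | mem s hs =>
      refine ⟨1, fun ε _ x hx => ?_⟩
      rw [Nat.cast_one, one_mul]
      exact hx s hs
    | one =>
      refine ⟨0, fun ε _ x _ => ?_⟩
      rw [one_smul, dist_self, Nat.cast_zero, zero_mul]
    | mul a b _ _ iha ihb =>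
      obtain ⟨na, ha⟩ := iha
      obtain ⟨nb, hb⟩ := ihb
      refine ⟨na + nb, fun ε hε x hx => ?_⟩
      have h2 := ha ε hε x hx
      have h3 := hb ε hε x hx
      have h4 := dist_triangle x (a • x) ((a * b) • x)
      rw [mul_smul, dist_smul] at h4
      rw [mul_smul]
      push_cast
      linarith
    | inv a _ iha =>
      obtain ⟨na, ha⟩ := iha
      refine ⟨na, fun ε hε x hx => ?_⟩
      rw [dist_inv_smul]
      exact ha ε hε x hx
  classical
  choose! n hn using h1
  intro ε hε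
  obtain ⟨N, hN⟩ : ∃ N : ℕ, ∀ f ∈ F, n f ≤ N := by
    refine ⟨∑ f ∈ hF.toFinset, n f, fun f hf => ?_⟩
    exact Finset.single_le_sum (f := fun f => n f) (fun _ _ => Nat.zero_le _)
      (hF.mem_toFinset.2 hf)
  have hN0 : (0 : ℝ) < (N : ℝ) + 1 := by positivity
  obtain ⟨x, hx⟩ := hS (ε / (N + 1)) (by positivity)
  refine ⟨x, fun f hf => ?_⟩
  refine (hn f (hFS hf) (ε / (N + 1)) (by positivity) x hx).trans ?_
  have h2 : (n f : ℝ) ≤ N := by exact_mod_cast hN f hf
  rw [mul_div_assoc', div_le_iff₀ hN0]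
  nlinarith

end MP985a
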