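import Pool.Agent.Lib.MP_985a2b_al.Proj
import Pool.Agent.Lib.MP_985a2b_al.Disp

/-!
# Commuting families

`AE.union_comm`. PROOF. Let `ε > 0`, `C = Disp X S ε`: closed, midpoint convex, nonempty; let `π`
be the retraction of `exists_retract`. Every `t ∈ T` (and `t⁻¹`) maps `C` to itself
(`Disp_smul_mem`, `t⁻¹ * s * t = s`). Claim `π (t • x) = t • π x` for `t ∈ T`: with
`q = t • π x ∈ C` the last property of `π` gives
`dist (t • x) (π (t • x))^2 + dist (π (t • x)) (t • π x)^2 ≤ dist (t • x) (t • π x)^2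
= dist x (π x)^2`, and with `q = t⁻¹ • π (t • x) ∈ C`: `dist x (π x)^2 ≤ dist x (t⁻¹ • π (t•x))^2
= dist (t • x) (π (t • x))^2`. So `dist (π (t • x)) (t • π x) = 0`. Take `x` moved `≤ ε` by all
`t ∈ T`; then `π x ∈ C` and `dist (π x) (t • π x) = dist (π x) (π (t • x)) ≤ dist x (t • x) ≤ ε`.

`AE.iUnion_comm`: induction on `N` (`Fin.castSucc`, `Fin.last`; or `Finset` induction), the empty
union is `AE.empty`.
-/

namespace MP985a

variable {X : Type*} [MetricSpace X] {G : Type*} [Group G] [MulAction G X] [IsIsometricSMul G X]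

theorem AE.union_comm [CompleteSpace X] (h : CN X) {S T : Set G} (hS : AE X S) (hT : AE X T)
    (hcomm : ∀ s ∈ S, ∀ t ∈ T, Commute s t) : AE X (S ∪ T) := by
  intro ε hε
  have hne : (Disp X S ε).Nonempty := hS ε hε
  obtain ⟨π, h1, -, h3, h4⟩ := exists_retract h (disp_closed S ε) (disp_midConv h S ε) hne
  have hC : ∀ t : G, (∀ s ∈ S, Commute s t) → ∀ x ∈ Disp X S ε, t • x ∈ Disp X S ε := by
    intro t ht x hx
    refine Disp_smul_mem (fun s hs => Or.inl ?_) hx
    have e : t⁻¹ * s * t = s := by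
      have := ht s hs
      rw [mul_assoc, this.eq, inv_mul_cancel_left]
    rw [e]; exact hs
  have key : ∀ t ∈ T, ∀ x : X, π (t • x) = t • π x := by
    intro t ht x
    have ht' : ∀ s ∈ S, Commute s t := fun s hs => hcomm s hs t ht
    have a1 := h4 (t • x) (t • π x) (hC t ht' _ (h1 x))
    have a2 := h4 x (t⁻¹ • π (t • x)) (hC t⁻¹ (fun s hs => (ht' s hs).inv_right) _ (h1 _))
    have e1 : dist (t • x) (t • π x) = dist x (π x) := dist_smul _ _ _
    have e2 : dist x (t⁻¹ • π (t • x)) = dist (t • x) (π (t • x)) := by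
      rw [← dist_smul t x, smul_inv_smul]
    rw [e1] at a1
    rw [e2] at a2
    have a3 : dist (π (t • x)) (t • π x) ^ 2 ≤ 0 := by
      have := sq_nonneg (dist (π x) (t⁻¹ • π (t • x)))
      linarith
    have a4 : dist (π (t • x)) (t • π x) = 0 := by
      have := sq_nonneg (dist (π (t • x)) (t • π x))
      exact pow_eq_zero_iff two_ne_zero |>.1 (le_antisymm a3 this)
    exact dist_eq_zero.1 a4
  obtain ⟨x, hx⟩ := hT ε hε
  refine ⟨π x, ?_⟩
  rintro s (hs | hs)
  · exact h1 x s hs
  · rw [← key s hs x]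
    exact (h3 _ _).trans (hx s hs)

theorem AE.iUnion_comm [CompleteSpace X] [Nonempty X] (h : CN X) {N : ℕ} (S : Fin N → Set G)
    (hS : ∀ i, AE X (S i))
    (hcomm : ∀ i j, i ≠ j → ∀ s ∈ S i, ∀ t ∈ S j, Commute s t) : AE X (⋃ i, S i) := by
  classical
  have key : ∀ A : Finset (Fin N), AE X (⋃ i ∈ A, S i) := by
    intro A
    induction A using Finset.induction_on with
    | empty => simpa using (AE.empty : AE X (∅ : Set G))
    | insert a A ha ih =>
      rw [Finset.set_biUnion_insert]
      refine AE.union_comm h (hS a) ih ?_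
      intro s hs t ht
      simp only [Set.mem_iUnion] at ht
      obtain ⟨j, hj, htj⟩ := ht
      exact hcomm a j (fun e => ha (e ▸ hj)) s hs t htj
  have := key Finset.univ
  simpa using this

end MP985a
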