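import Pool.Agent.Lib.MP_985a2b_al.Pos
import Pool.Agent.Lib.MP_985a2b_al.Cox
import Pool.Agent.Lib.MP_985a2b_al.RComm

/-!
# The path of a block

`path p q = {cur (false, x) | p ≤ x ≤ q}`. Suppose that all blocks of length `< K` are AE, where
`K = q - p + 1`, `1 ≤ K ≤ 2 g - 2`. Then the path is AE.

PROOF. `shift_right`: let `y : ℤ` and `u 0, u 1, ..., u K` a chain (`coxeter`); if the set of
`u 0 .. u (K-1)` is AE then so is the set of `u 1 .. u K` (`AE.of_conj` with `δ⁻¹`); and conversely.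

(a) `p` even, `p = 2 i`: `u 0 = m i`, `u (j+1) = v (p + j)` for `j < K`: braid relations `m_v_braid`,
`v_braid`; `u 0` commutes with `v (p + j)`, `1 ≤ j ≤ K - 1 < 2 g` (`m_v_comm`), `v_comm` for the others
(difference between `2` and `K - 1 ≤ 2 g - 3`). `u 0, .., u (K-1)` is contained in
`cur '' Blk p (q - 1)` (`m i` has position `p`; if `K = 1` then the set is `{m i}`, hmm: `Blk p (p-1)`
is empty; in this case use `hsingle`). So the path `u 1, .., u K` is AE.

(b) `p` odd and `q` even, `q = 2 i`: mirror image: `u 0 = m i`, `u (j+1) = v (q - j)`, `j < K`;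
`u 0, .., u (K-1)` is in `cur '' Blk (p + 1) q`.

(c) `p` and `q` odd: then `K` is odd, so `K + 1 ≤ 2 g - 2` and `v (p - 1), v p, .., v q` is a chain
`u 0, .., u K` (`u j = v (p - 1 + j)`; differences up to `K ≤ 2 g - 2`: `v_comm`). The set
`u 0, .., u (K-1)` is the path of `(p - 1, q - 1)`, which is AE by (a), as `p - 1` is even. So the
path `u 1, .., u K` is AE.
-/

namespace MP985a

open Set

namespace TwistData

variable {g : ℕ} {G : Type*} [Group G] (T : TwistData g G)
variable {X : Type*} [MetricSpace X] [MulAction G X] [IsIsometricSMul G X]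

/-- Chains can be shifted to the right. -/
theorem AE_shift (u : ℕ → G) (n : ℕ)
    (hbr : ∀ i < n, u i * u (i + 1) * u i = u (i + 1) * u i * u (i + 1))
    (hcom : ∀ i j, i + 2 ≤ j → j ≤ n → Commute (u i) (u j))
    (hu : AE X (u '' {i | i < n})) : AE X (u '' {i | 1 ≤ i ∧ i ≤ n}) := by
  obtain ⟨δ, hδ⟩ := coxeter u n hbr hcom
  refine AE.of_conj hu δ⁻¹ ?_
  rintro _ ⟨i, ⟨h1, h2⟩, rfl⟩
  obtain ⟨k, rfl⟩ : ∃ k, i = k + 1 := ⟨i - 1, by omega⟩
  refine Or.inl ⟨k, by simp only [mem_setOf_eq]; omega, ?_⟩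
  rw [← hδ k (by omega)]
  group

private theorem AE_path_even (hsingle : ∀ c, AE X ({T.cur c} : Set G)) (p q i : ℤ) (hp : p = 2 * i)
    (h1 : 1 ≤ q - p + 1) (h2 : q - p + 1 ≤ 2 * g - 2)
    (ih : ∀ p' q' : ℤ, 1 ≤ q' - p' + 1 → q' - p' + 1 < q - p + 1 →
      AE X (T.cur '' (Blk p' q' : Set (Bool × ℤ)))) :
    AE X (T.v '' {x | p ≤ x ∧ x ≤ q}) := by
  obtain ⟨K, hK⟩ : ∃ K : ℕ, (K : ℤ) = q - p + 1 := ⟨(q - p + 1).toNat, by omega⟩
  have hu : AE X ((fun j : ℕ => if j = 0 then T.m i else T.v (p + (j - 1 : ℤ))) '' {j | j < K}) := by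
    rcases Nat.lt_or_ge K 2 with hK2 | hK2
    · refine AE.mono (hsingle (true, i)) ?_
      rintro _ ⟨j, hj, rfl⟩
      have : j = 0 := by
        simp only [mem_setOf_eq] at hj
        omega
      subst this
      simp [TwistData.cur]
    · refine AE.mono (ih p (q - 1) (by omega) (by omega)) ?_
      rintro _ ⟨j, hj, rfl⟩
      simp only [mem_setOf_eq] at hj
      by_cases h0 : j = 0
      · subst h0
        refine ⟨(true, i), ?_, by simp [TwistData.cur]⟩
        rw [Finset.mem_coe, mem_Blk]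
        simp only [pos, if_true]
        omega
      · refine ⟨(false, p + (j - 1 : ℤ)), ?_, by simp [TwistData.cur, h0]⟩
        rw [Finset.mem_coe, mem_Blk]
        simp only [pos, Bool.false_eq_true, if_false]
        omega
  refine AE.mono (AE_shift _ K ?_ ?_ hu) ?_
  · intro j hj
    by_cases h0 : j = 0
    · subst h0
      simp only [if_true, Nat.add_eq_zero_iff, one_ne_zero, and_false, if_false, zero_add,
        Nat.cast_one, sub_self, add_zero]
      rw [hp]
      exact T.m_v_braid i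
    · simp only [h0, Nat.add_eq_zero_iff, one_ne_zero, and_false, if_false, Nat.cast_add,
        Nat.cast_one]
      have := T.v_braid (p + (j - 1 : ℤ))
      rw [show p + (j - 1 : ℤ) + 1 = p + (j + 1 - 1 : ℤ) by ring] at this
      exact this
  · intro a b hab hb
    have hb0 : b ≠ 0 := by omega
    by_cases h0 : a = 0
    · subst h0
      simp only [if_true, hb0, if_false]
      refine T.m_v_comm (by omega) ?_
      rw [abs_lt]
      constructor <;> omega
    · simp only [h0, hb0, if_false]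
      exact T.v_comm (by omega) (by omega)
  · rintro _ ⟨x, ⟨hx1, hx2⟩, rfl⟩
    refine ⟨(x - p + 1).toNat, ⟨by omega, by omega⟩, ?_⟩
    have h0 : (x - p + 1).toNat ≠ 0 := by omega
    simp only [h0, if_false]
    congr 1
    omega

private theorem AE_path_even' (hsingle : ∀ c, AE X ({T.cur c} : Set G)) (p q i : ℤ) (hq : q = 2 * i)
    (h1 : 1 ≤ q - p + 1) (h2 : q - p + 1 ≤ 2 * g - 2)
    (ih : ∀ p' q' : ℤ, 1 ≤ q' - p' + 1 → q' - p' + 1 < q - p + 1 →
      AE X (T.cur '' (Blk p' q' : Set (Bool × ℤ)))) :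
    AE X (T.v '' {x | p ≤ x ∧ x ≤ q}) := by
  obtain ⟨K, hK⟩ : ∃ K : ℕ, (K : ℤ) = q - p + 1 := ⟨(q - p + 1).toNat, by omega⟩
  have hu : AE X ((fun j : ℕ => if j = 0 then T.m i else T.v (q - (j - 1 : ℤ))) '' {j | j < K}) := by
    rcases Nat.lt_or_ge K 2 with hK2 | hK2
    · refine AE.mono (hsingle (true, i)) ?_
      rintro _ ⟨j, hj, rfl⟩
      have : j = 0 := by
        simp only [mem_setOf_eq] at hj
        omega
      subst this
      simp [TwistData.cur]
    · refine AE.mono (ih (p + 1) q (by omega) (by omega)) ?_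
      rintro _ ⟨j, hj, rfl⟩
      simp only [mem_setOf_eq] at hj
      by_cases h0 : j = 0
      · subst h0
        refine ⟨(true, i), ?_, by simp [TwistData.cur]⟩
        rw [Finset.mem_coe, mem_Blk]
        simp only [pos, if_true]
        omega
      · refine ⟨(false, q - (j - 1 : ℤ)), ?_, by simp [TwistData.cur, h0]⟩
        rw [Finset.mem_coe, mem_Blk]
        simp only [pos, Bool.false_eq_true, if_false]
        omega
  refine AE.mono (AE_shift _ K ?_ ?_ hu) ?_
  · intro j hj
    by_cases h0 : j = 0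
    · subst h0
      simp only [if_true, Nat.add_eq_zero_iff, one_ne_zero, and_false, if_false, zero_add,
        Nat.cast_one, sub_self, sub_zero]
      rw [hq]
      exact T.m_v_braid i
    · simp only [h0, Nat.add_eq_zero_iff, one_ne_zero, and_false, if_false, Nat.cast_add,
        Nat.cast_one]
      have := T.v_braid (q - (j + 1 - 1 : ℤ))
      rw [show q - (j + 1 - 1 : ℤ) + 1 = q - (j - 1 : ℤ) by ring] at this
      exact this.symm
  · intro a b hab hb
    have hb0 : b ≠ 0 := by omega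
    by_cases h0 : a = 0
    · subst h0
      simp only [if_true, hb0, if_false]
      refine T.m_v_comm (by omega) ?_
      rw [abs_lt]
      constructor <;> omega
    · simp only [h0, hb0, if_false]
      exact (T.v_comm (by omega) (by omega)).symm
  · rintro _ ⟨x, ⟨hx1, hx2⟩, rfl⟩
    refine ⟨(q - x + 1).toNat, ⟨by omega, by omega⟩, ?_⟩
    have h0 : (q - x + 1).toNat ≠ 0 := by omega
    simp only [h0, if_false]
    congr 1
    omega

theorem AE_path (hsingle : ∀ c, AE X ({T.cur c} : Set G)) (p q : ℤ) (h1 : 1 ≤ q - p + 1)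
    (h2 : q - p + 1 ≤ 2 * g - 2)
    (ih : ∀ p' q' : ℤ, 1 ≤ q' - p' + 1 → q' - p' + 1 < q - p + 1 →
      AE X (T.cur '' (Blk p' q' : Set (Bool × ℤ)))) :
    AE X (T.v '' {x | p ≤ x ∧ x ≤ q}) := by
  rcases Int.even_or_odd' p with ⟨i, hi | hi⟩
  · exact AE_path_even T hsingle p q i hi h1 h2 ih
  rcases Int.even_or_odd' q with ⟨j, hj | hj⟩
  · exact AE_path_even' T hsingle p q j hj h1 h2 ih
  obtain ⟨K, hK⟩ : ∃ K : ℕ, (K : ℤ) = q - p + 1 := ⟨(q - p + 1).toNat, by omega⟩
  have h := AE_path_even T hsingle (p - 1) (q - 1) i (by omega) (by omega) (by omega)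
    (fun p' q' h3 h4 => ih p' q' h3 (by omega))
  have hu : AE X ((fun j : ℕ => T.v (p - 1 + j)) '' {j | j < K}) := by
    refine AE.mono h ?_
    rintro _ ⟨j, hj, rfl⟩
    simp only [mem_setOf_eq] at hj
    exact ⟨p - 1 + j, ⟨by omega, by omega⟩, rfl⟩
  refine AE.mono (AE_shift _ K ?_ ?_ hu) ?_
  · intro j hj
    have := T.v_braid (p - 1 + j)
    rw [show p - 1 + (j : ℤ) + 1 = p - 1 + ((j + 1 : ℕ) : ℤ) by push_cast; ring] at this
    exact this
  · intro a b hab hb
    exact T.v_comm (by omega) (by omega)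
  · rintro _ ⟨x, ⟨hx1, hx2⟩, rfl⟩
    refine ⟨(x - p + 1).toNat, ⟨by omega, by omega⟩, ?_⟩
    show T.v _ = _
    congr 1
    omega

end TwistData

end MP985a
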