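import Pool.Agent.Lib.MP_985a2b_al.Dup
import Pool.Agent.Lib.MP_985a2b_al.RComm

/-!
# Ample duplication for groups and the Helly induction

`dupG`. PROOF. Let `ε > 0` and `C t m = Disp X {f t * s m * (f t)⁻¹} ε` (closed and midpoint convex:
`disp_closed`, `disp_midConv`). For a selection `j : Fin N → Fin (k+1)` the sets
`S t = {f t * s m * (f t)⁻¹ | m ≠ j t}` are AE (`AE.conj` applied to `hsub (j t)`, `AE.mono`) and
commute pairwise (`hcomm`), so `AE.iUnion_comm` gives a point moved `≤ ε` by all of them. `dup`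
gives `t` and `x` moved `≤ ε` by all `f t * s m * (f t)⁻¹`; then `(f t)⁻¹ • x` is moved `≤ ε` by
all `s m`.

`helly_induct`. PROOF. Claim: for every `S ⊆ F`, `AE X (T '' S)`, by induction on `S.card`. If
`S.card ≤ K` use `hsmall`. Otherwise `S.card = k + 1` with `K ≤ k`, so `d < N * K ≤ N * k`. Let
`e : Fin (k+1) ≃ S` (`S.equivFin` with `S.card = k + 1`, or `S.equivFinOfCardEq`), `s m = T (e m)`.
For every `j` the set `s '' {m | m ≠ j} = T '' (S.erase (e j))` is AE by induction. `dupG` with the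
given `f` (commutation from `hcomm` and `S ⊆ F`) gives `AE X (range s)`, `range s = T '' S`.
-/

namespace MP985a

open Set

variable {X : Type*} [MetricSpace X] {G : Type*} [Group G] [MulAction G X] [IsIsometricSMul G X]

theorem dupG [CompleteSpace X] [Nonempty X] (h : CN X) {d : ℕ} (hE : Ess X d) {N k : ℕ}
    (hd : d < N * k) (s : Fin (k + 1) → G) (f : Fin N → G)
    (hcomm : ∀ t t', t ≠ t' → ∀ m m',
      Commute (f t * s m * (f t)⁻¹) (f t' * s m' * (f t')⁻¹))
    (hsub : ∀ j, AE X (s '' {m | m ≠ j})) : AE X (range s) := by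
  intro ε hε
  have hdup := dup (n := k) h hE hd (fun t m => Disp X {f t * s m * (f t)⁻¹} ε)
    (fun t m => disp_closed _ _) (fun t m => disp_midConv h _ _) ?_
  · obtain ⟨t, x, hx⟩ := hdup
    refine ⟨(f t)⁻¹ • x, ?_⟩
    rintro _ ⟨m, rfl⟩
    have h1 := hx m (f t * s m * (f t)⁻¹) (mem_singleton _)
    rw [← dist_smul (f t) ((f t)⁻¹ • x), smul_inv_smul, smul_smul, smul_smul]
    exact h1
  · intro j
    have h1 : AE X (⋃ t, (fun g => f t * g * (f t)⁻¹) '' (s '' {m | m ≠ j t})) := by
      refine AE.iUnion_comm h _ (fun t => (hsub (j t)).conj (f t)) ?_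
      rintro t t' htt _ ⟨_, ⟨m, -, rfl⟩, rfl⟩ _ ⟨_, ⟨m', -, rfl⟩, rfl⟩
      exact hcomm t t' htt m m'
    obtain ⟨x, hx⟩ := h1 ε hε
    refine ⟨x, fun t m hm g hg => ?_⟩
    rw [mem_singleton_iff] at hg
    subst hg
    exact hx _ (mem_iUnion.2 ⟨t, ⟨s m, ⟨m, hm, rfl⟩, rfl⟩⟩)

theorem helly_induct [CompleteSpace X] [Nonempty X] (h : CN X) {d : ℕ} (hE : Ess X d) {N K : ℕ}
    (hd : d < N * K) {ι : Type*} (T : ι → G) (F : Finset ι) (f : Fin N → G)
    (hcomm : ∀ t t', t ≠ t' → ∀ a ∈ F, ∀ b ∈ F,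
      Commute (f t * T a * (f t)⁻¹) (f t' * T b * (f t')⁻¹))
    (hsmall : ∀ S : Finset ι, S ⊆ F → S.card ≤ K → AE X (T '' (S : Set ι))) :
    AE X (T '' (F : Set ι)) := by
  classical
  have key : ∀ n : ℕ, ∀ S : Finset ι, S ⊆ F → S.card = n → AE X (T '' (S : Set ι)) := by
    intro n
    induction n using Nat.strong_induction_on with
    | _ n ih =>
      intro S hS hn
      rcases le_or_gt S.card K with hK | hK
      · exact hsmall S hS hK
      obtain ⟨k, hk⟩ : ∃ k, S.card = k + 1 := ⟨S.card - 1, by omega⟩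
      have hKk : K ≤ k := by omega
      have hd' : d < N * k := lt_of_lt_of_le hd (Nat.mul_le_mul_left _ hKk)
      let e : Fin (k + 1) ≃ S := (Finset.equivFinOfCardEq hk).symm
      have h1 : AE X (range fun m : Fin (k + 1) => T (e m)) := by
        refine dupG h hE hd' (fun m => T (e m)) f ?_ ?_
        · intro t t' htt m m'
          exact hcomm t t' htt _ (hS (e m).2) _ (hS (e m').2)
        · intro j
          have h2 := ih (S.erase (e j)).card (by
            rw [Finset.card_erase_of_mem (e j).2]; omega) (S.erase (e j))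
            ((Finset.erase_subset _ _).trans hS) rfl
          refine h2.mono ?_
          rintro _ ⟨m, hm, rfl⟩
          refine ⟨e m, ?_, rfl⟩
          rw [Finset.mem_coe, Finset.mem_erase]
          exact ⟨fun h3 => hm (e.injective (Subtype.ext h3)), (e m).2⟩
      refine h1.mono ?_
      rintro _ ⟨a, ha, rfl⟩
      refine ⟨e.symm ⟨a, ha⟩, ?_⟩
      simp only [Equiv.apply_symm_apply]
  exact key F.card F (Finset.Subset.refl F) rfl

end MP985a
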