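import Pool.Agent.Lib.MP_985a2b_al.Copies
import Pool.Agent.Lib.MP_985a2b_al.Chain
import Pool.Agent.Lib.MP_985a2b_al.DupG

/-!
# All blocks of length at most `2 g - 2` are AE

`AE_remove`. PROOF. `Blk p q` without `(false, x)` (`p ≤ x ≤ q`) is contained in
`Blk p (x-1) ∪ Blk (x+1) q ∪ {(true, x/2)}` (the last one only if `x` is even: it is the only curve
with position `x` besides `(false, x)`). The three families are AE (`hsingle`) and commute:
positions of the first and of the second differ by `≥ 2` and `≤ K - 1 ≤ 2 g - 2` (`cur_comm`);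
`m (x/2)` commutes with all `m`'s and with `v y`, `y ≠ x`, `|y - x| < 2 g` (`m_comm`, `m_v_comm`).
`AE.union_comm` twice (images of unions, `AE.mono`).

`AE_Blk`. PROOF. Strong induction on the natural number `K = q - p + 1` (for `K ≤ 0` the block is
empty: `AE.empty`). Let `1 ≤ K ≤ 2 g - 2`. `helly_induct` with `T = T.cur`, `F = Blk p q`,
`N = 2 g / (K+1)`, `f` from `exists_copies`, `d < g ≤ N * K` (`arith`). `hsmall`: let `S ⊆ Blk p q`
with `S.card ≤ K`. If `(false, x) ∉ S` for some `x ∈ [p, q]` then `AE_remove` (with the induction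
hypothesis) and `AE.mono`. Otherwise the `K` curves `(false, x)`, `x ∈ [p, q]`, all lie in `S`, so
`S` is equal to the set of these (`Finset.eq_of_subset_of_card_le`,
`Finset.card_image_of_injective`, `Int.card_Icc`) and `T.cur '' S = T.v '' {x | p ≤ x ∧ x ≤ q}` is AE
by `AE_path`.
-/

namespace MP985a

open Set

namespace TwistData

variable {g : ℕ} {G : Type*} [Group G] (T : TwistData g G)
variable {X : Type*} [MetricSpace X] [MulAction G X] [IsIsometricSMul G X]

theorem AE_remove [CompleteSpace X] (h : CN X) (hsingle : ∀ c, AE X ({T.cur c} : Set G))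
    (p q x : ℤ) (h1 : p ≤ x) (h2 : x ≤ q) (h3 : q - p + 1 ≤ 2 * g - 1)
    (hl : AE X (T.cur '' (Blk p (x - 1) : Set (Bool × ℤ))))
    (hr : AE X (T.cur '' (Blk (x + 1) q : Set (Bool × ℤ)))) :
    AE X (T.cur '' {c | c ∈ Blk p q ∧ c ≠ (false, x)}) := by
  have hAB := AE.union_comm h hl hr (by
    rintro _ ⟨c, hc, rfl⟩ _ ⟨c', hc', rfl⟩
    rw [Finset.mem_coe, mem_Blk] at hc hc'
    exact T.cur_comm (by omega) (by omega))
  by_cases hx : Even x
  · obtain ⟨i, hi⟩ := hx
    have hC := AE.union_comm h hAB (hsingle (true, i)) (by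
      intro s hs t ht
      rw [Set.mem_singleton_iff] at ht
      have key : ∀ c : Bool × ℤ, p ≤ pos c → pos c ≤ q → pos c ≠ x →
          Commute (T.cur c) (T.cur (true, i)) := by
        rintro ⟨b, y⟩ hc1 hc2 hc3
        cases b
        · have hy : pos (false, y) = y := rfl
          rw [hy] at hc1 hc2 hc3
          refine (T.m_v_comm (i := i) (x := y) (by omega) ?_).symm
          rw [abs_lt]
          constructor <;> omega
        · exact T.m_comm y i
      rw [ht]
      rcases hs with ⟨c, hc, rfl⟩ | ⟨c, hc, rfl⟩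
      · rw [Finset.mem_coe, mem_Blk] at hc
        exact key c (by omega) (by omega) (by omega)
      · rw [Finset.mem_coe, mem_Blk] at hc
        exact key c (by omega) (by omega) (by omega))
    refine AE.mono hC ?_
    rintro _ ⟨c, ⟨hc, hcx⟩, rfl⟩
    rw [mem_Blk] at hc
    rcases lt_trichotomy (pos c) x with hlt | heq | hgt
    · exact Or.inl (Or.inl ⟨c, by rw [Finset.mem_coe, mem_Blk]; omega, rfl⟩)
    · right
      obtain ⟨b, y⟩ := c
      cases b
      · have hy : pos (false, y) = y := rfl
        rw [hy] at heq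
        exact absurd (by rw [heq]) hcx
      · have hy : pos (true, y) = 2 * y := rfl
        rw [hy] at heq
        have : y = i := by omega
        rw [this]
        rfl
    · exact Or.inl (Or.inr ⟨c, by rw [Finset.mem_coe, mem_Blk]; omega, rfl⟩)
  · refine AE.mono hAB ?_
    rintro _ ⟨c, ⟨hc, hcx⟩, rfl⟩
    rw [mem_Blk] at hc
    rcases lt_trichotomy (pos c) x with hlt | heq | hgt
    · exact Or.inl ⟨c, by rw [Finset.mem_coe, mem_Blk]; omega, rfl⟩
    · exfalso
      obtain ⟨b, y⟩ := c
      cases b
      · have hy : pos (false, y) = y := rfl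
        rw [hy] at heq
        exact absurd (by rw [heq]) hcx
      · have hy : pos (true, y) = 2 * y := rfl
        rw [hy] at heq
        exact hx ⟨y, by omega⟩
    · exact Or.inr ⟨c, by rw [Finset.mem_coe, mem_Blk]; omega, rfl⟩

theorem AE_Blk [CompleteSpace X] [Nonempty X] (h : CN X) {d : ℕ} (hE : Ess X d) (hd : d < g)
    (hsingle : ∀ c, AE X ({T.cur c} : Set G)) (p q : ℤ) (hpq : q - p + 1 ≤ 2 * g - 2) :
    AE X (T.cur '' (Blk p q : Set (Bool × ℤ))) := by
  classical
  have main : ∀ K : ℕ, (K : ℤ) ≤ 2 * g - 2 → ∀ p q : ℤ, q - p + 1 ≤ K →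
      AE X (T.cur '' (Blk p q : Set (Bool × ℤ))) := by
    intro K
    induction K using Nat.strong_induction_on with
    | _ K ih =>
      intro hK p q hpq
      have ih' : ∀ p' q' : ℤ, q' - p' + 1 < K →
          AE X (T.cur '' (Blk p' q' : Set (Bool × ℤ))) := by
        intro p' q' h'
        by_cases h0 : q' - p' + 1 ≤ 0
        · refine AE.mono (AE.empty (G := G)) ?_
          rintro _ ⟨c, hc, -⟩
          rw [Finset.mem_coe, mem_Blk] at hc
          omega
        · have hn : ((q' - p' + 1).toNat : ℤ) = q' - p' + 1 := Int.toNat_of_nonneg (by omega)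
          exact ih (q' - p' + 1).toNat (by omega) (by omega) p' q' hn.ge
      rcases lt_or_eq_of_le hpq with hlt | heq
      · exact ih' p q hlt
      rcases Nat.eq_zero_or_pos K with hK0 | hKpos
      · refine AE.mono (AE.empty (G := G)) ?_
        rintro _ ⟨c, hc, -⟩
        rw [Finset.mem_coe, mem_Blk] at hc
        omega
      obtain ⟨f, hf⟩ := T.exists_copies p q K heq
      have har : g ≤ (2 * g / (K + 1)) * K := arith hKpos (by omega)
      refine helly_induct h hE (N := 2 * g / (K + 1)) (K := K) (lt_of_lt_of_le hd har) T.cur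
        (Blk p q) f hf ?_
      intro S hS hSc
      by_cases hex : ∃ x, p ≤ x ∧ x ≤ q ∧ (false, x) ∉ S
      · obtain ⟨x, hx1, hx2, hx3⟩ := hex
        refine AE.mono (T.AE_remove h hsingle p q x hx1 hx2 (by omega) (ih' _ _ (by omega))
          (ih' _ _ (by omega))) ?_
        rintro _ ⟨c, hc, rfl⟩
        refine ⟨c, ⟨hS hc, ?_⟩, rfl⟩
        rintro rfl
        exact hx3 hc
      · push Not at hex
        have hinj : Function.Injective (fun x : ℤ => ((false, x) : Bool × ℤ)) :=
          fun x y hxy => (Prod.mk.inj hxy).2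
        have hsub : (Finset.Icc p q).image (fun x => ((false, x) : Bool × ℤ)) ⊆ S := by
          intro c hc
          obtain ⟨x, hx, rfl⟩ := Finset.mem_image.mp hc
          rw [Finset.mem_Icc] at hx
          exact hex x hx.1 hx.2
        have hcard : ((Finset.Icc p q).image (fun x => ((false, x) : Bool × ℤ))).card = K := by
          rw [Finset.card_image_of_injective _ hinj, Int.card_Icc]
          omega
        have heqS := Finset.eq_of_subset_of_card_le hsub (by rw [hcard]; exact hSc)
        refine AE.mono (T.AE_path hsingle p q (by omega) (by omega) fun p' q' _ h' =>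
          ih' p' q' (by omega)) ?_
        rintro _ ⟨c, hc, rfl⟩
        rw [← heqS, Finset.mem_coe] at hc
        obtain ⟨x, hx, rfl⟩ := Finset.mem_image.mp hc
        rw [Finset.mem_Icc] at hx
        exact ⟨x, hx, rfl⟩
  by_cases h0 : q - p + 1 ≤ 0
  · refine AE.mono (AE.empty (G := G)) ?_
    rintro _ ⟨c, hc, -⟩
    rw [Finset.mem_coe, mem_Blk] at hc
    omega
  · have hn : ((q - p + 1).toNat : ℤ) = q - p + 1 := Int.toNat_of_nonneg (by omega)
    exact main (q - p + 1).toNat (by omega) p q hn.ge

end TwistData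

end MP985a
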