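import Mathlib

/-!
# Triangles in the Euclidean plane

`exists_triangle`: a triangle with given side lengths. PROOF. If `a = 0` then `b = c` (by `h2`,
`h3`): take `x = y = 0`, `z = (b, 0)`. If `a > 0`: `x = 0`, `y = (a, 0)`, `z = (u, v)` with
`u = (a^2 + b^2 - c^2) / (2 a)` and `v = √(b^2 - u^2)`; `b^2 - u^2 ≥ 0` because
`4 a^2 (b^2 - u^2) = (2ab - a^2 - b^2 + c^2)(2ab + a^2 + b^2 - c^2)
 = (c^2 - (a-b)^2)((a+b)^2 - c^2)` and both factors are nonnegative by the triangle inequalities.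
Then `dist x z ^ 2 = u^2 + v^2 = b^2`, `dist y z ^ 2 = (a-u)^2 + v^2 = a^2 - 2 a u + b^2 = c^2`
(`EuclideanSpace.dist_eq`, `Fin.sum_univ_two`, `Real.sqrt_eq_iff` or `abs_eq_abs`/`sq_eq_sq'`).

`stewart`: in any inner product space. PROOF. `lineMap x y t - z = (1-t)(x - z) + t (y - z)`, and
`‖(1-t) u + t w‖^2 = (1-t)‖u‖^2 + t‖w‖^2 - t(1-t)‖u - w‖^2` (expand with `norm_add_sq_real`,
`norm_sub_sq_real`, `norm_smul`, `inner_smul_left`, or coordinatewise with
`EuclideanSpace.norm_eq`).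
-/

namespace MP985a

private theorem dist_sq_two (x y : EuclideanSpace ℝ (Fin 2)) :
    dist x y ^ 2 = (x 0 - y 0) ^ 2 + (x 1 - y 1) ^ 2 := by
  rw [EuclideanSpace.dist_eq, Real.sq_sqrt (Finset.sum_nonneg fun i _ => sq_nonneg _),
    Fin.sum_univ_two, Real.dist_eq, Real.dist_eq, sq_abs, sq_abs]

private theorem dist_of_sq {x y : EuclideanSpace ℝ (Fin 2)} {a : ℝ} (ha : 0 ≤ a)
    (h : (x 0 - y 0) ^ 2 + (x 1 - y 1) ^ 2 = a ^ 2) : dist x y = a := by
  have h1 : dist x y ^ 2 = a ^ 2 := by rw [dist_sq_two, h]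
  exact (sq_eq_sq₀ dist_nonneg ha).1 h1

theorem exists_triangle (a b c : ℝ) (ha : 0 ≤ a) (hb : 0 ≤ b) (hc : 0 ≤ c) (h1 : a ≤ b + c)
    (h2 : b ≤ a + c) (h3 : c ≤ a + b) :
    ∃ x y z : EuclideanSpace ℝ (Fin 2), dist x y = a ∧ dist x z = b ∧ dist y z = c := by
  rcases ha.eq_or_lt with h0 | h0
  · subst h0
    have hbc : b = c := by linarith
    subst hbc
    refine ⟨!₂[0, 0], !₂[0, 0], !₂[b, 0], ?_, ?_, ?_⟩
    · exact dist_of_sq le_rfl (by simp)
    · exact dist_of_sq hb (by simp)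
    · exact dist_of_sq hb (by simp)
  · set u : ℝ := (a ^ 2 + b ^ 2 - c ^ 2) / (2 * a) with hu
    have hua : 2 * a * u = a ^ 2 + b ^ 2 - c ^ 2 := by
      rw [hu]; field_simp
    have hk : 0 ≤ b ^ 2 - u ^ 2 := by
      have e : 4 * a ^ 2 * (b ^ 2 - u ^ 2) = (c ^ 2 - (a - b) ^ 2) * ((a + b) ^ 2 - c ^ 2) := by
        have : 4 * a ^ 2 * (b ^ 2 - u ^ 2) = 4 * a ^ 2 * b ^ 2 - (2 * a * u) ^ 2 := by ring
        rw [this, hua]; ring
      have f1 : 0 ≤ c ^ 2 - (a - b) ^ 2 := by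
        have : c ^ 2 - (a - b) ^ 2 = (c - a + b) * (c + a - b) := by ring
        rw [this]
        exact mul_nonneg (by linarith) (by linarith)
      have f2 : 0 ≤ (a + b) ^ 2 - c ^ 2 := by
        have : (a + b) ^ 2 - c ^ 2 = (a + b - c) * (a + b + c) := by ring
        rw [this]
        exact mul_nonneg (by linarith) (by linarith)
      have f3 : 0 ≤ 4 * a ^ 2 * (b ^ 2 - u ^ 2) := by rw [e]; exact mul_nonneg f1 f2
      have f4 : 0 < 4 * a ^ 2 := by positivity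
      exact nonneg_of_mul_nonneg_right f3 f4
    refine ⟨!₂[0, 0], !₂[a, 0], !₂[u, Real.sqrt (b ^ 2 - u ^ 2)], ?_, ?_, ?_⟩
    · exact dist_of_sq ha (by simp)
    · refine dist_of_sq hb ?_
      simp only [Matrix.cons_val_zero, Matrix.cons_val_one, zero_sub, neg_sq]
      rw [Real.sq_sqrt hk]
      ring
    · refine dist_of_sq hc ?_
      simp only [Matrix.cons_val_zero, Matrix.cons_val_one, zero_sub, neg_sq]
      rw [Real.sq_sqrt hk]
      nlinarith [hua]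

theorem stewart (x y z : EuclideanSpace ℝ (Fin 2)) (t : ℝ) :
    dist (AffineMap.lineMap x y t) z ^ 2 =
      (1 - t) * dist x z ^ 2 + t * dist y z ^ 2 - t * (1 - t) * dist x y ^ 2 := by
  rw [dist_sq_two, dist_sq_two, dist_sq_two, dist_sq_two]
  have h : ∀ i, (AffineMap.lineMap x y t : EuclideanSpace ℝ (Fin 2)) i =
      (1 - t) * x i + t * y i := by
    intro i
    rw [AffineMap.lineMap_apply_module]
    simp
  rw [h 0, h 1]
  ring

end MP985a
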