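import Pool.Agent.Lib.MP_985a2b_al.Defs
import Pool.Agent.Lib.MP_985a2b_al.Tri

/-!
# CAT(0) implies the inequality of Bruhat and Tits

PROOF. Given `x y` and `t ∈ [0,1]` take a geodesic `γ` from `x` to `y` (`h.geod`) and `m = γ t`.
Let `z` be any point and `η` a geodesic from `x` to `z`, so `η 1 = z`. Take `x' y' z'` from
`exists_triangle (dist x y) (dist x z) (dist y z)` (triangle inequalities of `X`). `h.thin` with
parameters `t` and `1` gives `dist m z ≤ dist (lineMap x' y' t) (lineMap x' z' 1) =
dist (lineMap x' y' t) z'` (`AffineMap.lineMap_apply_one`). Square it (both sides `≥ 0`) and use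
`stewart x' y' z' t`; rewrite `dist z m = dist m z` etc. with `dist_comm`.
-/

namespace MP985a

theorem IsCAT0.cn {X : Type*} [MetricSpace X] (h : IsCAT0 X) : CN X := by
  intro x y t ht
  obtain ⟨γ, hγ⟩ := h.geod x y
  refine ⟨γ t, fun z => ?_⟩
  obtain ⟨η, hη⟩ := h.geod x z
  obtain ⟨x', y', z', h1, h2, h3⟩ := exists_triangle (dist x y) (dist x z) (dist y z)
    dist_nonneg dist_nonneg dist_nonneg
    (by have := dist_triangle x z y; rw [dist_comm z y] at this; exact this)
    (dist_triangle x y z)
    (by have := dist_triangle y x z; rw [dist_comm y x] at this; exact this)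
  have hth := h.thin x y z γ η hγ hη x' y' z' h1 h2 h3 t ht 1 ⟨zero_le_one, le_rfl⟩
  rw [hη.2.1, AffineMap.lineMap_apply_one] at hth
  have hsq : dist (γ t) z ^ 2 ≤ dist (AffineMap.lineMap x' y' t) z' ^ 2 :=
    pow_le_pow_left₀ dist_nonneg hth 2
  rw [stewart, h1, h2, h3] at hsq
  rw [dist_comm z (γ t), dist_comm z x, dist_comm z y]
  exact hsq

end MP985a
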