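import Pool.Agent.Lib.MP_985a2b_al.Pos

/-!
# Commuting copies of a block

`move_even`: conjugation by `r^a` maps the curve `c` to the curve at position `pos c + 2 a`:
`c = (false, x) ↦ (false, x + 2 a)`, `c = (true, i) ↦ (true, i + a)`.
`move_odd`: conjugation by `r^a * s`: `(false, x) ↦ (false, -2 - x + 2 a)`,
`(true, i) ↦ (true, -1 - i + a)`, up to inverse; position `-2 - pos c + 2 a`.

`exists_move`. PROOF. `K = q - p + 1`. Let `b = t * (K + 1)`. If `b` is even: `f = r^(b/2)`: positions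
`x ∈ [p, q]` go to `x + b`. If `b` is odd then `K + 1` is odd, `K` is even, so `p + q + b` is even
(`q = p + K - 1`, `p + q + b = 2 p + K - 1 + b`): take `a = (p + q + b + 2)/2` and `f = r^a * s`:
positions go to `-2 - x + 2 a = p + q + b - x ∈ [p + b, q + b]`.

`exists_copies`. PROOF. `f t` from `exists_move` for `t : Fin N`. Let `t < t'` (otherwise exchange,
`Commute.symm`), `a, b ∈ Blk p q`. `f t * cur a * (f t)⁻¹` is `cur c` or its inverse with
`pos c ∈ [p + t(K+1), q + t(K+1)]`, the other one `cur c'` with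
`pos c' ∈ [p + t'(K+1), q + t'(K+1)]`. `pos c' - pos c ≥ (K+1)(t' - t) - (q - p) ≥ K + 1 - (K - 1)
= 2`, and `pos c' - pos c ≤ (K+1)(N-1) + (K - 1) = N (K+1) - 2 ≤ 2 g - 2`. `cur_comm`,
`Commute.inv_left` etc.

`arith`: `1 ≤ K ≤ 2 g - 1`, `N = 2 g / (K+1)` ⟹ `g ≤ N * K`. PROOF. `2 g = N (K+1) + ρ`, `ρ ≤ K`,
`N ≥ 1`. `2 N K - 2 g = N (K - 1) - ρ`. If `N ≥ 2` and `K ≥ 2`: `≥ 2 (K - 1) - K ≥ 0`. If `K = 1`:
`N = g`. If `N = 1`: `2 g < 2 (K + 1)`, so `g ≤ K`.
-/

namespace MP985a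

theorem arith {g K : ℕ} (h1 : 1 ≤ K) (h2 : K ≤ 2 * g - 1) : g ≤ (2 * g / (K + 1)) * K := by
  have hN : 2 * g = (K + 1) * (2 * g / (K + 1)) + 2 * g % (K + 1) := (Nat.div_add_mod _ _).symm
  have hr : 2 * g % (K + 1) < K + 1 := Nat.mod_lt _ (by omega)
  have hN1 : 1 ≤ 2 * g / (K + 1) := (Nat.one_le_div_iff (by omega)).2 (by omega)
  generalize 2 * g / (K + 1) = N at *
  generalize 2 * g % (K + 1) = ρ at *
  rcases Nat.lt_or_ge N 2 with h | h
  · have : N = 1 := by omega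
    subst this
    omega
  · rcases Nat.lt_or_ge K 2 with h' | h'
    · have : K = 1 := by omega
      subst this
      omega
    · have h3 : 2 * N * K ≥ 2 * g := by
        have h5 : 2 * (K - 1) ≤ N * (K - 1) := Nat.mul_le_mul_right _ h
        have h6 : N * K = N * (K - 1) + N := by
          obtain ⟨k, rfl⟩ : ∃ k, K = k + 1 := ⟨K - 1, by omega⟩
          simp [Nat.mul_succ]
        have h7 : (K + 1) * N = N * K + N := by ring
        have h8 : 2 * N * K = N * K + N * K := by ring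
        omega
      have h9 : 2 * N * K = 2 * (N * K) := by ring
      omega

namespace TwistData

variable {g : ℕ} {G : Type*} [Group G] (T : TwistData g G)

theorem move_even (a : ℤ) (c : Bool × ℤ) :
    ∃ c', pos c' = pos c + 2 * a ∧ T.r ^ a * T.cur c * (T.r ^ a)⁻¹ = T.cur c' := by
  obtain ⟨b, x⟩ := c
  cases b
  · refine ⟨(false, x + 2 * a), by simp [pos], ?_⟩
    simp only [TwistData.cur, Bool.false_eq_true, if_false]
    exact T.r_zpow_v a x
  · refine ⟨(true, x + a), by simp [pos]; ring, ?_⟩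
    simp only [TwistData.cur, if_true]
    exact T.r_zpow_m a x

theorem move_odd (a : ℤ) (c : Bool × ℤ) :
    ∃ c', pos c' = -2 - pos c + 2 * a ∧
      (T.r ^ a * T.s) * T.cur c * (T.r ^ a * T.s)⁻¹ = (T.cur c')⁻¹ := by
  have key : ∀ X Y : G, T.s * X * T.s⁻¹ = Y⁻¹ →
      (T.r ^ a * T.s) * X * (T.r ^ a * T.s)⁻¹ = (T.r ^ a * Y * (T.r ^ a)⁻¹)⁻¹ := by
    intro X Y h
    calc (T.r ^ a * T.s) * X * (T.r ^ a * T.s)⁻¹ = T.r ^ a * (T.s * X * T.s⁻¹) * (T.r ^ a)⁻¹ := by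
          group
      _ = _ := by
          rw [h]
          group
  obtain ⟨b, x⟩ := c
  cases b
  · refine ⟨(false, -2 - x + 2 * a), by simp [pos], ?_⟩
    simp only [TwistData.cur, Bool.false_eq_true, if_false]
    rw [key _ _ (T.s_v x), T.r_zpow_v]
  · refine ⟨(true, -1 - x + a), by simp [pos]; ring, ?_⟩
    simp only [TwistData.cur, if_true]
    rw [key _ _ (T.s_m x), T.r_zpow_m]

theorem exists_move (p q : ℤ) (t : ℕ) :
    ∃ f : G, ∀ c ∈ Blk p q, ∃ c', p + t * (q - p + 2) ≤ pos c' ∧ pos c' ≤ q + t * (q - p + 2) ∧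
      (f * T.cur c * f⁻¹ = T.cur c' ∨ f * T.cur c * f⁻¹ = (T.cur c')⁻¹) := by
  rcases Int.even_or_odd' ((t : ℤ) * (q - p + 2)) with ⟨a, ha | ha⟩
  · refine ⟨T.r ^ a, fun c hc => ?_⟩
    rw [mem_Blk] at hc
    obtain ⟨c', h1, h2⟩ := T.move_even a c
    exact ⟨c', by rw [h1, ha]; omega, by rw [h1, ha]; omega, Or.inl h2⟩
  · have hodd : Odd ((t : ℤ) * (q - p + 2)) := ⟨a, ha⟩
    have h3 : Odd (q - p + 2) := (Int.odd_mul.1 hodd).2
    obtain ⟨k, hk⟩ := h3
    have h4 : p + q + (2 * a + 1) = 2 * (p + k + a) := by omega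
    refine ⟨T.r ^ (p + k + a + 1) * T.s, fun c hc => ?_⟩
    rw [mem_Blk] at hc
    obtain ⟨c', h1, h2⟩ := T.move_odd (p + k + a + 1) c
    exact ⟨c', by rw [h1, ha]; omega, by rw [h1, ha]; omega, Or.inr h2⟩

theorem exists_copies (p q : ℤ) (K : ℕ) (hK : q - p + 1 = K) :
    ∃ f : Fin (2 * g / (K + 1)) → G, ∀ t t', t ≠ t' → ∀ a ∈ Blk p q, ∀ b ∈ Blk p q,
      Commute (f t * T.cur a * (f t)⁻¹) (f t' * T.cur b * (f t')⁻¹) := by
  choose F hF using fun t : ℕ => T.exists_move p q t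
  have hNle : (K + 1) * (2 * g / (K + 1)) ≤ 2 * g := Nat.mul_div_le _ _
  have key : ∀ t t' : ℕ, t < t' → t' < 2 * g / (K + 1) → ∀ a ∈ Blk p q, ∀ b ∈ Blk p q,
      Commute (F t * T.cur a * (F t)⁻¹) (F t' * T.cur b * (F t')⁻¹) := by
    intro t t' htt ht' a ha b hb
    obtain ⟨c, h1, h2, h3⟩ := hF t a ha
    obtain ⟨c', h1', h2', h3'⟩ := hF t' b hb
    have e : q - p + 2 = (K : ℤ) + 1 := by omega
    rw [e] at h1 h2 h1' h2'
    have hc : Commute (T.cur c) (T.cur c') := by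
      refine T.cur_comm ?_ ?_
      · have h5 : ((t' : ℤ) - t) * ((K : ℤ) + 1) ≥ 1 * ((K : ℤ) + 1) :=
          mul_le_mul_of_nonneg_right (by omega) (by positivity)
        rw [sub_mul] at h5
        omega
      · have h6 : (t' : ℤ) * ((K : ℤ) + 1) ≤ ((2 * g / (K + 1) : ℕ) - 1 : ℤ) * ((K : ℤ) + 1) :=
          mul_le_mul_of_nonneg_right (by omega) (by positivity)
        have h7 : ((K : ℤ) + 1) * (2 * g / (K + 1) : ℕ) ≤ 2 * g := by exact_mod_cast hNle
        have h8 : (0 : ℤ) ≤ (t : ℤ) * ((K : ℤ) + 1) := by positivity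
        rw [sub_mul, mul_comm ((2 * g / (K + 1) : ℕ) : ℤ)] at h6
        omega
    rcases h3 with h3 | h3 <;> rcases h3' with h3' | h3' <;> rw [h3, h3']
    · exact hc
    · exact hc.inv_right
    · exact hc.inv_left
    · exact hc.inv_inv
  refine ⟨fun t => F t, fun t t' htt a ha b hb => ?_⟩
  rcases lt_or_gt_of_ne (fun h => htt (Fin.ext h) : (t : ℕ) ≠ t') with h | h
  · exact key t t' h t'.2 a ha b hb
  · exact (key t' t h t.2 b hb a ha).symm

end TwistData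

end MP985a
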