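import Mathlib

/-!
# Definitions for MP_985a2b_al

CAT(0) spaces, covering dimension, almost fixed points, barycenters, the property `Ess`
(what is used from the covering dimension), and the abstract relations of the twists.
-/

namespace MP985a

open Set

/-- `γ` restricted to `[0,1]` is a geodesic segment from `x` to `y`, parametrised
proportionally to arc length. -/
def IsGeod {X : Type*} [MetricSpace X] (γ : ℝ → X) (x y : X) : Prop :=
  γ 0 = x ∧ γ 1 = y ∧
    ∀ s ∈ Icc (0 : ℝ) 1, ∀ t ∈ Icc (0 : ℝ) 1, dist (γ s) (γ t) = |s - t| * dist x y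

/-- CAT(0) spaces: any two points are joined by a geodesic segment, and geodesic triangles are
not fatter than their comparison triangles in the Euclidean plane (two points on two sides of a
triangle; the two sides have a common vertex `x`). -/
structure IsCAT0 (X : Type*) [MetricSpace X] : Prop where
  geod : ∀ x y : X, ∃ γ : ℝ → X, IsGeod γ x y
  thin : ∀ (x y z : X) (γ η : ℝ → X), IsGeod γ x y → IsGeod η x z →
    ∀ x' y' z' : EuclideanSpace ℝ (Fin 2),
      dist x' y' = dist x y → dist x' z' = dist x z → dist y' z' = dist y z →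
      ∀ s ∈ Icc (0 : ℝ) 1, ∀ t ∈ Icc (0 : ℝ) 1,
        dist (γ s) (η t) ≤ dist (AffineMap.lineMap x' y' s) (AffineMap.lineMap x' z' t)

/-- The covering dimension of `X` is at most `d`: every finite open cover has an open refinement
such that no point lies in more than `d + 1` of its members. -/
def CovDimLE (X : Type*) [TopologicalSpace X] (d : ℕ) : Prop :=
  ∀ U : Set (Set X), U.Finite → (∀ u ∈ U, IsOpen u) → ⋃₀ U = univ →
    ∃ V : Set (Set X), (∀ v ∈ V, IsOpen v) ∧ (∀ v ∈ V, ∃ u ∈ U, v ⊆ u) ∧ ⋃₀ V = univ ∧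
      ∀ x : X, {v | v ∈ V ∧ x ∈ v}.encard ≤ d + 1

/-- The inequality of Bruhat and Tits (with parameter). -/
def CN (X : Type*) [MetricSpace X] : Prop :=
  ∀ x y : X, ∀ t ∈ Icc (0 : ℝ) 1, ∃ m : X, ∀ z : X,
    dist z m ^ 2 ≤ (1 - t) * dist z x ^ 2 + t * dist z y ^ 2 - t * (1 - t) * dist x y ^ 2

/-- `m` is a midpoint of `x` and `y`. -/
def IsMid {X : Type*} [MetricSpace X] (x y m : X) : Prop :=
  dist x m = dist x y / 2 ∧ dist m y = dist x y / 2

/-- Midpoint convex sets. -/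
def MidConv {X : Type*} [MetricSpace X] (C : Set X) : Prop :=
  ∀ x ∈ C, ∀ y ∈ C, ∀ m, IsMid x y m → m ∈ C

/-- `b` is a barycenter of the points `p j` with weights `w j`. -/
def IsBary {X : Type*} [MetricSpace X] {k : ℕ} (p : Fin k → X) (w : Fin k → ℝ) (b : X) : Prop :=
  ∀ y : X, ∑ j, w j * dist b (p j) ^ 2 ≤ ∑ j, w j * dist y (p j) ^ 2

/-- The consequence of `CovDimLE X d` that is used; it is stable under ultralimits. -/
def Ess (X : Type*) [MetricSpace X] (d : ℕ) : Prop :=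
  ∀ (k : ℕ) (p : Fin k → X) (ε : ℝ), 0 < ε →
    ∃ (q : ℕ) (W : Fin q → Set (Fin k → ℝ)), (∀ i, IsOpen (W i)) ∧
      (∀ w ∈ stdSimplex ℝ (Fin k), ∃ i, w ∈ W i) ∧
      (∀ w ∈ stdSimplex ℝ (Fin k), {i | w ∈ W i}.ncard ≤ d + 1) ∧
      ∀ i, ∀ w ∈ W i ∩ stdSimplex ℝ (Fin k), ∀ w' ∈ W i ∩ stdSimplex ℝ (Fin k),
        ∀ b b' : X, IsBary p w b → IsBary p w' b' → dist b b' < ε

/-- The elements of `S` have common almost fixed points. -/
def AE (X : Type*) [MetricSpace X] {G : Type*} [Group G] [MulAction G X] (S : Set G) : Prop :=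
  ∀ ε : ℝ, 0 < ε → ∃ x : X, ∀ s ∈ S, dist x (s • x) ≤ ε

/-- The points moved at most `ε` by all elements of `S`. -/
def Disp (X : Type*) [MetricSpace X] {G : Type*} [Group G] [MulAction G X] (S : Set G) (ε : ℝ) :
    Set X := {x | ∀ s ∈ S, dist x (s • x) ≤ ε}

/-- The relations between the twists about the curves `m i`, `l i`, `z i` (`i` modulo `g`) of
Lickorish on a closed surface of genus `g`, a rotation `r` and a reflection `s`. -/
structure TwistData (g : ℕ) (G : Type*) [Group G] where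
  M : ZMod g → G
  L : ZMod g → G
  Z : ZMod g → G
  r : G
  s : G
  comMM : ∀ i j, Commute (M i) (M j)
  comLL : ∀ i j, Commute (L i) (L j)
  comZZ : ∀ i j, Commute (Z i) (Z j)
  comMZ : ∀ i j, Commute (M i) (Z j)
  comML : ∀ i j, i ≠ j → Commute (M i) (L j)
  comLZ : ∀ i j, i ≠ j → i ≠ j + 1 → Commute (L i) (Z j)
  brML : ∀ i, M i * L i * M i = L i * M i * L i
  brLZ : ∀ i, L i * Z i * L i = Z i * L i * Z i
  brLZ' : ∀ i, L (i + 1) * Z i * L (i + 1) = Z i * L (i + 1) * Z i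
  rM : ∀ i, r * M i * r⁻¹ = M (i + 1)
  rL : ∀ i, r * L i * r⁻¹ = L (i + 1)
  rZ : ∀ i, r * Z i * r⁻¹ = Z (i + 1)
  sM : ∀ i, s * M i * s⁻¹ = (M (-1 - i))⁻¹
  sL : ∀ i, s * L i * s⁻¹ = (L (-1 - i))⁻¹
  sZ : ∀ i, s * Z i * s⁻¹ = (Z (-2 - i))⁻¹
  ss : s * s = 1
  srs : s * r * s = r⁻¹
  rg : r ^ g = 1
  lantern : M 0 * M 1 * M 2 *
      ((L 1 * Z 0 * M 1 * L 1)⁻¹ * Z 1 * (L 1 * Z 0 * M 1 * L 1)) =
    Z 0 *
      ((L 1 * Z 0 * (L 2)⁻¹ * (M 1)⁻¹ * (L 1)⁻¹ * (Z 1)⁻¹ * M 2 * L 2)⁻¹ * Z 1 *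
        (L 1 * Z 0 * (L 2)⁻¹ * (M 1)⁻¹ * (L 1)⁻¹ * (Z 1)⁻¹ * M 2 * L 2)) *
      ((L 1 * M 1 * M 1 * L 1)⁻¹ * Z 1 * (L 1 * M 1 * M 1 * L 1))

/-- The product of `N` copies of the standard simplex of dimension `n`. -/
def PS (N n : ℕ) : Set (Fin N → Fin (n + 1) → ℝ) :=
  {t | ∀ i, t i ∈ stdSimplex ℝ (Fin (n + 1))}

/-- The set of all generators. -/
def TwistData.gens {g : ℕ} {G : Type*} [Group G] (T : TwistData g G) : Set G :=
  range T.M ∪ range T.L ∪ range T.Z ∪ {T.r, T.s}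

/-- The curves on the path: `v (2 i) = L i`, `v (2 i + 1) = Z i`. -/
def TwistData.v {g : ℕ} {G : Type*} [Group G] (T : TwistData g G) (x : ℤ) : G :=
  if Even x then T.L ((x / 2 : ℤ) : ZMod g) else T.Z ((x / 2 : ℤ) : ZMod g)

/-- `m i = M i`. -/
def TwistData.m {g : ℕ} {G : Type*} [Group G] (T : TwistData g G) (i : ℤ) : G :=
  T.M (i : ZMod g)

/-- All twists, indexed by `Bool × ℤ`: `(false, x)` is `v x`, `(true, i)` is `m i`. -/
def TwistData.cur {g : ℕ} {G : Type*} [Group G] (T : TwistData g G) (c : Bool × ℤ) : G :=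
  if c.1 then T.m c.2 else T.v c.2

/-- The position of a curve: `x` for `v x` and `2 i` for `m i`. -/
def pos (c : Bool × ℤ) : ℤ := if c.1 then 2 * c.2 else c.2

/-- The block of all curves with positions in `[p, q]`. -/
noncomputable def Blk (p q : ℤ) : Finset (Bool × ℤ) :=
  (Finset.Icc p q).image (fun x => (false, x)) ∪
    ((Finset.Icc p q).filter (fun x => Even x)).image (fun x => (true, x / 2))

theorem mem_Blk {p q : ℤ} {c : Bool × ℤ} : c ∈ Blk p q ↔ p ≤ pos c ∧ pos c ≤ q := by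
  obtain ⟨b, x⟩ := c
  cases b
  · simp [Blk, pos]
  · simp only [Blk, pos, Finset.mem_union, Finset.mem_image, Finset.mem_Icc, Finset.mem_filter,
      Prod.mk.injEq, if_true]
    constructor
    · rintro (⟨a, _, h, _⟩ | ⟨a, ⟨h, he⟩, _, h2⟩)
      · exact absurd h (by simp)
      · obtain ⟨k, hk⟩ := he
        have : x = k := by omega
        omega
    · intro h
      exact Or.inr ⟨2 * x, ⟨h, even_two_mul x⟩, trivial, by omega⟩

end MP985a
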