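import Mathlib

/-!
# The group generated by a rotation and a reflection is finite

PROOF. Let `A = {r^i * s^j | i < g, j < 2}` (finite). It contains `1`, `r`, `s` and is closed under
left multiplication by `r` (`r^g = 1`; `r^(i+1) = r^((i+1) % g)`) and by `s`: `s * r^i = r^(-i) * s`
(from `s r s = r⁻¹`, `s s = 1`, induction), `r^(-i) = r^(g - i)` or `r^((g - i) % g)`. Hence
`closure {r, s} ⊆ A`: the set `{x | ∀ a ∈ A, x * a ∈ A}` contains `r`, `s`, `1`, is closed under
products, and inverses of `r, s` are `r^(g-1)`, `s` (`Subgroup.closure_induction`, or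
`Subgroup.closure_toSubmonoid`, or: `A` is a submonoid of elements of finite order). Take `a = 1`.
-/

namespace MP985a

private theorem dih_move {G : Type*} [Group G] {r s : G} {g : ℕ} (hr : r⁻¹ = r ^ (g - 1))
    (srs : s * r * s⁻¹ = r⁻¹) (j k : ℕ) : ∃ k' : ℕ, s ^ j * r ^ k = r ^ k' * s ^ j := by
  induction j with
  | zero => exact ⟨k, by simp⟩
  | succ j ih =>
    obtain ⟨k', hk'⟩ := ih
    refine ⟨(g - 1) * k', ?_⟩
    have h1 : s * r ^ k' * s⁻¹ = r ^ ((g - 1) * k') := by
      rw [← conj_pow, srs, hr, ← pow_mul]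
    calc s ^ (j + 1) * r ^ k = s * (s ^ j * r ^ k) := by rw [pow_succ', mul_assoc]
      _ = s * r ^ k' * s⁻¹ * (s * s ^ j) := by rw [hk']; group
      _ = r ^ ((g - 1) * k') * s ^ (j + 1) := by rw [h1, pow_succ']

theorem finite_dihedral {G : Type*} [Group G] {r s : G} {g : ℕ} (hg : 0 < g) (rg : r ^ g = 1)
    (ss : s * s = 1) (srs : s * r * s = r⁻¹) :
    Finite (Subgroup.closure ({r, s} : Set G)) := by
  have hs : s⁻¹ = s := inv_eq_of_mul_eq_one_left ss
  have hr : r⁻¹ = r ^ (g - 1) := by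
    apply inv_eq_of_mul_eq_one_left
    rw [← pow_succ, Nat.sub_add_cancel hg, rg]
  have srs' : s * r * s⁻¹ = r⁻¹ := by rw [hs]; exact srs
  set A : Set G := {x | ∃ i j : ℕ, x = r ^ i * s ^ j} with hA
  have hfin : A.Finite := by
    refine Set.Finite.subset (Set.finite_range fun p : Fin g × Fin 2 =>
      r ^ (p.1 : ℕ) * s ^ (p.2 : ℕ)) ?_
    rintro x ⟨i, j, rfl⟩
    refine ⟨(⟨i % g, Nat.mod_lt _ hg⟩, ⟨j % 2, Nat.mod_lt _ (by norm_num)⟩), ?_⟩
    have h1 : r ^ (i % g) = r ^ i := by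
      conv_rhs => rw [← Nat.div_add_mod i g, pow_add, pow_mul, rg, one_pow, one_mul]
    have h2 : s ^ (j % 2) = s ^ j := by
      conv_rhs => rw [← Nat.div_add_mod j 2, pow_add, pow_mul, sq, ss, one_pow, one_mul]
    simp only
    rw [h1, h2]
  have hsub : ((Subgroup.closure ({r, s} : Set G) : Subgroup G) : Set G) ⊆ A := by
    intro x hx
    have hx' : x ∈ Subgroup.closure ({r, s} : Set G) := hx
    induction hx' using Subgroup.closure_induction with
    | mem y hy =>
      rcases hy with rfl | rfl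
      · exact ⟨1, 0, by simp⟩
      · exact ⟨0, 1, by simp⟩
    | one => exact ⟨0, 0, by simp⟩
    | mul y z hy hz ihy ihz =>
      obtain ⟨i, j, rfl⟩ := ihy hy
      obtain ⟨k, l, rfl⟩ := ihz hz
      obtain ⟨k', hk'⟩ := dih_move hr srs' j k
      refine ⟨i + k', j + l, ?_⟩
      calc r ^ i * s ^ j * (r ^ k * s ^ l) = r ^ i * (s ^ j * r ^ k) * s ^ l := by group
        _ = r ^ (i + k') * s ^ (j + l) := by rw [hk', pow_add, pow_add]; group
    | inv y hy ihy =>
      obtain ⟨i, j, rfl⟩ := ihy hy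
      obtain ⟨k', hk'⟩ := dih_move hr srs' j ((g - 1) * i)
      refine ⟨k', j, ?_⟩
      rw [mul_inv_rev, ← inv_pow, ← inv_pow, hs, hr, ← pow_mul, hk']
  exact (hfin.subset hsub).to_subtype

end MP985a
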