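import Pool.Agent.Lib.MP_985a2b_al.Bary

/-!
# Covering dimension

`CovDimLE.shrink`. PROOF. Apply the definition to the finite cover `U' = range U`. For every member
`v` of the refinement choose an index `a v : Fin n` with `v ⊆ U (a v)`. `V i = ⋃₀ {v ∈ V' | a v = i}`
is open, contained in `U i`, and the `V i` cover. For `x`: `i ↦` a member `v ∋ x` with `a v = i`
is injective from `{i | x ∈ V i}` to `{v ∈ V' | x ∈ v}`, so the first set has at most `d + 1`
elements (`Set.encard_le_encard_of_injOn`; or: `{i | x ∈ V i} ⊆ a '' {v ∈ V' | x ∈ v}` and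
`Set.encard_image_le`; then pass to `ncard` by `Set.ncard_le_encard`/`ENat.toNat_le...`). For
`n = 0` the space is empty: fine. (If `v` is a member but `Fin n` is empty then `v ∈ V'` gives
`∃ u ∈ U', v ⊆ u`, contradiction; so `a` is defined on `V'` only.)

`CovDimLE.ess`. PROOF. Let `k, p, ε` be given and let `Δ = stdSimplex ℝ (Fin k)` (compact). If `Δ`
is empty (`k = 0`) take `q = 0`. Otherwise choose a function `β` with `IsBary p w (β w)` for
`w ∈ Δ` (`bary_exists`); it is continuous on `Δ` (`bary_cont` with `R` the maximum of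
`dist (p i) (p j)`; `∑ |w j - w' j| → 0`), so `K = β '' Δ` is compact and closed. Cover `K` by
finitely many balls `ball (y i) (ε/4)`, `i < n` (`IsCompact.elim_finite_subcover` or
`IsCompact.finite_cover_balls`). `U : Fin (n+1) → Set X`, `U 0 = Kᶜ` and the balls: an open cover
of `X`. Let `V` be as in `CovDimLE.shrink`. The sets `β ⁻¹' V i ∩ Δ` are open in `Δ`, so there are
open `W i ⊆ ℝ^k` with `W i ∩ Δ = β ⁻¹' V i ∩ Δ` (`ContinuousOn.isOpen_inter_preimage`,
`continuousOn_iff'`). They cover `Δ`, for `w ∈ Δ` `{i | w ∈ W i} = {i | β w ∈ V i}` has at most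
`d + 1` elements. For `w, w' ∈ W i ∩ Δ` with barycenters `b = β w`, `b' = β w'` (`bary_unique`):
both are in `V i ∩ K`, so `i ≠ 0` and both are in a ball of radius `ε/4`: `dist b b' ≤ ε/2 < ε`.
-/

namespace MP985a

open Set

theorem CovDimLE.shrink {X : Type*} [TopologicalSpace X] {d : ℕ} (h : CovDimLE X d) {n : ℕ}
    (U : Fin n → Set X) (hU : ∀ i, IsOpen (U i)) (hc : ⋃ i, U i = univ) :
    ∃ V : Fin n → Set X, (∀ i, IsOpen (V i)) ∧ (∀ i, V i ⊆ U i) ∧ ⋃ i, V i = univ ∧
      ∀ x, {i | x ∈ V i}.ncard ≤ d + 1 := by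
  classical
  obtain ⟨V', hVo, hVs, hVc, hVd⟩ := h (range U) (finite_range U)
    (by rintro _ ⟨i, rfl⟩; exact hU i) (by rw [sUnion_range]; exact hc)
  have ha : ∀ v : V', ∃ i, (v : Set X) ⊆ U i := by
    rintro ⟨v, hv⟩
    obtain ⟨u, ⟨i, rfl⟩, hu⟩ := hVs v hv
    exact ⟨i, hu⟩
  choose a ha using ha
  refine ⟨fun i => ⋃ v : {v : V' // a v = i}, ((v : V') : Set X), ?_, ?_, ?_, ?_⟩
  · intro i
    exact isOpen_iUnion fun v => hVo _ v.1.2
  · intro i
    refine iUnion_subset fun v => ?_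
    have := ha v.1
    rw [v.2] at this
    exact this
  · rw [eq_univ_iff_forall]
    intro x
    have : x ∈ ⋃₀ V' := hVc ▸ mem_univ x
    obtain ⟨v, hv, hx⟩ := this
    exact mem_iUnion.2 ⟨a ⟨v, hv⟩, mem_iUnion.2 ⟨⟨⟨v, hv⟩, rfl⟩, hx⟩⟩
  · intro x
    have hsub : {i | x ∈ (fun i => ⋃ v : {v : V' // a v = i}, ((v : V') : Set X)) i} ⊆
        a '' {v : V' | x ∈ (v : Set X)} := by
      intro i hi
      obtain ⟨v, hv⟩ := mem_iUnion.1 hi
      exact ⟨v.1, hv, v.2⟩
    have h1 : (Subtype.val '' {v : V' | x ∈ (v : Set X)}) = {v | v ∈ V' ∧ x ∈ v} := by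
      ext v
      constructor
      · rintro ⟨w, hw, rfl⟩
        exact ⟨w.2, hw⟩
      · rintro ⟨h1, h2⟩
        exact ⟨⟨v, h1⟩, h2, rfl⟩
    have h2 : {v : V' | x ∈ (v : Set X)}.encard ≤ d + 1 := by
      rw [← Subtype.val_injective.encard_image, h1]
      exact hVd x
    have h3 : {i | x ∈ (fun i => ⋃ v : {v : V' // a v = i}, ((v : V') : Set X)) i}.encard ≤ d + 1 :=
      ((encard_le_encard hsub).trans (encard_image_le a _)).trans h2
    rw [← (Set.toFinite _).cast_ncard_eq] at h3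
    exact_mod_cast h3

theorem CovDimLE.ess {X : Type*} [MetricSpace X] [CompleteSpace X] (h : CN X) {d : ℕ}
    (hd : CovDimLE X d) : Ess X d := by
  classical
  intro k p ε hε
  rcases (stdSimplex ℝ (Fin k)).eq_empty_or_nonempty with he | ⟨w0, hw0⟩
  · refine ⟨0, fun _ => ∅, fun i => i.elim0, ?_, ?_, fun i => i.elim0⟩
    · rw [he]; intro w hw; exact hw.elim
    · rw [he]; intro w hw; exact hw.elim
  obtain ⟨b0, -⟩ := bary_exists h p hw0
  have : Nonempty X := ⟨b0⟩
  have hex : ∀ w : Fin k → ℝ, ∃ b, w ∈ stdSimplex ℝ (Fin k) → IsBary p w b := by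
    intro w
    by_cases hw : w ∈ stdSimplex ℝ (Fin k)
    · obtain ⟨b, hb⟩ := bary_exists h p hw
      exact ⟨b, fun _ => hb⟩
    · exact ⟨b0, fun h => absurd h hw⟩
  choose β hβ using hex
  set R : ℝ := ∑ i, ∑ j, dist (p i) (p j) with hR
  have hRle : ∀ i j, dist (p i) (p j) ≤ R := by
    intro i j
    calc dist (p i) (p j) ≤ ∑ j, dist (p i) (p j) :=
          Finset.single_le_sum (f := fun j => dist (p i) (p j)) (fun _ _ => dist_nonneg)
            (Finset.mem_univ j)
      _ ≤ R := Finset.single_le_sum (f := fun i => ∑ j, dist (p i) (p j))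
            (fun _ _ => Finset.sum_nonneg fun _ _ => dist_nonneg) (Finset.mem_univ i)
  have hcont : ContinuousOn β (stdSimplex ℝ (Fin k)) := by
    intro w hw
    rw [ContinuousWithinAt, tendsto_iff_dist_tendsto_zero]
    have hlim : Filter.Tendsto (fun w' : Fin k → ℝ => Real.sqrt (4 * R ^ 2 * ∑ j, |w' j - w j|))
        (nhdsWithin w (stdSimplex ℝ (Fin k))) (nhds 0) := by
      have hc : Continuous
          (fun w' : Fin k → ℝ => Real.sqrt (4 * R ^ 2 * ∑ j, |w' j - w j|)) := by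
        fun_prop
      have h0 := hc.tendsto w
      simp only [sub_self, abs_zero, Finset.sum_const_zero, mul_zero, Real.sqrt_zero] at h0
      exact h0.mono_left nhdsWithin_le_nhds
    refine squeeze_zero' (Filter.Eventually.of_forall fun _ => dist_nonneg) ?_ hlim
    filter_upwards [self_mem_nhdsWithin] with w' hw'
    refine Real.le_sqrt_of_sq_le ?_
    exact bary_cont h hw' hw (hβ w' hw') (hβ w hw) hRle
  set K : Set X := β '' stdSimplex ℝ (Fin k) with hK
  have hKc : IsCompact K := (isCompact_stdSimplex ℝ (Fin k)).image_of_continuousOn hcont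
  obtain ⟨t, -, htf, htK⟩ := hKc.finite_cover_balls (e := ε / 4) (by positivity)
  obtain ⟨n, y, hy⟩ := htf.fin_embedding
  set U : Fin (n + 1) → Set X := Fin.cons Kᶜ (fun i => Metric.ball (y i) (ε / 4)) with hUdef
  have hU0 : U 0 = Kᶜ := rfl
  have hUs : ∀ i : Fin n, U i.succ = Metric.ball (y i) (ε / 4) := fun i => rfl
  have hUo : ∀ i, IsOpen (U i) := by
    intro i
    refine Fin.cases ?_ (fun i => ?_) i
    · rw [hU0]; exact hKc.isClosed.isOpen_compl
    · rw [hUs]; exact Metric.isOpen_ball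
  have hUc : ⋃ i, U i = univ := by
    rw [eq_univ_iff_forall]
    intro x
    by_cases hx : x ∈ K
    · obtain ⟨z, hz, hxz⟩ := mem_iUnion₂.1 (htK hx)
      rw [← hy] at hz
      obtain ⟨i, rfl⟩ := hz
      exact mem_iUnion.2 ⟨i.succ, by rw [hUs]; exact hxz⟩
    · exact mem_iUnion.2 ⟨0, hx⟩
  obtain ⟨V, hVo, hVU, hVc, hVd⟩ := hd.shrink U hUo hUc
  have hW : ∀ i, ∃ u : Set (Fin k → ℝ), IsOpen u ∧
      β ⁻¹' V i ∩ stdSimplex ℝ (Fin k) = u ∩ stdSimplex ℝ (Fin k) :=
    fun i => (continuousOn_iff'.1 hcont) (V i) (hVo i)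
  choose W hWo hWeq using hW
  have hmem : ∀ i, ∀ w ∈ stdSimplex ℝ (Fin k), w ∈ W i ↔ β w ∈ V i := by
    intro i w hw
    have := Set.ext_iff.1 (hWeq i) w
    constructor
    · intro h1
      exact (this.2 ⟨h1, hw⟩).1
    · intro h1
      exact (this.1 ⟨h1, hw⟩).1
  refine ⟨n + 1, W, hWo, ?_, ?_, ?_⟩
  · intro w hw
    have : β w ∈ ⋃ i, V i := hVc ▸ mem_univ _
    obtain ⟨i, hi⟩ := mem_iUnion.1 this
    exact ⟨i, (hmem i w hw).2 hi⟩
  · intro w hw
    have : {i | w ∈ W i} = {i | β w ∈ V i} := by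
      ext i
      exact hmem i w hw
    rw [this]
    exact hVd _
  · rintro i w ⟨hwi, hw⟩ w' ⟨hwi', hw'⟩ b b' hb hb'
    have e1 : b = β w := bary_unique h hw hb (hβ w hw)
    have e2 : b' = β w' := bary_unique h hw' hb' (hβ w' hw')
    have m1 := hVU i ((hmem i w hw).1 hwi)
    have m2 := hVU i ((hmem i w' hw').1 hwi')
    rw [← e1] at m1
    rw [← e2] at m2
    revert m1 m2
    refine Fin.cases ?_ (fun i => ?_) i
    · intro m1 _
      rw [hU0] at m1
      exact absurd ⟨w, hw, e1.symm⟩ m1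
    · intro m1 m2
      rw [hUs, Metric.mem_ball] at m1 m2
      have := dist_triangle_right b b' (y i)
      linarith

end MP985a
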