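import Pool.Agent.Lib.MP_985a2b_al.Defs

/-!
# Product weights

`wt t j = ∏ i, t i (j i)` for `j : Fin N → Fin (n+1)`. For `t ∈ PS N n` all `wt t j ≥ 0` and
`∑ j, wt t j = ∏ i, ∑ m, t i m = 1` (`Finset.prod_univ_sum` / `Finset.prod_sum`,
`Fintype.piFinset_univ`).
-/

namespace MP985a

open Set

/-- The weight of the vertex `j` at the point `t` of the product of simplices. -/
def wt {N n : ℕ} (t : Fin N → Fin (n + 1) → ℝ) (j : Fin N → Fin (n + 1)) : ℝ :=
  ∏ i, t i (j i)

theorem wt_mem {N n : ℕ} {t : Fin N → Fin (n + 1) → ℝ} (ht : t ∈ PS N n) :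
    wt t ∈ stdSimplex ℝ (Fin N → Fin (n + 1)) := by
  constructor
  · intro j
    exact Finset.prod_nonneg fun i _ => (ht i).1 (j i)
  · have h := Finset.prod_univ_sum (fun _ : Fin N => (Finset.univ : Finset (Fin (n + 1))))
      (fun i m => t i m)
    rw [Fintype.piFinset_univ] at h
    unfold wt
    rw [← h]
    exact Finset.prod_eq_one fun i _ => (ht i).2

theorem continuous_wt {N n : ℕ} :
    Continuous (wt : (Fin N → Fin (n + 1) → ℝ) → (Fin N → Fin (n + 1)) → ℝ) := by
  refine continuous_pi fun j => ?_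
  unfold wt
  exact continuous_finsetProd _ fun i _ => (continuous_apply (j i)).comp (continuous_apply i)

theorem wt_eq_zero {N n : ℕ} {t : Fin N → Fin (n + 1) → ℝ} {j : Fin N → Fin (n + 1)} {i : Fin N}
    (h : t i (j i) = 0) : wt t j = 0 :=
  Finset.prod_eq_zero (Finset.mem_univ i) h

end MP985a
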