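import Pool.Agent.Lib.MP_985a2b_al.Defs

/-!
# An interior point outside finitely many small simplices

The projection forgetting the last coordinate of every factor sends the hull of at most `d + 1`
points into a proper affine subspace, which has measure zero.
-/

namespace MP985a

open Set

private noncomputable def gproj (N n : ℕ) :
    (Fin N → Fin (n + 1) → ℝ) →ₗ[ℝ] (Fin N → Fin n → ℝ) where
  toFun u := fun i m => u i m.castSucc
  map_add' _ _ := rfl
  map_smul' _ _ := rfl

private noncomputable def gext {N n : ℕ} (v : Fin N → Fin n → ℝ) : Fin N → Fin (n + 1) → ℝ :=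
  fun i => Fin.snoc (α := fun _ => ℝ) (v i) (1 - ∑ m, v i m)

private theorem gext_last {N n : ℕ} (v : Fin N → Fin n → ℝ) (i : Fin N) :
    gext v i (Fin.last n) = 1 - ∑ m, v i m := by
  unfold gext
  rw [Fin.snoc_last]

private theorem gext_castSucc {N n : ℕ} (v : Fin N → Fin n → ℝ) (i : Fin N) (m : Fin n) :
    gext v i m.castSucc = v i m := by
  unfold gext
  rw [Fin.snoc_castSucc]

private theorem span_ne_top {N n d : ℕ} (hd : d < N * n)
    (V : Finset (Fin N → Fin (n + 1) → ℝ)) (hV : V.card ≤ d + 1) (hne : V.Nonempty) :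
    affineSpan ℝ (gproj N n '' (V : Set (Fin N → Fin (n + 1) → ℝ))) ≠ ⊤ := by
  classical
  intro htop
  have hdir : (affineSpan ℝ (gproj N n '' (V : Set (Fin N → Fin (n + 1) → ℝ)))).direction = ⊤ := by
    rw [htop, AffineSubspace.direction_top]
  rw [direction_affineSpan] at hdir
  obtain ⟨c, hc⟩ : ∃ c, V.card = c + 1 := ⟨V.card - 1, by
    have := hne.card_pos
    omega⟩
  have h1 := finrank_vectorSpan_image_finset_le ℝ (fun u => gproj N n u) V hc
  rw [Finset.coe_image, hdir, finrank_top] at h1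
  have h2 : Module.finrank ℝ (Fin N → Fin n → ℝ) = N * n := by
    rw [Module.finrank_pi_fintype]
    simp
  rw [h2] at h1
  omega

theorem generic {N n d : ℕ} (hd : d < N * n)
    (𝒱 : Finset (Finset (Fin N → Fin (n + 1) → ℝ))) (h𝒱 : ∀ V ∈ 𝒱, V.card ≤ d + 1) :
    ∃ c ∈ PS N n, (∀ i m, 0 < c i m) ∧
      ∀ V ∈ 𝒱, c ∉ convexHull ℝ (V : Set (Fin N → Fin (n + 1) → ℝ)) := by
  classical
  let O : Set (Fin N → Fin n → ℝ) := {v | (∀ i m, 0 < v i m) ∧ ∀ i, ∑ m, v i m < 1}
  have hO : IsOpen O := by
    have h1 : O = (⋂ i : Fin N, ⋂ m : Fin n, {v : Fin N → Fin n → ℝ | 0 < v i m}) ∩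
        ⋂ i : Fin N, {v : Fin N → Fin n → ℝ | ∑ m, v i m < 1} := by
      ext v
      simp [O]
    rw [h1]
    refine IsOpen.inter (isOpen_iInter_of_finite fun i => isOpen_iInter_of_finite fun m => ?_)
      (isOpen_iInter_of_finite fun i => ?_)
    · exact isOpen_lt continuous_const (by fun_prop)
    · exact isOpen_lt (by fun_prop) continuous_const
  have hOne : O.Nonempty := by
    refine ⟨fun _ _ => 1 / ((n : ℝ) + 1), fun i m => by positivity, fun i => ?_⟩
    simp only [Finset.sum_const, Finset.card_univ, Fintype.card_fin, nsmul_eq_mul]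
    have : (0 : ℝ) < (n : ℝ) + 1 := by positivity
    rw [mul_one_div, div_lt_one this]
    linarith
  let 𝒲 : Finset (Finset (Fin N → Fin (n + 1) → ℝ)) := 𝒱.filter (fun V => V.Nonempty)
  have hmeas : MeasureTheory.volume
      (⋃ V ∈ 𝒲, (affineSpan ℝ (gproj N n '' (V : Set (Fin N → Fin (n + 1) → ℝ))) :
        Set (Fin N → Fin n → ℝ))) = 0 := by
    refine (MeasureTheory.measure_biUnion_null_iff (Finset.countable_toSet 𝒲)).mpr ?_
    intro V hV
    have hV' : V ∈ 𝒲 := hV
    rw [Finset.mem_filter] at hV'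
    exact MeasureTheory.Measure.addHaar_affineSubspace _ _
      (span_ne_top hd V (h𝒱 V hV'.1) hV'.2)
  have hpos : 0 < MeasureTheory.volume O := hO.measure_pos _ hOne
  obtain ⟨v, hvO, hvA⟩ : ∃ v ∈ O, v ∉
      (⋃ V ∈ 𝒲, (affineSpan ℝ (gproj N n '' (V : Set (Fin N → Fin (n + 1) → ℝ))) :
        Set (Fin N → Fin n → ℝ))) := by
    by_contra hcon
    push Not at hcon
    have hsub : O ⊆ (⋃ V ∈ 𝒲, (affineSpan ℝ (gproj N n '' (V : Set (Fin N → Fin (n + 1) → ℝ))) :
        Set (Fin N → Fin n → ℝ))) := fun x hx => hcon x hx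
    have := MeasureTheory.measure_mono_null hsub hmeas
    rw [this] at hpos
    exact lt_irrefl _ hpos
  obtain ⟨hv0, hv1⟩ := hvO
  refine ⟨gext v, ?_, ?_, ?_⟩
  · intro i
    refine ⟨fun m => ?_, ?_⟩
    · refine Fin.lastCases ?_ (fun j => ?_) m
      · rw [gext_last]
        have := hv1 i
        linarith
      · rw [gext_castSucc]
        exact (hv0 i j).le
    · rw [Fin.sum_univ_castSucc, gext_last]
      simp only [gext_castSucc]
      ring
  · intro i m
    refine Fin.lastCases ?_ (fun j => ?_) m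
    · rw [gext_last]
      have := hv1 i
      linarith
    · rw [gext_castSucc]
      exact hv0 i j
  · intro V hV hmem
    have hVne : V.Nonempty := by
      rcases V.eq_empty_or_nonempty with h | h
      · subst h
        simp at hmem
      · exact h
    apply hvA
    rw [Set.mem_iUnion₂]
    refine ⟨V, Finset.mem_filter.mpr ⟨hV, hVne⟩, ?_⟩
    have h1 : gproj N n (gext v) = v := by
      funext i m
      exact gext_castSucc v i m
    have h2 : gproj N n (gext v) ∈
        gproj N n '' convexHull ℝ (V : Set (Fin N → Fin (n + 1) → ℝ)) :=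
      Set.mem_image_of_mem _ hmem
    rw [LinearMap.image_convexHull, h1] at h2
    exact convexHull_subset_affineSpan _ h2

end MP985a
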