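import Pool.Agent.Lib.MP_985a2b_al.Kkm
import Pool.Agent.Lib.MP_985a2b_al.Generic

/-!
# A labelled cover of a product of simplices has large order

PROOF. `P = PS N n` is compact (product of standard simplices) and nonempty. For `t ∈ P` put
`ρ α t = (min (Metric.infEDist t (W α)ᶜ) 1).toReal` (`Metric.infEDist` to the complement; this is
continuous: `Metric.continuous_infEDist`, and it is positive iff `t ∈ W α` since `(W α)ᶜ` is closed;
the minimum with `1` takes care of `W α = univ`; alternatively use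
`BumpCovering`/`PartitionOfUnity.exists_isSubordinate` or `ρ α t = infDist t ((W α)ᶜ ∪ {far})`).
`σ t = ∑ α, ρ α t > 0` on `P`. `g t = ∑ α, (ρ α t / σ t) • e α` where
`e α : Fin N → Fin (n+1) → ℝ`, `e α i = Pi.single (lab α i) 1 ∈ stdSimplex`.
Then `g` is continuous on `P`, maps `P` into `P` (convex combination of points of `P`), and if
`t i m = 0` then `g t i m = 0`: for `ρ α t ≠ 0` we have `t ∈ W α`, so `t i (lab α i) ≠ 0`, so
`lab α i ≠ m` and `e α i m = 0`. For `t ∈ P` the point `g t` lies in the convex hull of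
`{e α | t ∈ W α}`, a set of at most `d + 1` elements. Let `𝒱` be the finset of all
`A.image e`, `A : Finset (Fin q)` with `A.card ≤ d + 1`. `generic hd 𝒱` gives an interior point `c`
outside all these convex hulls; `kkm` gives `t ∈ P` with `g t = c`. Contradiction.
(`Finset.centerMass_mem_convexHull` or `Convex.sum_mem` for `g t ∈ convexHull`.)
-/

namespace MP985a

open Set

theorem nerve {N n d q : ℕ} (W : Fin q → Set (Fin N → Fin (n + 1) → ℝ))
    (hW : ∀ α, IsOpen (W α)) (hcov : ∀ t ∈ PS N n, ∃ α, t ∈ W α)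
    (hord : ∀ t ∈ PS N n, {α | t ∈ W α}.ncard ≤ d + 1)
    (lab : Fin q → Fin N → Fin (n + 1))
    (hlab : ∀ α, ∀ t ∈ PS N n, t ∈ W α → ∀ i, t i (lab α i) ≠ 0) (hd : d < N * n) : False := by
  classical
  -- a nonnegative continuous function, positive exactly on `W α`
  have hρ : ∀ α, ∃ ρ : (Fin N → Fin (n + 1) → ℝ) → ℝ, Continuous ρ ∧ (∀ t, 0 ≤ ρ t) ∧
      ∀ t, ρ t ≠ 0 ↔ t ∈ W α := by
    intro α
    by_cases huniv : W α = univ
    · refine ⟨fun _ => 1, continuous_const, fun _ => zero_le_one, fun t => ?_⟩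
      simp [huniv]
    · have hne : (W α)ᶜ.Nonempty := by
        rw [nonempty_compl]
        exact huniv
      refine ⟨fun t => Metric.infDist t (W α)ᶜ, Metric.continuous_infDist_pt _,
        fun _ => Metric.infDist_nonneg, fun t => ?_⟩
      have h1 := (hW α).isClosed_compl.mem_iff_infDist_zero hne (x := t)
      rw [Ne, ← h1, mem_compl_iff, not_not]
  choose ρ hρc hρ0 hρW using hρ
  set σ : (Fin N → Fin (n + 1) → ℝ) → ℝ := fun t => ∑ α, ρ α t with hσ
  have hσc : Continuous σ := continuous_finsetSum _ fun α _ => hρc α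
  have hσpos : ∀ t ∈ PS N n, 0 < σ t := by
    intro t ht
    obtain ⟨α, hα⟩ := hcov t ht
    refine Finset.sum_pos' (fun β _ => hρ0 β t) ⟨α, Finset.mem_univ α, ?_⟩
    exact lt_of_le_of_ne (hρ0 α t) (Ne.symm ((hρW α t).2 hα))
  set e : Fin q → Fin N → Fin (n + 1) → ℝ := fun α i => Pi.single (lab α i) 1 with he
  have heP : ∀ α, e α ∈ PS N n := by
    intro α i
    constructor
    · intro m
      change 0 ≤ (Pi.single (lab α i) (1 : ℝ) : Fin (n + 1) → ℝ) m
      by_cases h : m = lab α i
      · rw [h, Pi.single_eq_same]; exact zero_le_one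
      · rw [Pi.single_eq_of_ne h]
    · change ∑ m, (Pi.single (lab α i) (1 : ℝ) : Fin (n + 1) → ℝ) m = 1
      rw [Finset.sum_pi_single']
      simp
  set g : (Fin N → Fin (n + 1) → ℝ) → (Fin N → Fin (n + 1) → ℝ) :=
    fun t => ∑ α, (ρ α t / σ t) • e α with hg
  have hPS : PS N n = Set.pi univ fun _ : Fin N => stdSimplex ℝ (Fin (n + 1)) := by
    ext t
    simp [PS]
  have hconv : Convex ℝ (PS N n) := by
    rw [hPS]
    exact convex_pi fun _ _ => convex_stdSimplex ℝ (Fin (n + 1))
  have hwsum : ∀ t ∈ PS N n, ∑ α, ρ α t / σ t = 1 := by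
    intro t ht
    rw [← Finset.sum_div]
    exact div_self (hσpos t ht).ne'
  have hgc : ContinuousOn g (PS N n) := by
    refine continuousOn_finsetSum _ fun α _ => ?_
    have h1 : ContinuousOn (fun t => ρ α t / σ t) (PS N n) :=
      (hρc α).continuousOn.div hσc.continuousOn fun t ht => (hσpos t ht).ne'
    exact h1.smul continuousOn_const
  have hgm : MapsTo g (PS N n) (PS N n) := by
    intro t ht
    exact hconv.sum_mem (fun α _ => div_nonneg (hρ0 α t) (hσpos t ht).le) (hwsum t ht)
      fun α _ => heP α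
  have hface : ∀ t ∈ PS N n, ∀ i m, t i m = 0 → g t i m = 0 := by
    intro t ht i m htim
    rw [hg]
    simp only [Finset.sum_apply, Pi.smul_apply, smul_eq_mul]
    refine Finset.sum_eq_zero fun α _ => ?_
    by_cases hα : ρ α t = 0
    · rw [hα, zero_div, zero_mul]
    · have h1 := hlab α t ht ((hρW α t).1 hα) i
      have h2 : m ≠ lab α i := by
        rintro rfl
        exact h1 htim
      rw [he]
      simp only
      rw [Pi.single_eq_of_ne h2, mul_zero]
  -- the finitely many small simplices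
  set 𝒱 : Finset (Finset (Fin N → Fin (n + 1) → ℝ)) :=
    ((Finset.univ : Finset (Finset (Fin q))).filter fun A => A.card ≤ d + 1).image
      fun A => A.image e with h𝒱
  obtain ⟨c, hcP, hcpos, hcV⟩ := generic hd 𝒱 (by
    intro V hV
    rw [h𝒱, Finset.mem_image] at hV
    obtain ⟨A, hA, rfl⟩ := hV
    rw [Finset.mem_filter] at hA
    exact Finset.card_image_le.trans hA.2)
  obtain ⟨t, ht, htc⟩ := kkm g hgc hgm hface hcP hcpos
  set A : Finset (Fin q) := Finset.univ.filter fun α => t ∈ W α with hA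
  have hAcard : A.card ≤ d + 1 := by
    have h1 := hord t ht
    rw [Set.ncard_eq_toFinset_card'] at h1
    refine le_trans (le_of_eq ?_) h1
    congr 1
    ext α
    simp [hA]
  have hAV : A.image e ∈ 𝒱 := by
    rw [h𝒱, Finset.mem_image]
    exact ⟨A, Finset.mem_filter.2 ⟨Finset.mem_univ _, hAcard⟩, rfl⟩
  apply hcV _ hAV
  rw [← htc, hg]
  simp only
  have hsum : ∑ α, (ρ α t / σ t) • e α = ∑ α ∈ A, (ρ α t / σ t) • e α := by
    refine (Finset.sum_subset (Finset.subset_univ A) fun α _ hα => ?_).symm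
    have h1 : ρ α t = 0 := by
      by_contra h
      exact hα (Finset.mem_filter.2 ⟨Finset.mem_univ _, (hρW α t).1 h⟩)
    rw [h1, zero_div, zero_smul]
  have hsum1 : ∑ α ∈ A, ρ α t / σ t = 1 := by
    rw [← hwsum t ht]
    refine Finset.sum_subset (Finset.subset_univ A) fun α _ hα => ?_
    have h1 : ρ α t = 0 := by
      by_contra h
      exact hα (Finset.mem_filter.2 ⟨Finset.mem_univ _, (hρW α t).1 h⟩)
    rw [h1, zero_div]
  rw [hsum]
  refine (convex_convexHull ℝ _).sum_mem (fun α _ => div_nonneg (hρ0 α t) (hσpos t ht).le)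
    hsum1 fun α hα => ?_
  apply subset_convexHull
  rw [Finset.coe_image]
  exact mem_image_of_mem _ hα

end MP985a
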