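import Pool.Agent.Lib.MP_985a2b_al.Bary
import Pool.Agent.Lib.MP_985a2b_al.Nerve
import Pool.Agent.Lib.MP_985a2b_al.DupMap

/-!
# Ample duplication

PROOF. Suppose that for every `i : Fin N` no point lies in all `C i m`. Choose `x j` by `hsel` for
`j ∈ J = (Fin N → Fin (n+1))`; let `k = card J`, `e : Fin k ≃ J` (`Fintype.equivFin`), `p a = x (e a)`.
For `t` put `w t a = wt t (e a)`: continuous in `t`, in the simplex of `Fin k` for `t ∈ P = PS N n`
(`wt_mem`, `Equiv.sum_comp`). Let `β w` be the barycenter for `w ∈ Δ = stdSimplex ℝ (Fin k)`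
(`bary_exists`), continuous on the compact `Δ` (`bary_cont`), `K = β '' Δ` compact.
FACETS: if `t ∈ P` and `t i m = 0` then `β (w t) ∈ C i m`: by `bary_mem`, for `a` with
`0 < w t a` we have `e a i ≠ m` (`wt_eq_zero`), hence `p a = x (e a) ∈ C i m`.
LEBESGUE NUMBER: there is `ε > 0` such that for every `i` and `y ∈ K` there is `m` with
`ball y ε ∩ C i m = ∅`: for fixed `i` the open sets `(C i m)ᶜ`, `m : Fin (n+1)`, cover `K` (their
union is everything), use `lebesgue_number_lemma_of_metric`; take the minimum over the finitely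
many `i` (if `N = 0` then `d < 0` is impossible).
`hE k p ε` gives `q`, `W`. Let `W' α = (fun t => w t) ⁻¹' W α`: open; they cover `P`, with order
`≤ d + 1`. LABELS: for `α` with a point `t0 ∈ P ∩ W' α` let `y0 = β (w t0) ∈ K` and for each `i` let
`lab α i` be an `m` with `ball y0 ε ∩ C i m = ∅`; for the other `α` any label. If `t ∈ P ∩ W' α`
then `dist (β (w t)) y0 < ε` by the property of `W`, so `β (w t) ∉ C i (lab α i)`, so
`t i (lab α i) ≠ 0` by FACETS. `nerve` gives a contradiction.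
-/

namespace MP985a

open Set

private theorem bary_continuousOn {X : Type*} [MetricSpace X] (h : CN X) {k : ℕ}
    (p : Fin k → X) (β : (Fin k → ℝ) → X)
    (hβ : ∀ w ∈ stdSimplex ℝ (Fin k), IsBary p w (β w)) :
    ContinuousOn β (stdSimplex ℝ (Fin k)) := by
  obtain ⟨R, hR⟩ := (Set.finite_range
    (fun z : Fin k × Fin k => dist (p z.1) (p z.2))).bddAbove
  have hR' : ∀ i j, dist (p i) (p j) ≤ R := fun i j => hR ⟨(i, j), rfl⟩
  intro w hw
  rw [ContinuousWithinAt, tendsto_iff_dist_tendsto_zero]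
  have hc : Continuous fun w' : Fin k → ℝ => Real.sqrt (4 * R ^ 2 * ∑ j, |w' j - w j|) := by
    fun_prop
  have h0 : Filter.Tendsto (fun w' : Fin k → ℝ => Real.sqrt (4 * R ^ 2 * ∑ j, |w' j - w j|))
      (nhdsWithin w (stdSimplex ℝ (Fin k))) (nhds 0) := by
    have h1 := (hc.tendsto w).mono_left (nhdsWithin_le_nhds (s := stdSimplex ℝ (Fin k)))
    simpa using h1
  refine squeeze_zero' (Filter.Eventually.of_forall fun _ => dist_nonneg) ?_ h0
  filter_upwards [self_mem_nhdsWithin] with w' hw'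
  exact Real.le_sqrt_of_sq_le (bary_cont h hw' hw (hβ w' hw') (hβ w hw) hR')

theorem dup {X : Type*} [MetricSpace X] [CompleteSpace X] (h : CN X) {d : ℕ} (hE : Ess X d)
    {N n : ℕ} (hd : d < N * n) (C : Fin N → Fin (n + 1) → Set X)
    (hC : ∀ i m, IsClosed (C i m)) (hm : ∀ i m, MidConv (C i m))
    (hsel : ∀ j : Fin N → Fin (n + 1), ∃ x, ∀ i m, m ≠ j i → x ∈ C i m) :
    ∃ i, ∃ x, ∀ m, x ∈ C i m := by
  by_contra hcon
  push Not at hcon
  choose x hx using hsel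
  haveI : Nonempty X := ⟨x fun _ => 0⟩
  obtain ⟨k, ⟨e⟩⟩ : ∃ k, Nonempty ((Fin N → Fin (n + 1)) ≃ Fin k) :=
    ⟨_, ⟨Fintype.equivFin _⟩⟩
  obtain ⟨p, hp⟩ : ∃ p : Fin k → X, ∀ a, p a = x (e.symm a) := ⟨_, fun _ => rfl⟩
  obtain ⟨W0, hW0⟩ : ∃ W0 : (Fin N → Fin (n + 1) → ℝ) → Fin k → ℝ,
    ∀ t a, W0 t a = wt t (e.symm a) := ⟨_, fun _ _ => rfl⟩
  have hW0c : Continuous W0 := by
    refine continuous_pi fun a => ?_
    simp only [hW0]
    exact (continuous_apply (e.symm a)).comp continuous_wt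
  have hW0m : ∀ t ∈ PS N n, W0 t ∈ stdSimplex ℝ (Fin k) := by
    intro t ht
    have h1 := wt_mem ht
    refine ⟨fun a => ?_, ?_⟩
    · rw [hW0]
      exact h1.1 _
    · simp only [hW0]
      rw [Equiv.sum_comp e.symm (fun j => wt t j)]
      exact h1.2
  choose! β hβ using fun (w : Fin k → ℝ) (hw : w ∈ stdSimplex ℝ (Fin k)) => bary_exists h p hw
  have hK : IsCompact (β '' stdSimplex ℝ (Fin k)) :=
    (isCompact_stdSimplex ℝ (Fin k)).image_of_continuousOn (bary_continuousOn h p β hβ)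
  have facets : ∀ t ∈ PS N n, ∀ i m, t i m = 0 → β (W0 t) ∈ C i m := by
    intro t ht i m htm
    refine bary_mem h (hW0m t ht) (hβ _ (hW0m t ht)) (hC i m) (hm i m) fun a ha => ?_
    rw [hp]
    refine hx _ i m fun h1 => ?_
    rw [hW0] at ha
    rw [wt_eq_zero (i := i) (by rw [← h1]; exact htm)] at ha
    exact lt_irrefl _ ha
  choose δ hδ0 hδ using fun i => lebesgue_number_lemma_of_metric hK
    (fun m => (hC i m).isOpen_compl) (fun y _ => mem_iUnion.2 (hcon i y))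
  obtain ⟨ε, hε0, hε⟩ : ∃ ε > 0, ∀ i, ε ≤ δ i := by
    rcases isEmpty_or_nonempty (Fin N) with h1 | h1
    · exact ⟨1, one_pos, fun i => h1.elim i⟩
    · exact ⟨Finset.univ.inf' Finset.univ_nonempty δ,
        (Finset.lt_inf'_iff _).2 fun i _ => hδ0 i, fun i => Finset.inf'_le _ (Finset.mem_univ i)⟩
  obtain ⟨q, W, hWo, hWc, hWord, hWd⟩ := hE k p ε hε0
  have hlab : ∀ (α : Fin q) (i : Fin N), ∃ m : Fin (n + 1), ∀ t ∈ PS N n, W0 t ∈ W α →
      t i m ≠ 0 := by
    intro α i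
    by_cases hα : ∃ t0 ∈ PS N n, W0 t0 ∈ W α
    · obtain ⟨t0, ht0, ht0W⟩ := hα
      obtain ⟨m, hm'⟩ := hδ i (β (W0 t0)) ⟨_, hW0m t0 ht0, rfl⟩
      refine ⟨m, fun t ht htW h0 => ?_⟩
      have h1 := facets t ht i m h0
      have h2 := hWd α _ ⟨htW, hW0m t ht⟩ _ ⟨ht0W, hW0m t0 ht0⟩ _ _ (hβ _ (hW0m t ht))
        (hβ _ (hW0m t0 ht0))
      exact hm' (Metric.mem_ball.2 (h2.trans_le (hε i))) h1
    · exact ⟨0, fun t ht htW => absurd ⟨t, ht, htW⟩ hα⟩
  choose lab hlab' using hlab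
  exact nerve (fun α => W0 ⁻¹' W α) (fun α => (hWo α).preimage hW0c)
    (fun t ht => hWc _ (hW0m t ht)) (fun t ht => hWord _ (hW0m t ht)) lab
    (fun α t ht htW i => hlab' α i t ht htW) hd

end MP985a
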