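import Pool.Agent.Lib.MP_985a2b_al.LanW

/-!
# The lantern relation in `MulAut (Fg g)`
-/

namespace MP985a

variable {g : ℕ}

/-- The automorphism with code `c`. -/
noncomputable def aut6 (hg : 3 ≤ g) (c : Fin 7 × Bool) : MulAut (Fg g) :=
  match c.1.val, c.2 with
  | 0, true => MA 0
  | 0, false => (MA 0)⁻¹
  | 1, true => MA 1
  | 1, false => (MA 1)⁻¹
  | 2, true => MA 2
  | 2, false => (MA 2)⁻¹
  | 3, true => LA 1
  | 3, false => (LA 1)⁻¹
  | 4, true => LA 2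
  | 4, false => (LA 2)⁻¹
  | 5, true => ZA hg 0
  | 5, false => (ZA hg 0)⁻¹
  | _, true => ZA hg 1
  | _, false => (ZA hg 1)⁻¹

/-- The six letters. -/
def let6 (g : ℕ) (k : Fin 6) : Fg g :=
  match k.val with
  | 0 => fa 0
  | 1 => fb 0
  | 2 => fa 1
  | 3 => fb 1
  | 4 => fa 2
  | _ => fb 2

/-- The substitution of the six letters. -/
def th6 (g : ℕ) : FreeGroup (Fin 6) →* Fg g := FreeGroup.lift (let6 g)

theorem th6_mk (w : W6) :
    th6 g (FreeGroup.mk w) = (w.map fun x => cond x.2 (let6 g x.1) (let6 g x.1)⁻¹).prod := by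
  rw [th6, FreeGroup.lift_mk]

private theorem h01 (hg : 3 ≤ g) : (0 : ZMod g) ≠ 1 := (one_ne_zero_zmod hg).symm

private theorem h02 (hg : 3 ≤ g) : (0 : ZMod g) ≠ 2 := by
  intro h
  have h2 : ((2 : ℕ) : ZMod g) = 0 := by rw [Nat.cast_ofNat]; exact h.symm
  rw [ZMod.natCast_eq_zero_iff] at h2
  have := Nat.le_of_dvd (by norm_num) h2
  omega

private theorem h12 (hg : 3 ≤ g) : (1 : ZMod g) ≠ 2 := by
  intro h
  apply one_ne_zero_zmod hg
  have h2 : (1 : ZMod g) + 1 = 1 := by rw [one_add_one_eq_two]; exact h.symm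
  simpa using h2

section

variable (hg : 3 ≤ g)

private theorem dl0 : (dl 0 : Fg g) = (fb 0)⁻¹ * fa 1 * fb 1 * (fa 1)⁻¹ := by
  simp [dl]

private theorem dl1 : (dl 1 : Fg g) = (fb 1)⁻¹ * fa 2 * fb 2 * (fa 2)⁻¹ := by
  rw [dl, one_add_one_eq_two]

private theorem z0a1 : ZA hg 0 (fa 1) = dl 0 * fa 1 := by
  have := ZA_fa_succ hg 0
  rwa [zero_add] at this

private theorem z1a2 : ZA hg 1 (fa 2) = dl 1 * fa 2 := by
  have := ZA_fa_succ hg 1
  rwa [one_add_one_eq_two] at this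

private theorem z0a1' : (ZA hg 0)⁻¹ (fa 1) = (dl 0)⁻¹ * fa 1 := by
  have := ZA_inv_fa_succ hg 0
  rwa [zero_add] at this

private theorem z1a2' : (ZA hg 1)⁻¹ (fa 2) = (dl 1)⁻¹ * fa 2 := by
  have := ZA_inv_fa_succ hg 1
  rwa [one_add_one_eq_two] at this

private theorem z0a2 : ZA hg 0 (fa 2) = fa 2 :=
  ZA_fa_ne hg (h02 hg).symm (by rw [zero_add]; exact (h12 hg).symm)

private theorem z0a2' : (ZA hg 0)⁻¹ (fa 2) = fa 2 :=
  ZA_inv_fa_ne hg (h02 hg).symm (by rw [zero_add]; exact (h12 hg).symm)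

private theorem z1a0 : ZA hg 1 (fa 0) = fa 0 :=
  ZA_fa_ne hg (h01 hg) (by rw [one_add_one_eq_two]; exact h02 hg)

private theorem z1a0' : (ZA hg 1)⁻¹ (fa 0) = fa 0 :=
  ZA_inv_fa_ne hg (h01 hg) (by rw [one_add_one_eq_two]; exact h02 hg)

set_option linter.unusedSimpArgs false in
theorem aut6_let6 (c : Fin 7 × Bool) (k : Fin 6) :
    aut6 hg c (let6 g k) = th6 g (FreeGroup.mk (tab c k)) := by
  have e01 := h01 hg
  have e02 := h02 hg
  have e12 := h12 hg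
  have e10 := e01.symm
  have e20 := e02.symm
  have e21 := e12.symm
  have q1 := z0a1 hg
  have q2 := z1a2 hg
  have q3 := z0a1' hg
  have q4 := z1a2' hg
  have q5 := z0a2 hg
  have q6 := z0a2' hg
  have q7 := z1a0 hg
  have q8 := z1a0' hg
  have d0 := dl0 (g := g)
  have d1 := dl1 (g := g)
  have l0 : let6 g 0 = fa 0 := rfl
  have l1 : let6 g 1 = fb 0 := rfl
  have l2 : let6 g 2 = fa 1 := rfl
  have l3 : let6 g 3 = fb 1 := rfl
  have l4 : let6 g 4 = fa 2 := rfl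
  have l5 : let6 g 5 = fb 2 := rfl
  rw [th6_mk]
  obtain ⟨c, b⟩ := c
  fin_cases c <;> cases b <;> fin_cases k <;>
    simp only [aut6, l0, l1, l2, l3, l4, l5, tab, List.map_cons, List.map_nil, List.prod_cons, List.prod_nil,
      cond_true, cond_false, mul_one, Fin.isValue, Fin.zero_eta, Fin.mk_one, Fin.reduceFinMk,
      Fin.val_zero, Fin.val_one, Fin.val_two, MA_fb, MA_fa_self, MA_inv_fb, MA_inv_fa_self,
      LA_fa, LA_fb_self, LA_inv_fa, LA_inv_fb_self, ZA_fa_self, ZA_fb_self, ZA_inv_fa_self,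
      ZA_inv_fb_self, MA_fa_ne e01, MA_fa_ne e02, MA_fa_ne e12, MA_fa_ne e10, MA_fa_ne e20,
      MA_fa_ne e21, MA_inv_fa_ne e01, MA_inv_fa_ne e02, MA_inv_fa_ne e12, MA_inv_fa_ne e10,
      MA_inv_fa_ne e20, MA_inv_fa_ne e21, LA_fb_ne e01, LA_fb_ne e02, LA_fb_ne e12,
      LA_fb_ne e10, LA_fb_ne e20, LA_fb_ne e21, LA_inv_fb_ne e01, LA_inv_fb_ne e02,
      LA_inv_fb_ne e12, LA_inv_fb_ne e10, LA_inv_fb_ne e20, LA_inv_fb_ne e21,
      ZA_fb_ne hg e01, ZA_fb_ne hg e10, ZA_fb_ne hg e02, ZA_fb_ne hg e20, ZA_fb_ne hg e12,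
      ZA_fb_ne hg e21, ZA_inv_fb_ne hg e01, ZA_inv_fb_ne hg e10, ZA_inv_fb_ne hg e02,
      ZA_inv_fb_ne hg e20, ZA_inv_fb_ne hg e12, ZA_inv_fb_ne hg e21, q1, q2, q3, q4, q5, q6, q7,
      q8, d0, d1] <;> rfl

theorem aut6_th6 (hg : 3 ≤ g) (c : Fin 7 × Bool) (w : W6) :
    aut6 hg c (th6 g (FreeGroup.mk w)) = th6 g (FreeGroup.mk (app (tab c) w)) := by
  have h : ((aut6 hg c : MulAut (Fg g)) : Fg g →* Fg g).comp (th6 g) =
      (th6 g).comp (FreeGroup.lift (fun i => FreeGroup.mk (tab c i))) := by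
    ext k
    simp only [MonoidHom.comp_apply, FreeGroup.lift_apply_of]
    have := aut6_let6 hg c k
    rw [← this]
    simp [th6]
  rw [mk_app]
  exact DFunLike.congr_fun h (FreeGroup.mk w)

/-- The product of the automorphisms in a list of codes. -/
noncomputable def auts (hg : 3 ≤ g) (l : List (Fin 7 × Bool)) : MulAut (Fg g) :=
  (l.map (aut6 hg)).prod

theorem auts_th6 (hg : 3 ≤ g) (l : List (Fin 7 × Bool)) (w : W6) :
    auts hg l (th6 g (FreeGroup.mk w)) = th6 g (FreeGroup.mk (apps l w)) := by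
  induction l with
  | nil => simp [auts, apps]
  | cons c l ih =>
    have h1 : auts hg (c :: l) = aut6 hg c * auts hg l := by simp [auts]
    have h2 : apps (c :: l) w = app (tab c) (apps l w) := rfl
    rw [h1, h2, MulAut.mul_apply, ih, aut6_th6]

theorem aut6_fb (hg : 3 ≤ g) (c : Fin 7 × Bool) {j : ZMod g} (h0 : j ≠ 0) (h1 : j ≠ 1)
    (h2 : j ≠ 2) : aut6 hg c (fb j) = fb j := by
  obtain ⟨c, b⟩ := c
  fin_cases c <;> cases b <;>
    simp only [aut6, MA_fb, MA_inv_fb, LA_fb_ne h1, LA_inv_fb_ne h1, LA_fb_ne h2, LA_inv_fb_ne h2,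
      ZA_fb_ne hg h0, ZA_inv_fb_ne hg h0, ZA_fb_ne hg h1, ZA_inv_fb_ne hg h1]

theorem aut6_fa (hg : 3 ≤ g) (c : Fin 7 × Bool) {j : ZMod g} (h0 : j ≠ 0) (h1 : j ≠ 1)
    (h2 : j ≠ 2) : aut6 hg c (fa j) = fa j := by
  have h01 : j ≠ 0 + 1 := by rw [zero_add]; exact h1
  have h12 : j ≠ 1 + 1 := by rw [one_add_one_eq_two]; exact h2
  obtain ⟨c, b⟩ := c
  fin_cases c <;> cases b <;>
    simp only [aut6, LA_fa, LA_inv_fa, MA_fa_ne h0, MA_inv_fa_ne h0, MA_fa_ne h1, MA_inv_fa_ne h1,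
      MA_fa_ne h2, MA_inv_fa_ne h2, ZA_fa_ne hg h0 h01, ZA_inv_fa_ne hg h0 h01,
      ZA_fa_ne hg h1 h12, ZA_inv_fa_ne hg h1 h12]

theorem auts_fix (hg : 3 ≤ g) (l : List (Fin 7 × Bool)) {x : Fg g}
    (hx : ∀ c, aut6 hg c x = x) : auts hg l x = x := by
  induction l with
  | nil => simp [auts]
  | cons c l ih =>
    have h1 : auts hg (c :: l) = aut6 hg c * auts hg l := by simp [auts]
    rw [h1, MulAut.mul_apply, ih, hx]

theorem auts_lantern (hg : 3 ≤ g) : auts hg lanL = auts hg lanR := by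
  have key : ∀ k : Fin 6, auts hg lanL (let6 g k) = auts hg lanR (let6 g k) := by
    intro k
    have h1 : let6 g k = th6 g (FreeGroup.mk [(k, true)]) := by simp [th6_mk]
    rw [h1, auts_th6, auts_th6, lan_words]
  refine aut_ext (fun i => ?_) (fun i => ?_)
  · by_cases h0 : i = 0
    · subst h0; have hk := key 0; rwa [show let6 g 0 = fa 0 from rfl] at hk
    by_cases h1 : i = 1
    · subst h1; have hk := key 2; rwa [show let6 g 2 = fa 1 from rfl] at hk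
    by_cases h2 : i = 2
    · subst h2; have hk := key 4; rwa [show let6 g 4 = fa 2 from rfl] at hk
    rw [auts_fix hg _ (fun c => aut6_fa hg c h0 h1 h2),
      auts_fix hg _ (fun c => aut6_fa hg c h0 h1 h2)]
  · by_cases h0 : i = 0
    · subst h0; have hk := key 1; rwa [show let6 g 1 = fb 0 from rfl] at hk
    by_cases h1 : i = 1
    · subst h1; have hk := key 3; rwa [show let6 g 3 = fb 1 from rfl] at hk
    by_cases h2 : i = 2
    · subst h2; have hk := key 5; rwa [show let6 g 5 = fb 2 from rfl] at hk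
    rw [auts_fix hg _ (fun c => aut6_fb hg c h0 h1 h2),
      auts_fix hg _ (fun c => aut6_fb hg c h0 h1 h2)]

theorem lantern_aut (hg : 3 ≤ g) :
    (MA 0 : MulAut (Fg g)) * MA 1 * MA 2 *
      ((LA 1 * ZA hg 0 * MA 1 * LA 1)⁻¹ * ZA hg 1 * (LA 1 * ZA hg 0 * MA 1 * LA 1)) =
    ZA hg 0 *
      ((LA 1 * ZA hg 0 * (LA 2)⁻¹ * (MA 1)⁻¹ * (LA 1)⁻¹ * (ZA hg 1)⁻¹ * MA 2 * LA 2)⁻¹ * ZA hg 1 *
        (LA 1 * ZA hg 0 * (LA 2)⁻¹ * (MA 1)⁻¹ * (LA 1)⁻¹ * (ZA hg 1)⁻¹ * MA 2 * LA 2)) *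
      ((LA 1 * MA 1 * MA 1 * LA 1)⁻¹ * ZA hg 1 * (LA 1 * MA 1 * MA 1 * LA 1)) := by
  have h := auts_lantern hg
  simp only [auts, lanL, lanR, List.map_cons, List.map_nil, List.prod_cons, List.prod_nil,
    aut6, mul_one] at h
  simp only [mul_inv_rev, inv_inv, mul_assoc]
  exact h

end

end MP985a
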