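import Pool.Agent.Lib.MP_985a2b_al.Defs

/-!
# Point picking

PROOF. Suppose that for every `u` there is `y` with `dist u y ≤ n * f u` and `2 * f y < f u`. Choose
such a `y = s u` for every `u`, start anywhere (`X` nonempty) and iterate: `x (k+1) = s (x k)`.
`f (x k) ≤ f (x 0) / 2^k` and `dist (x k) (x (k+1)) ≤ n * f (x 0) / 2^k`, so `x` is a Cauchy sequence
(`cauchySeq_of_le_geometric_two` or `cauchySeq_of_le_geometric`), its limit `z` has
`f z ≤ 0` (continuity), a contradiction to `0 < f z`.
-/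

namespace MP985a

theorem exists_pick {X : Type*} [MetricSpace X] [CompleteSpace X] [Nonempty X] (f : X → ℝ)
    (hf : Continuous f) (hpos : ∀ x, 0 < f x) (n : ℝ) (hn : 0 ≤ n) :
    ∃ u, ∀ y, dist u y ≤ n * f u → f u ≤ 2 * f y := by
  by_contra hcon
  push Not at hcon
  choose s hs1 hs2 using hcon
  obtain ⟨x0⟩ := ‹Nonempty X›
  set x : ℕ → X := fun k => s^[k] x0 with hx
  have hstep : ∀ k, x (k + 1) = s (x k) := fun k => Function.iterate_succ_apply' s k x0
  have hfx : ∀ k, f (x k) ≤ f x0 * (1 / 2) ^ k := by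
    intro k
    induction k with
    | zero => simp [hx]
    | succ k ih =>
      rw [hstep, pow_succ]
      have h2 := hs2 (x k)
      linarith
  have hd : ∀ k, dist (x k) (x (k + 1)) ≤ n * f x0 * (1 / 2) ^ k := by
    intro k
    rw [hstep]
    refine (hs1 (x k)).trans ?_
    rw [mul_assoc]
    exact mul_le_mul_of_nonneg_left (hfx k) hn
  have hc : CauchySeq x := cauchySeq_of_le_geometric (1 / 2) _ (by norm_num) hd
  obtain ⟨z, hz⟩ := cauchySeq_tendsto_of_complete hc
  have h1 : Filter.Tendsto (fun k => f (x k)) Filter.atTop (nhds (f z)) :=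
    (hf.tendsto z).comp hz
  have h2 : Filter.Tendsto (fun k : ℕ => f x0 * (1 / 2 : ℝ) ^ k) Filter.atTop
      (nhds (f x0 * 0)) :=
    (tendsto_pow_atTop_nhds_zero_of_lt_one (by norm_num) (by norm_num)).const_mul _
  have h3 := le_of_tendsto_of_tendsto' h1 h2 hfx
  have h4 := hpos z
  rw [mul_zero] at h3
  linarith

end MP985a
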