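import Pool.Agent.Lib.MP_985a2b_al.UDefs

/-!
# The action on the ultralimit

PROOF. For `a : G` and `x : BSeq u l` the sequence `n ↦ a • x n` is in `BSeq u l`:
`dist (a • x n) (u n) ≤ dist (a • x n) (a • u n) + dist (a • u n) (u n) ≤ (C_x + C_a) * l n`
(`hG`). If `cls x = cls y` then `cls (a • x) = cls (a • y)`, because
`dist (a • x n) (a • y n) = dist (x n) (y n)` and both distances in `Y` are the limit of the same
sequence. So `a • cls x := cls (a • x)` (`Function.surjInv h.surj`) is well defined; it is an action
(`one_smul`, `mul_smul`) by isometries (uniqueness of limits).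
-/

namespace MP985a

open Filter Topology

theorem IsULim.action {X Y : Type*} [MetricSpace X] [MetricSpace Y] {F : Ultrafilter ℕ}
    {u : ℕ → X} {l : ℕ → ℝ} {cls : BSeq u l → Y} (h : IsULim F u l cls) {G : Type*} [Group G]
    [MulAction G X] [IsIsometricSMul G X]
    (hG : ∀ a : G, ∃ C, ∀ n, dist (u n) (a • u n) ≤ C * l n) :
    ∃ _ : MulAction G Y, IsIsometricSMul G Y ∧
      ∀ (a : G) (x y : BSeq u l), (∀ n, y.1 n = a • x.1 n) → a • cls x = cls y := by
  -- the shifted sequence
  have hmem : ∀ (a : G) (x : BSeq u l), ∃ C, ∀ n, dist (a • x.1 n) (u n) ≤ C * l n := by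
    intro a x
    obtain ⟨C, hC⟩ := x.2
    obtain ⟨D, hD⟩ := hG a
    refine ⟨C + D, fun n => ?_⟩
    calc dist (a • x.1 n) (u n) ≤ dist (a • x.1 n) (a • u n) + dist (a • u n) (u n) :=
          dist_triangle _ _ _
      _ = dist (x.1 n) (u n) + dist (u n) (a • u n) := by
          rw [dist_smul, dist_comm (a • u n)]
      _ ≤ C * l n + D * l n := add_le_add (hC n) (hD n)
      _ = (C + D) * l n := by ring
  let sh : G → BSeq u l → BSeq u l := fun a x => ⟨fun n => a • x.1 n, hmem a x⟩
  -- distances are preserved
  have hdist : ∀ (a : G) (x y : BSeq u l), dist (cls (sh a x)) (cls (sh a y)) =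
      dist (cls x) (cls y) := by
    intro a x y
    have h1 := h.lim (sh a x) (sh a y)
    have h2 := h.lim x y
    have h3 : (fun n => dist ((sh a x).1 n) ((sh a y).1 n) / l n) =
        fun n => dist (x.1 n) (y.1 n) / l n := by
      funext n
      show dist (a • x.1 n) (a • y.1 n) / l n = _
      rw [dist_smul]
    rw [h3] at h1
    exact tendsto_nhds_unique h1 h2
  have hwell : ∀ (a : G) (x y : BSeq u l), cls x = cls y → cls (sh a x) = cls (sh a y) := by
    intro a x y hxy
    rw [← dist_eq_zero, hdist, hxy, dist_self]
  let r : Y → BSeq u l := Function.surjInv h.surj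
  have hr : ∀ y, cls (r y) = y := Function.surjInv_eq h.surj
  have hact : ∀ (a : G) (x : BSeq u l), cls (sh a (r (cls x))) = cls (sh a x) := by
    intro a x
    exact hwell a _ _ (hr _)
  let A : MulAction G Y :=
    { smul := fun a y => cls (sh a (r y))
      one_smul := by
        intro y
        show cls (sh 1 (r y)) = y
        have : sh 1 (r y) = r y := by
          apply Subtype.ext
          funext n
          show (1 : G) • (r y).1 n = _
          rw [one_smul]
        rw [this, hr]
      mul_smul := by
        intro a b y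
        show cls (sh (a * b) (r y)) = cls (sh a (r (cls (sh b (r y)))))
        rw [hact]
        have : sh (a * b) (r y) = sh a (sh b (r y)) := by
          apply Subtype.ext
          funext n
          show (a * b) • (r y).1 n = a • b • (r y).1 n
          rw [mul_smul]
        rw [this] }
  have hA : ∀ (a : G) (x : BSeq u l), A.toSMul.smul a (cls x) = cls (sh a x) := hact
  refine ⟨A, ?_, ?_⟩
  · refine @IsIsometricSMul.mk G Y _ _ (fun a => ?_)
    refine Isometry.of_dist_eq (fun y z => ?_)
    show dist (cls (sh a (r y))) (cls (sh a (r z))) = dist y z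
    rw [hdist, hr, hr]
  · intro a x y hxy
    show A.toSMul.smul a (cls x) = cls y
    rw [hA]
    congr 1
    apply Subtype.ext
    funext n
    exact (hxy n).symm

end MP985a
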