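import Pool.Agent.Lib.MP_985a2b_al.UDefs

/-!
# Ultralimits are complete

`ul_complete`: for ANY `Y` with `IsULim F u l cls`. PROOF. Let `(y k)` be a Cauchy sequence in `Y`
(`Metric.complete_of_convergent_controlled_sequences` with `B k = 1/2^(k+1)`: we may assume
`dist (y j) (y k) < 1/2^(N+1)` for `j, k ≥ N`); `y k = cls (x k)`. For every `k` the set
`A k = {n | k ≤ n ∧ ∀ i < k, ∀ j ≤ k, i ≤ j → dist (x i n) (x j n) < l n / 2^i}` belongs to `F`
(finite intersection; `lim` and `dist (y i) (y j) < 1/2^(i+1) < 1/2^i`, `eventually_lt`). For every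
`n` let `κ n` be the largest `k ≤ n` with `n ∈ A k` (`Nat.findGreatest`; `n ∈ A 0` always). Put
`z n = x (κ n) n`. If `n ∈ A k` with `k ≥ i + 1`, then `κ n ≥ k > i` and `n ∈ A (κ n)`, so
`dist (x i n) (z n) < l n / 2^i`. In particular for `n ∈ A 1`, `dist (z n) (x 0 n) ≤ l n`; change
`z n` to `u n` for `n ∉ A 1`, then `z` is bounded. So for every `i`:
`dist (x i n) (z n) / l n ≤ 1/2^i` for `F`-almost all `n`, `dist (y i) (cls z) ≤ 1/2^i`, hence
`y i → cls z`.
-/

namespace MP985a

open Filter Topology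

theorem IsULim.complete {X Y : Type*} [MetricSpace X] [MetricSpace Y] {F : Ultrafilter ℕ}
    {u : ℕ → X} {l : ℕ → ℝ} {cls : BSeq u l → Y} (h : IsULim F u l cls) : CompleteSpace Y := by
  classical
  apply Metric.complete_of_convergent_controlled_sequences (fun k => (1 / 2 : ℝ) ^ (k + 1))
    (fun k => by positivity)
  intro y hy
  choose x hx using fun k => h.surj (y k)
  let A : ℕ → Set ℕ := fun k =>
    {n | k ≤ n ∧ ∀ i < k, ∀ j ≤ k, i ≤ j → dist ((x i).1 n) ((x j).1 n) < l n * (1 / 2) ^ i}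
  have hA0 : ∀ n, n ∈ A 0 := fun n => ⟨Nat.zero_le n, fun i hi => absurd hi (Nat.not_lt_zero i)⟩
  have hAF : ∀ k, ∀ᶠ n in (F : Filter ℕ), n ∈ A k := by
    intro k
    have h1 : ∀ᶠ n in (F : Filter ℕ), k ≤ n := h.fine (eventually_ge_atTop k)
    have h2 : ∀ᶠ n in (F : Filter ℕ), ∀ i ∈ {i | i < k}, ∀ j ∈ {j | j ≤ k}, i ≤ j →
        dist ((x i).1 n) ((x j).1 n) < l n * (1 / 2) ^ i := by
      rw [eventually_all_finite (Set.finite_lt_nat k)]
      intro i _
      rw [eventually_all_finite (Set.finite_le_nat k)]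
      intro j _
      by_cases hij : i ≤ j
      · have h3 := h.lim (x i) (x j)
        rw [hx, hx] at h3
        have h4 : dist (y i) (y j) < (1 / 2) ^ i := by
          refine (hy i i j le_rfl hij).trans_le ?_
          exact pow_le_pow_of_le_one (by norm_num) (by norm_num) (Nat.le_succ i)
        filter_upwards [h3.eventually_lt_const h4] with n hn _
        rw [div_lt_iff₀ (h.pos n)] at hn
        rw [mul_comm]
        exact hn
      · exact Eventually.of_forall fun n h' => absurd h' hij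
    filter_upwards [h1, h2] with n hn1 hn2
    exact ⟨hn1, fun i hi j hj hij => hn2 i hi j hj hij⟩
  let κ : ℕ → ℕ := fun n => Nat.findGreatest (fun k => n ∈ A k) n
  have hκ : ∀ n, n ∈ A (κ n) := fun n =>
    Nat.findGreatest_spec (P := fun k => n ∈ A k) (Nat.zero_le n) (hA0 n)
  have hκle : ∀ n k, n ∈ A k → k ≤ κ n := fun n k hk => Nat.le_findGreatest hk.1 hk
  have key : ∀ n i k, n ∈ A k → i < k →
      dist ((x i).1 n) ((x (κ n)).1 n) < l n * (1 / 2) ^ i := by
    intro n i k hk hik
    have h1 := hκle n k hk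
    exact (hκ n).2 i (lt_of_lt_of_le hik h1) (κ n) le_rfl (hik.le.trans h1)
  obtain ⟨C, hC⟩ := (x 0).2
  let w : BSeq u l := ⟨fun n => if n ∈ A 1 then (x (κ n)).1 n else u n, |C| + 1, fun n => by
    have hl := h.pos n
    by_cases hn : n ∈ A 1
    · simp only [hn, if_true]
      have h1 := key n 0 1 hn Nat.zero_lt_one
      rw [pow_zero, mul_one] at h1
      have h2 := dist_triangle ((x (κ n)).1 n) ((x 0).1 n) (u n)
      have h5 := dist_comm ((x (κ n)).1 n) ((x 0).1 n)
      have h3 := hC n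
      have h4 : C * l n ≤ |C| * l n := mul_le_mul_of_nonneg_right (le_abs_self C) hl.le
      linarith
    · simp only [hn, if_false, dist_self]
      have := abs_nonneg C
      positivity⟩
  have hw : ∀ n, n ∈ A 1 → w.1 n = (x (κ n)).1 n := fun n hn => if_pos hn
  have hdist : ∀ i, dist (y i) (cls w) ≤ (1 / 2) ^ i := by
    intro i
    have h1 := h.lim (x i) w
    rw [hx] at h1
    refine le_of_tendsto h1 ?_
    filter_upwards [hAF (i + 1), hAF 1] with n hn hn1
    rw [hw n hn1, div_le_iff₀ (h.pos n), mul_comm]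
    exact (key n i (i + 1) hn (Nat.lt_succ_self i)).le
  refine ⟨cls w, ?_⟩
  rw [tendsto_iff_dist_tendsto_zero]
  exact squeeze_zero (fun i => dist_nonneg) hdist
    (tendsto_pow_atTop_nhds_zero_of_lt_one (by norm_num) (by norm_num))

end MP985a
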