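import Pool.Agent.Lib.MP_985a2b_al.UBary

/-!
# `Ess` passes to ultralimits

PROOF. Let `k`, `p : Fin k → Y`, `ε > 0`; `Δ = stdSimplex ℝ (Fin k)`; if `k = 0` then `Δ` is empty:
take `q = 0`. Let `p j = cls (P j)`. For `w ∈ Δ` and `n` let `β n w` be the barycenter of the points
`P j n` in `X` (`bary_exists`); `B w = (n ↦ β n w) ∈ BSeq u l` (`ubary_bseq`), `β w = cls (B w)` is
the barycenter of `p` with weights `w` in `Y` (`IsULim.bary`; it is unique: `bary_unique` in `Y`,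
`h.cn hX`). Let `C > 0` be such that `dist (P i n) (P j n) ≤ C * l n` for all `i, j, n` (finite
maximum of `C_i + C_j`), then also `dist (p i) (p j) ≤ C` (limit).
EQUICONTINUITY: `bary_cont` gives `dist (β n w) (β n w')^2 ≤ 4 (C l n)^2 ∑ |w j - w' j|` and
`dist (β w) (β w')^2 ≤ 4 C^2 ∑ |w j - w' j|`. Choose `η > 0` with `4 C^2 η ≤ (ε/16)^2` and a finite
`η`-net `A ⊆ Δ` (`Δ` is compact, hence totally bounded; for every `w ∈ Δ` there is `a ∈ A` with
`∑ |w j - a j| ≤ η`, e.g. sup-norm distance `≤ η/k`).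
GOOD INDEX: for each pair `(a, a') ∈ A × A`: `dist (β n a) (β n a') / l n → dist (β a) (β a')`
along `F`, so there is an `n` (`Filter.Eventually.exists` for a finite intersection) with
`dist (β a) (β a') ≤ dist (β n a) (β n a') / l n + ε/16` for all `a, a' ∈ A`.
For `w, w' ∈ Δ` take `a, a' ∈ A` near them:
`dist (β w) (β w') ≤ ε/16 + dist (β a) (β a') + ε/16 ≤ 3ε/16 + dist (β n a) (β n a') / l n
≤ 3ε/16 + ε/16 + dist (β n w) (β n w') / l n + ε/16 = 5ε/16 + dist (β n w) (β n w') / l n`.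
Apply `Ess X d` to the points `P j n` and the number `ε * l n / 2`: it gives `q, W`. The same `W`
works: if `w, w' ∈ W i ∩ Δ` then `dist (β n w) (β n w') < ε * l n / 2`, so
`dist (β w) (β w') < 5ε/16 + ε/2 < ε`.
-/

namespace MP985a

open Filter Topology

theorem IsULim.ess {X Y : Type*} [MetricSpace X] [MetricSpace Y] [CompleteSpace X]
    {F : Ultrafilter ℕ} {u : ℕ → X} {l : ℕ → ℝ} {cls : BSeq u l → Y} (h : IsULim F u l cls)
    (hX : CN X) {d : ℕ} (hE : Ess X d) : Ess Y d := by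
  classical
  intro k p ε hε
  have hY : CN Y := h.cn hX
  have : Nonempty Y := ⟨cls ⟨u, 0, fun n => by simp⟩⟩
  choose P hP using fun j => h.surj (p j)
  -- the barycenters in `X`
  obtain ⟨β, hβ⟩ : ∃ β : ℕ → (Fin k → ℝ) → X, ∀ n, ∀ w ∈ stdSimplex ℝ (Fin k),
      IsBary (fun j => (P j).1 n) w (β n w) := by
    refine ⟨fun n w => if hw : w ∈ stdSimplex ℝ (Fin k) then
      (bary_exists hX (fun j => (P j).1 n) hw).choose else u n, fun n w hw => ?_⟩
    simp only [dif_pos hw]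
    exact (bary_exists hX (fun j => (P j).1 n) hw).choose_spec
  -- the barycenters in `Y`
  have hyex : ∀ w ∈ stdSimplex ℝ (Fin k), ∃ y : Y, ∃ B : BSeq u l, (∀ n, B.1 n = β n w) ∧
      cls B = y ∧ IsBary p w y := by
    intro w hw
    refine ⟨_, ⟨fun n => β n w, ubary_bseq h.pos P hw (fun n => β n w) (fun n => hβ n w hw)⟩,
      fun n => rfl, rfl, ?_⟩
    have h1 := h.bary P hw
      ⟨fun n => β n w, ubary_bseq h.pos P hw (fun n => β n w) (fun n => hβ n w hw)⟩
      (fun n => hβ n w hw)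
    have h2 : (fun j => cls (P j)) = p := funext hP
    rwa [h2] at h1
  choose! bY hBY using hyex
  -- the bound for the distances
  choose Ci hCi using fun i => (P i).2
  set C : ℝ := 2 * (1 + ∑ i, |Ci i|) with hCdef
  have hsum0 : 0 ≤ ∑ i, |Ci i| := Finset.sum_nonneg fun i _ => abs_nonneg _
  have hC : 0 < C := by positivity
  have hCle : ∀ i, Ci i ≤ C / 2 := by
    intro i
    have h1 : |Ci i| ≤ ∑ i, |Ci i| :=
      Finset.single_le_sum (f := fun i => |Ci i|) (fun i _ => abs_nonneg _) (Finset.mem_univ i)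
    have h2 := le_abs_self (Ci i)
    rw [hCdef]
    linarith
  have hdX : ∀ n i j, dist ((P i).1 n) ((P j).1 n) ≤ C * l n := by
    intro n i j
    have h1 := hCi i n
    have h2 := hCi j n
    have h3 := dist_triangle_right ((P i).1 n) ((P j).1 n) (u n)
    have h4 := mul_le_mul_of_nonneg_right (hCle i) (h.pos n).le
    have h5 := mul_le_mul_of_nonneg_right (hCle j) (h.pos n).le
    linarith
  have hdY : ∀ i j, dist (p i) (p j) ≤ C := by
    intro i j
    rw [← hP i, ← hP j]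
    refine le_of_tendsto (h.lim (P i) (P j)) (Eventually.of_forall fun n => ?_)
    rw [div_le_iff₀ (h.pos n)]
    exact hdX n i j
  -- equicontinuity
  set η : ℝ := (ε / 16) ^ 2 / (4 * C ^ 2) with hη
  have hη0 : 0 < η := by positivity
  have hηe : 4 * C ^ 2 * η = (ε / 16) ^ 2 := by
    rw [hη]
    field_simp
  have eqX : ∀ n, ∀ w ∈ stdSimplex ℝ (Fin k), ∀ a ∈ stdSimplex ℝ (Fin k),
      ∑ j, |w j - a j| ≤ η → dist (β n w) (β n a) ≤ ε / 16 * l n := by
    intro n w hw a ha hs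
    have h1 := bary_cont hX hw ha (hβ n w hw) (hβ n a ha) (R := C * l n) (hdX n)
    have h2 : dist (β n w) (β n a) ^ 2 ≤ (ε / 16 * l n) ^ 2 := by
      calc dist (β n w) (β n a) ^ 2 ≤ 4 * (C * l n) ^ 2 * ∑ j, |w j - a j| := h1
        _ ≤ 4 * (C * l n) ^ 2 * η := mul_le_mul_of_nonneg_left hs (by positivity)
        _ = (4 * C ^ 2 * η) * l n ^ 2 := by ring
        _ = (ε / 16 * l n) ^ 2 := by rw [hηe]; ring
    exact (abs_le_of_sq_le_sq' h2 (mul_nonneg (by positivity) (h.pos n).le)).2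
  have eqY : ∀ w ∈ stdSimplex ℝ (Fin k), ∀ a ∈ stdSimplex ℝ (Fin k),
      ∑ j, |w j - a j| ≤ η → dist (bY w) (bY a) ≤ ε / 16 := by
    intro w hw a ha hs
    obtain ⟨_, _, _, b1⟩ := hBY w hw
    obtain ⟨_, _, _, b2⟩ := hBY a ha
    have h1 := bary_cont hY hw ha b1 b2 (R := C) hdY
    have h2 : dist (bY w) (bY a) ^ 2 ≤ (ε / 16) ^ 2 := by
      calc dist (bY w) (bY a) ^ 2 ≤ 4 * C ^ 2 * ∑ j, |w j - a j| := h1
        _ ≤ 4 * C ^ 2 * η := mul_le_mul_of_nonneg_left hs (by positivity)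
        _ = (ε / 16) ^ 2 := hηe
    exact (abs_le_of_sq_le_sq' h2 (by positivity)).2
  -- the net
  obtain ⟨A, hA, hcovA⟩ := (isCompact_stdSimplex ℝ (Fin k)).elim_nhds_subcover
    (fun a => {w : Fin k → ℝ | ∑ j, |w j - a j| < η}) (by
      intro a _
      have hc : Continuous fun w : Fin k → ℝ => ∑ j, |w j - a j| := by fun_prop
      refine (isOpen_lt hc continuous_const).mem_nhds ?_
      change ∑ j, |a j - a j| < η
      simpa using hη0)
  have hnet : ∀ w ∈ stdSimplex ℝ (Fin k), ∃ a ∈ A, ∑ j, |w j - a j| ≤ η := by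
    intro w hw
    have h1 := hcovA hw
    simp only [Set.mem_iUnion] at h1
    obtain ⟨a, ha, h2⟩ := h1
    exact ⟨a, ha, le_of_lt h2⟩
  -- the good index
  have hev : ∀ a ∈ A, ∀ a' ∈ A, ∀ᶠ n in (F : Filter ℕ),
      dist (bY a) (bY a') ≤ dist (β n a) (β n a') / l n + ε / 16 := by
    intro a ha a' ha'
    obtain ⟨B, hB1, hB2, -⟩ := hBY a (hA a ha)
    obtain ⟨B', hB1', hB2', -⟩ := hBY a' (hA a' ha')
    have h1 := h.lim B B'
    rw [hB2, hB2'] at h1
    have h2 : dist (bY a) (bY a') - ε / 16 < dist (bY a) (bY a') := by linarith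
    filter_upwards [h1.eventually (lt_mem_nhds h2)] with n hn
    rw [hB1, hB1'] at hn
    linarith
  have hev2 : ∀ᶠ n in (F : Filter ℕ), ∀ a ∈ A, ∀ a' ∈ A,
      dist (bY a) (bY a') ≤ dist (β n a) (β n a') / l n + ε / 16 := by
    rw [Filter.eventually_all_finset]
    intro a ha
    rw [Filter.eventually_all_finset]
    exact hev a ha
  obtain ⟨n, hn⟩ := hev2.exists
  have hln := h.pos n
  obtain ⟨q, W, hW1, hW2, hW3, hW4⟩ := hE k (fun j => (P j).1 n) (ε * l n / 2) (by positivity)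
  refine ⟨q, W, hW1, hW2, hW3, ?_⟩
  rintro i w ⟨hwW, hw⟩ w' ⟨hwW', hw'⟩ b b' hb hb'
  obtain ⟨_, _, _, b1⟩ := hBY w hw
  obtain ⟨_, _, _, b2⟩ := hBY w' hw'
  rw [bary_unique hY hw hb b1, bary_unique hY hw' hb' b2]
  obtain ⟨a, ha, hwa⟩ := hnet w hw
  obtain ⟨a', ha', hwa'⟩ := hnet w' hw'
  have h1 := hW4 i w ⟨hwW, hw⟩ w' ⟨hwW', hw'⟩ _ _ (hβ n w hw) (hβ n w' hw')
  have h2 := eqX n w hw a (hA a ha) hwa
  have h3 := eqX n w' hw' a' (hA a' ha') hwa'
  have h4 := eqY w hw a (hA a ha) hwa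
  have h5 := eqY w' hw' a' (hA a' ha') hwa'
  have h6 := hn a ha a' ha'
  have h7 : dist (β n a) (β n a') ≤
      dist (β n w) (β n a) + dist (β n w) (β n w') + dist (β n w') (β n a') := by
    have t1 := dist_triangle (β n a) (β n w) (β n a')
    have t2 := dist_triangle (β n w) (β n w') (β n a')
    rw [dist_comm (β n a) (β n w)] at t1
    linarith
  have h8 : dist (bY w) (bY w') ≤
      dist (bY w) (bY a) + dist (bY a) (bY a') + dist (bY w') (bY a') := by
    have t1 := dist_triangle (bY w) (bY a) (bY w')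
    have t2 := dist_triangle (bY a) (bY a') (bY w')
    rw [dist_comm (bY a') (bY w')] at t2
    linarith
  have h9 : dist (β n a) (β n a') / l n < 2 * (ε / 16) + ε / 2 := by
    rw [div_lt_iff₀ hln]
    linarith
  linarith

end MP985a
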