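import Pool.Agent.Lib.MP_985a2b_al.UMet
import Pool.Agent.Lib.MP_985a2b_al.UComp
import Pool.Agent.Lib.MP_985a2b_al.UAct
import Pool.Agent.Lib.MP_985a2b_al.UEss
import Pool.Agent.Lib.MP_985a2b_al.Pick

/-!
# From almost fixed points in all spaces to fixed points

PROOF. Suppose that `X` has no fixed point. Let `S` be enumerated as a `Finset` (`hS.toFinset`); if
`S` is empty then `G` is trivial and any point is fixed. `f x = max_{s ∈ S} dist x (s • x)`
(`Finset.sup'`, continuous), `f x > 0` for all `x` (if `f x = 0` then `x` is fixed by `S`, hence by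
the stabilizer `⊇ closure S = ⊤`: `MulAction.stabilizer`, `Subgroup.closure_le`). For every `n : ℕ`
`exists_pick` gives `u n` with: `dist (u n) y ≤ n * f (u n) → f (u n) ≤ 2 * f y`. Let
`l n = f (u n) > 0`, `F = Filter.hyperfilter ℕ` (`Filter.hyperfilter_le_atTop` or
`Nat.hyperfilter_le_atTop`). `exists_ulim` gives `Y`, `cls`. `hG`: for all `a : G` there is `C` with
`dist (u n) (a • u n) ≤ C * l n` for all `n`: the set of these `a` contains `S` (`C = 1`) and is
closed under products and inverses (`Subgroup.closure_induction`, sums of constants).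
`IsULim.action`, `IsULim.complete`, `IsULim.cn`, `IsULim.ess`: `Y` is a complete CN space with
`Ess Y d` and an isometric action of `G`; it is nonempty (`cls u`). By `hAE` (for `ε = 1/4`) there is
`y ∈ Y` with `dist y (s • y) ≤ 1/4` for all `s ∈ S`. Let `y = cls c`, `dist (c n) (u n) ≤ C * l n`.
For all `n ≥ C`: `dist (u n) (c n) ≤ n * f (u n)`, so `f (c n) ≥ l n / 2`, i.e. there is `s ∈ S` with
`dist (c n) (s • c n) ≥ l n / 2`. As `S` is finite, one `s` works for `F`-many `n`
(`Ultrafilter.eventually_exists_mem_iff`/`Ultrafilter.finite_biUnion_mem_iff`, or argue directly: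
for every `s ∈ S`, `dist (c n) (s • c n)/l n → dist y (s • y) ≤ 1/4`, so for `F`-almost all `n` it is
`< 1/2`; the finite intersection over `s ∈ S` and `{n ≥ C}` is nonempty: contradiction).
-/

namespace MP985a

universe u v

open Filter Topology in
theorem fix_of_AE {G : Type v} [Group G] (S : Set G) (hS : S.Finite)
    (hgen : Subgroup.closure S = ⊤) (d : ℕ)
    (hAE : ∀ (Y : Type u) [MetricSpace Y] [CompleteSpace Y] [Nonempty Y] [MulAction G Y]
      [IsIsometricSMul G Y], CN Y → Ess Y d → AE Y S)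
    (X : Type u) [MetricSpace X] [CompleteSpace X] [Nonempty X] [MulAction G X]
    [IsIsometricSMul G X] (hX : CN X) (hE : Ess X d) : ∃ x : X, ∀ a : G, a • x = x := by
  by_contra hno
  push Not at hno
  obtain ⟨f, hf⟩ : ∃ f : X → ℝ, ∀ x, f x = ∑ s ∈ hS.toFinset, dist x (s • x) := ⟨_, fun _ => rfl⟩
  have hfc : Continuous f := by
    rw [show f = fun x => ∑ s ∈ hS.toFinset, dist x (s • x) from funext hf]
    refine continuous_finset_sum _ fun s _ => ?_
    exact continuous_id.dist (continuous_const_smul s)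
  have hsf : ∀ s ∈ S, ∀ x, dist x (s • x) ≤ f x := by
    intro s hs x
    rw [hf]
    exact Finset.single_le_sum (f := fun s : G => dist x (s • x)) (fun _ _ => dist_nonneg)
      (hS.mem_toFinset.2 hs)
  have hpos : ∀ x, 0 < f x := by
    intro x
    have h0 : 0 ≤ f x := by
      rw [hf]
      exact Finset.sum_nonneg fun _ _ => dist_nonneg
    refine lt_of_le_of_ne h0 fun h1 => ?_
    have h2 : S ⊆ MulAction.stabilizer G x := by
      intro s hs
      have h3 := hsf s hs x
      rw [← h1] at h3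
      have h4 : dist x (s • x) = 0 := le_antisymm h3 dist_nonneg
      exact (dist_eq_zero.1 h4).symm
    have h3 := (Subgroup.closure_le _).2 h2
    rw [hgen] at h3
    obtain ⟨a, ha⟩ := hno x
    exact ha (h3 (Subgroup.mem_top a))
  choose u hu using fun n : ℕ => exists_pick f hfc hpos n (Nat.cast_nonneg n)
  obtain ⟨Y, instY, cls, hY⟩ := exists_ulim (hyperfilter ℕ) Nat.hyperfilter_le_atTop u
    (fun n => f (u n)) (fun n => hpos _)
  have hG : ∀ a : G, ∃ C, ∀ n, dist (u n) (a • u n) ≤ C * f (u n) := by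
    intro a
    have ha : a ∈ Subgroup.closure S := by rw [hgen]; exact Subgroup.mem_top a
    induction ha using Subgroup.closure_induction with
    | mem s hs => exact ⟨1, fun n => by rw [one_mul]; exact hsf s hs _⟩
    | one => exact ⟨0, fun n => by rw [one_smul, dist_self, zero_mul]⟩
    | mul a b _ _ iha ihb =>
      obtain ⟨C, hC⟩ := iha
      obtain ⟨C', hC'⟩ := ihb
      refine ⟨C + C', fun n => ?_⟩
      have h1 := dist_triangle (u n) (a • u n) (a • b • u n)
      rw [dist_smul] at h1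
      rw [mul_smul, add_mul]
      exact h1.trans (add_le_add (hC n) (hC' n))
    | inv a _ iha =>
      obtain ⟨C, hC⟩ := iha
      refine ⟨C, fun n => ?_⟩
      have h1 : dist (a • u n) (a • a⁻¹ • u n) = dist (u n) (a⁻¹ • u n) := dist_smul _ _ _
      rw [smul_inv_smul, dist_comm] at h1
      rw [← h1]
      exact hC n
  obtain ⟨act, hiso, hact⟩ := hY.action hG
  have hYc : CompleteSpace Y := hY.complete
  have hYn : Nonempty Y := ⟨cls ⟨u, 0, fun n => by rw [dist_self, zero_mul]⟩⟩
  obtain ⟨N, hN⟩ : ∃ N : ℝ, N = (hS.toFinset.card : ℝ) := ⟨_, rfl⟩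
  have hN0 : 0 ≤ N := hN ▸ Nat.cast_nonneg _
  obtain ⟨y, hy⟩ := hAE Y (hY.cn hX) (hY.ess hX hE) (1 / (4 * (N + 1))) (by positivity)
  obtain ⟨c, rfl⟩ := hY.surj y
  obtain ⟨C, hC⟩ := c.2
  have hlim : Tendsto (fun n => ∑ s ∈ hS.toFinset, dist (c.1 n) (s • c.1 n) / f (u n))
      (hyperfilter ℕ) (𝓝 (∑ s ∈ hS.toFinset, dist (cls c) (s • cls c))) := by
    refine tendsto_finset_sum _ fun s _ => ?_
    obtain ⟨C', hC'⟩ := hG s
    have hb : ∃ C, ∀ n, dist (s • c.1 n) (u n) ≤ C * f (u n) := by
      refine ⟨C + C', fun n => ?_⟩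
      have h1 := dist_triangle (s • c.1 n) (s • u n) (u n)
      rw [dist_smul, dist_comm (s • u n)] at h1
      rw [add_mul]
      exact h1.trans (add_le_add (hC n) (hC' n))
    have h2 := hact s c ⟨fun n => s • c.1 n, hb⟩ (fun n => rfl)
    rw [h2]
    exact hY.lim c ⟨fun n => s • c.1 n, hb⟩
  have hlt : ∑ s ∈ hS.toFinset, dist (cls c) (s • cls c) < 1 / 2 := by
    have h1 : ∑ s ∈ hS.toFinset, dist (cls c) (s • cls c) ≤
        ∑ _s ∈ hS.toFinset, 1 / (4 * (N + 1)) :=
      Finset.sum_le_sum fun s hs => hy s (hS.mem_toFinset.1 hs)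
    rw [Finset.sum_const, nsmul_eq_mul, ← hN] at h1
    have h2 : N * (1 / (4 * (N + 1))) < 1 / 2 := by
      rw [mul_one_div, div_lt_div_iff₀ (by positivity) (by norm_num)]
      linarith
    exact h1.trans_lt h2
  have hev1 := hlim.eventually_lt_const hlt
  have hev2 : ∀ᶠ n in (hyperfilter ℕ : Filter ℕ), ⌈C⌉₊ ≤ n :=
    Nat.hyperfilter_le_atTop (eventually_ge_atTop _)
  obtain ⟨n, hn1, hn2⟩ := (hev1.and hev2).exists
  have h1 : dist (u n) (c.1 n) ≤ n * f (u n) := by
    rw [dist_comm]
    refine (hC n).trans (mul_le_mul_of_nonneg_right ?_ (hpos _).le)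
    exact (Nat.le_ceil C).trans (Nat.cast_le.2 hn2)
  have h2 := hu n (c.1 n) h1
  rw [← Finset.sum_div, ← hf, div_lt_iff₀ (hpos _)] at hn1
  linarith

end MP985a
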