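import Pool.Agent.Lib.MP_985a2b_al.Bary
import Pool.Agent.Lib.MP_985a2b_al.Disp

/-!
# Adding a finite group

PROOF. Let `ε > 0`, `C = Disp X S ε`, `x ∈ C`. For `a ∈ H`: `a • x ∈ C` (`Disp_smul_mem` for `a`,
with `hH` applied to `a⁻¹ ∈ H`). Let `k = Nat.card H > 0`, `e : Fin k ≃ H`, `p j = e j • x`,
`w j = 1/k` (in the simplex), `b` the barycenter (`bary_exists`). `b ∈ C` by `bary_mem`
(`disp_closed`, `disp_midConv`). For `a ∈ H` the point `a • b` is a barycenter of the same points:
`∑ j, w j * dist (a • b) (p j)^2 = ∑ j, w j * dist b (a⁻¹ • p j)^2` and `j ↦ a⁻¹ * e j` is a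
permutation (`Equiv.sum_comp`), so the sum is the same as for `b`; hence `IsBary p w (a • b)` and
`a • b = b` by `bary_unique`. So `b` works: it is moved `≤ ε` by `S` and is fixed by `H`.
-/

namespace MP985a

variable {X : Type*} [MetricSpace X] {G : Type*} [Group G] [MulAction G X] [IsIsometricSMul G X]

theorem AE.union_finite [CompleteSpace X] (h : CN X) {S : Set G} (hS : AE X S) (H : Subgroup G)
    [Finite H] (hH : ∀ a ∈ H, ∀ s ∈ S, a * s * a⁻¹ ∈ S ∨ (a * s * a⁻¹)⁻¹ ∈ S) :
    AE X (S ∪ (H : Set G)) := by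
  intro ε hε
  obtain ⟨x, hx⟩ := hS ε hε
  have hxC : x ∈ Disp X S ε := hx
  have hmem : ∀ a ∈ H, a • x ∈ Disp X S ε := by
    intro a ha
    refine Disp_smul_mem (fun s hs => ?_) hxC
    have h1 := hH a⁻¹ (H.inv_mem ha) s hs
    rwa [inv_inv] at h1
  set k := Nat.card H with hk
  have hk0 : 0 < k := Nat.card_pos
  let e : Fin k ≃ H := (Finite.equivFin H).symm
  let p : Fin k → X := fun j => (e j : G) • x
  let w : Fin k → ℝ := fun _ => (k : ℝ)⁻¹
  have hw : w ∈ stdSimplex ℝ (Fin k) := by
    constructor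
    · intro j
      exact inv_nonneg.2 (Nat.cast_nonneg k)
    · rw [Finset.sum_const, Finset.card_univ, Fintype.card_fin, nsmul_eq_mul]
      exact mul_inv_cancel₀ (Nat.cast_ne_zero.2 hk0.ne')
  obtain ⟨b, hb⟩ := bary_exists h p hw
  have hbC : b ∈ Disp X S ε := bary_mem h hw hb (disp_closed S ε) (disp_midConv h S ε)
    fun j _ => hmem _ (e j).2
  have hfix : ∀ a ∈ H, a • b = b := by
    intro a ha
    have hperm : ∀ y : X, ∑ j, w j * dist (a • y) (p j) ^ 2 = ∑ j, w j * dist y (p j) ^ 2 := by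
      intro y
      let f : Fin k ≃ Fin k := (e.trans (Equiv.mulLeft (⟨a, ha⟩ : H)⁻¹)).trans e.symm
      have hf : ∀ j, dist (a • y) (p j) = dist y (p (f j)) := by
        intro j
        have h1 : p (f j) = a⁻¹ • p j := by
          change ((e (f j) : H) : G) • x = a⁻¹ • ((e j : G) • x)
          have h2 : e (f j) = (⟨a, ha⟩ : H)⁻¹ * e j := by
            change e (e.symm _) = _
            rw [Equiv.apply_symm_apply]
            rfl
          rw [h2, smul_smul]
          rfl
        rw [h1, ← dist_smul a y (a⁻¹ • p j), smul_inv_smul]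
      have h3 : ∀ j, w j * dist (a • y) (p j) ^ 2 = w (f j) * dist y (p (f j)) ^ 2 := by
        intro j
        rw [hf j]
      rw [Finset.sum_congr rfl fun j _ => h3 j]
      exact Equiv.sum_comp f fun j => w j * dist y (p j) ^ 2
    have hb' : IsBary p w (a • b) := by
      intro y
      rw [hperm b]
      exact hb y
    exact bary_unique h hw hb' hb
  refine ⟨b, ?_⟩
  intro s hs
  rcases hs with hs | hs
  · exact hbC s hs
  · rw [hfix s hs, dist_self]
    exact hε.le

end MP985a
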