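import Pool.Agent.Lib.MP_985a2b_al.Total
import Pool.Agent.Lib.MP_985a2b_al.Dihedral
import Pool.Agent.Lib.MP_985a2b_al.FixPt
import Pool.Agent.Lib.MP_985a2b_al.RFin
import Pool.Agent.Lib.MP_985a2b_al.Cat
import Pool.Agent.Lib.MP_985a2b_al.DimEss

/-!
# The fixed point theorem for groups with twist relations
-/

namespace MP985a

open Set

universe u v

namespace TwistData

variable {g : ℕ} {G : Type v} [Group G] (T : TwistData g G)

theorem conj_mem (a : G) (ha : a ∈ Subgroup.closure ({T.r, T.s} : Set G)) :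
    ∀ s ∈ range T.M ∪ range T.L ∪ range T.Z,
      a * s * a⁻¹ ∈ range T.M ∪ range T.L ∪ range T.Z ∨
        (a * s * a⁻¹)⁻¹ ∈ range T.M ∪ range T.L ∪ range T.Z := by
  -- the set of `x` such that `x` or `x⁻¹` is in the union is invariant
  have key : ∀ a ∈ Subgroup.closure ({T.r, T.s} : Set G), ∀ x : G,
      (x ∈ range T.M ∪ range T.L ∪ range T.Z ∨ x⁻¹ ∈ range T.M ∪ range T.L ∪ range T.Z) →
      (a * x * a⁻¹ ∈ range T.M ∪ range T.L ∪ range T.Z ∨
        (a * x * a⁻¹)⁻¹ ∈ range T.M ∪ range T.L ∪ range T.Z) := by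
    have e1 : ∀ a x : G, (a * x * a⁻¹)⁻¹ = a * x⁻¹ * a⁻¹ := by intro a x; group
    -- generators
    have hr : ∀ x ∈ range T.M ∪ range T.L ∪ range T.Z,
        T.r * x * T.r⁻¹ ∈ range T.M ∪ range T.L ∪ range T.Z := by
      rintro x ((⟨i, rfl⟩ | ⟨i, rfl⟩) | ⟨i, rfl⟩)
      · rw [T.rM]; exact Or.inl (Or.inl ⟨_, rfl⟩)
      · rw [T.rL]; exact Or.inl (Or.inr ⟨_, rfl⟩)
      · rw [T.rZ]; exact Or.inr ⟨_, rfl⟩
    have hr' : ∀ x ∈ range T.M ∪ range T.L ∪ range T.Z,
        T.r⁻¹ * x * T.r⁻¹⁻¹ ∈ range T.M ∪ range T.L ∪ range T.Z := by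
      rintro x ((⟨i, rfl⟩ | ⟨i, rfl⟩) | ⟨i, rfl⟩)
      · have := T.rM (i - 1)
        rw [sub_add_cancel] at this
        rw [← this]
        refine Or.inl (Or.inl ⟨i - 1, ?_⟩); group
      · have := T.rL (i - 1)
        rw [sub_add_cancel] at this
        rw [← this]
        refine Or.inl (Or.inr ⟨i - 1, ?_⟩); group
      · have := T.rZ (i - 1)
        rw [sub_add_cancel] at this
        rw [← this]
        refine Or.inr ⟨i - 1, ?_⟩; group
    have hs : ∀ x ∈ range T.M ∪ range T.L ∪ range T.Z,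
        (T.s * x * T.s⁻¹)⁻¹ ∈ range T.M ∪ range T.L ∪ range T.Z := by
      rintro x ((⟨i, rfl⟩ | ⟨i, rfl⟩) | ⟨i, rfl⟩)
      · rw [T.sM, inv_inv]; exact Or.inl (Or.inl ⟨_, rfl⟩)
      · rw [T.sL, inv_inv]; exact Or.inl (Or.inr ⟨_, rfl⟩)
      · rw [T.sZ, inv_inv]; exact Or.inr ⟨_, rfl⟩
    have hsi : T.s⁻¹ = T.s := inv_eq_of_mul_eq_one_right T.ss
    intro a ha
    induction ha using Subgroup.closure_induction'' with
    | mem a h =>
      intro x hx
      rcases h with h | h
      · subst h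
        rcases hx with hx | hx
        · exact Or.inl (hr x hx)
        · right; rw [e1]; exact hr _ hx
      · rw [mem_singleton_iff] at h
        subst h
        rcases hx with hx | hx
        · exact Or.inr (hs x hx)
        · left
          have := hs _ hx
          rwa [← e1, inv_inv] at this
    | inv_mem a h =>
      intro x hx
      rcases h with h | h
      · subst h
        rcases hx with hx | hx
        · exact Or.inl (hr' x hx)
        · right; rw [e1]; exact hr' _ hx
      · rw [mem_singleton_iff] at h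
        subst h
        rw [hsi]
        rw [hsi] at hs
        rcases hx with hx | hx
        · rw [hsi]; exact Or.inr (hs x hx)
        · left
          rw [hsi]
          have := hs _ hx
          have e2 : (T.s * x⁻¹ * T.s)⁻¹ = T.s⁻¹ * x * T.s⁻¹ := by group
          rw [e2, hsi] at this
          exact this
    | one => intro x hx; simpa using hx
    | mul a b _ _ iha ihb =>
      intro x hx
      have := iha _ (ihb x hx)
      have e3 : a * (b * x * b⁻¹) * a⁻¹ = a * b * x * (a * b)⁻¹ := by group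
      rwa [e3] at this
  intro s hs
  exact key a ha s (Or.inl hs)

theorem AE_gens {X : Type*} [MetricSpace X] [CompleteSpace X] [Nonempty X] [MulAction G X]
    [IsIsometricSMul G X] (h : CN X) {d : ℕ} (hE : Ess X d) (hd : d < g) (hg : 3 ≤ g) :
    AE X T.gens := by
  haveI : Finite (Subgroup.closure ({T.r, T.s} : Set G)) :=
    finite_dihedral (by omega : 0 < g) T.rg T.ss T.srs
  have h1 := T.AE_total h hE hd hg
  have h2 := AE.union_finite h h1 (Subgroup.closure ({T.r, T.s} : Set G)) T.conj_mem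
  refine h2.mono ?_
  exact union_subset_union_right _ Subgroup.subset_closure

theorem gens_finite (hg : 3 ≤ g) : T.gens.Finite := by
  haveI : NeZero g := ⟨by omega⟩
  exact (((finite_range T.M).union (finite_range T.L)).union (finite_range T.Z)).union
    (toFinite _)

/-- Restriction to a subgroup containing the generators. -/
noncomputable def restrict (H : Subgroup G) (hH : T.gens ⊆ (H : Set G)) : TwistData g H where
  M i := ⟨T.M i, hH (Or.inl (Or.inl (Or.inl ⟨i, rfl⟩)))⟩
  L i := ⟨T.L i, hH (Or.inl (Or.inl (Or.inr ⟨i, rfl⟩)))⟩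
  Z i := ⟨T.Z i, hH (Or.inl (Or.inr ⟨i, rfl⟩))⟩
  r := ⟨T.r, hH (Or.inr (Or.inl rfl))⟩
  s := ⟨T.s, hH (Or.inr (Or.inr rfl))⟩
  comMM i j := Subtype.ext (T.comMM i j)
  comLL i j := Subtype.ext (T.comLL i j)
  comZZ i j := Subtype.ext (T.comZZ i j)
  comMZ i j := Subtype.ext (T.comMZ i j)
  comML i j h := Subtype.ext (T.comML i j h)
  comLZ i j h h' := Subtype.ext (T.comLZ i j h h')
  brML i := Subtype.ext (T.brML i)
  brLZ i := Subtype.ext (T.brLZ i)
  brLZ' i := Subtype.ext (T.brLZ' i)
  rM i := Subtype.ext (T.rM i)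
  rL i := Subtype.ext (T.rL i)
  rZ i := Subtype.ext (T.rZ i)
  sM i := Subtype.ext (T.sM i)
  sL i := Subtype.ext (T.sL i)
  sZ i := Subtype.ext (T.sZ i)
  ss := Subtype.ext T.ss
  srs := Subtype.ext T.srs
  rg := Subtype.ext (by simpa using T.rg)
  lantern := Subtype.ext T.lantern

theorem restrict_closure (H : Subgroup G) (hH : Subgroup.closure T.gens = H)
    (hH' : T.gens ⊆ (H : Set G)) : Subgroup.closure (T.restrict H hH').gens = ⊤ := by
  have h1 : (T.restrict H hH').gens = ((↑) : H → G) ⁻¹' T.gens := by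
    ext ⟨x, hx⟩
    simp only [gens, restrict, mem_union, mem_range, mem_insert_iff, mem_singleton_iff,
      mem_preimage, Subtype.mk.injEq]
  rw [h1]
  subst hH
  exact Subgroup.closure_closure_coe_preimage

end TwistData

theorem main_abs {g : ℕ} (hg : 3 ≤ g) {G : Type v} [Group G] (T : TwistData g G) (H : Subgroup G)
    (hH : Subgroup.closure T.gens = H) {d : ℕ} (hd : d < g) (X : Type u) [MetricSpace X]
    [CompleteSpace X] [Nonempty X] (hX : IsCAT0 X) (hdim : CovDimLE X d) [MulAction H X]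
    [IsIsometricSMul H X] : ∃ x : X, ∀ γ : H, γ • x = x := by
  have hH' : T.gens ⊆ (H : Set G) := by rw [← hH]; exact Subgroup.subset_closure
  have hcn := hX.cn
  refine fix_of_AE (T.restrict H hH').gens ((T.restrict H hH').gens_finite hg)
    (T.restrict_closure H hH hH') d ?_ X hcn (CovDimLE.ess hcn hdim)
  intro Y _ _ _ _ _ hY hEY
  exact (T.restrict H hH').AE_gens hY hEY hd hg

end MP985a
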