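import Pool.Agent.Lib.MP_985a2b_al.Surf
import Pool.Agent.Lib.MP_985a2b_al.Lan
import Pool.Agent.Lib.MP_985a2b_al.Main

/-!
# The mapping class group
-/

namespace MP985a

open Set

universe u v

/-- The twist data in `MulAut (Fg g)`. -/
noncomputable def autData {g : ℕ} (hg : 3 ≤ g) : TwistData g (MulAut (Fg g)) where
  M := MA
  L := LA
  Z := ZA hg
  r := rA
  s := sA
  comMM := MA_comm
  comLL := LA_comm
  comZZ := ZA_comm hg
  comMZ := MA_ZA_comm hg
  comML i j h := MA_LA_comm h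
  comLZ i j h h' := LA_ZA_comm hg h h'
  brML := MA_LA_braid
  brLZ := LA_ZA_braid hg
  brLZ' := LA_ZA_braid' hg
  rM := rA_MA
  rL := rA_LA
  rZ := rA_ZA hg
  sM := sA_MA
  sL := sA_LA
  sZ := sA_ZA hg
  ss := sA_sq
  srs := sA_rA_sA
  rg := rA_pow_self
  lantern := lantern_aut hg

/-- The image under a homomorphism. -/
noncomputable def TwistData.map {g : ℕ} {G : Type u} {G' : Type v} [Group G] [Group G']
    (T : TwistData g G) (φ : G →* G') : TwistData g G' where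
  M i := φ (T.M i)
  L i := φ (T.L i)
  Z i := φ (T.Z i)
  r := φ T.r
  s := φ T.s
  comMM i j := (T.comMM i j).map φ
  comLL i j := (T.comLL i j).map φ
  comZZ i j := (T.comZZ i j).map φ
  comMZ i j := (T.comMZ i j).map φ
  comML i j h := (T.comML i j h).map φ
  comLZ i j h h' := (T.comLZ i j h h').map φ
  brML i := by rw [← map_mul, ← map_mul, T.brML, map_mul, map_mul]
  brLZ i := by rw [← map_mul, ← map_mul, T.brLZ, map_mul, map_mul]
  brLZ' i := by rw [← map_mul, ← map_mul, T.brLZ', map_mul, map_mul]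
  rM i := by rw [← map_inv, ← map_mul, ← map_mul, T.rM]
  rL i := by rw [← map_inv, ← map_mul, ← map_mul, T.rL]
  rZ i := by rw [← map_inv, ← map_mul, ← map_mul, T.rZ]
  sM i := by rw [← map_inv, ← map_mul, ← map_mul, T.sM, map_inv]
  sL i := by rw [← map_inv, ← map_mul, ← map_mul, T.sL, map_inv]
  sZ i := by rw [← map_inv, ← map_mul, ← map_mul, T.sZ, map_inv]
  ss := by rw [← map_mul, T.ss, map_one]
  srs := by rw [← map_mul, ← map_mul, T.srs, map_inv]
  rg := by rw [← map_pow, T.rg, map_one]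
  lantern := by simpa only [map_mul, map_inv] using congrArg φ T.lantern

/-- The twist data in the stabilizer of the normal closure of the relator. -/
theorem gens_stab {g : ℕ} (hg : 3 ≤ g) : (autData hg).gens ⊆ (Stab g : Set (MulAut (Fg g))) := by
  rintro x (((⟨i, rfl⟩ | ⟨i, rfl⟩) | ⟨i, rfl⟩) | (rfl | rfl))
  · exact MA_stab i
  · exact LA_stab i
  · exact ZA_stab hg i
  · exact rA_stab hg
  · exact sA_stab

/-- The twist data in the outer automorphism group of the surface group. -/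
noncomputable def outData {g : ℕ} (hg : 3 ≤ g) : TwistData g (OutGroup (SurfaceGroup g)) :=
  (((autData hg).restrict (Stab g) (gens_stab hg)).map (pm g)).map
    (QuotientGroup.mk' (MulAut.conj (G := SurfaceGroup g)).range)

theorem mk_fa {g : ℕ} (i : ZMod g) : (QuotientGroup.mk (fa i) : SurfaceGroup g) = sa i := rfl

theorem mk_fb {g : ℕ} (i : ZMod g) : (QuotientGroup.mk (fb i) : SurfaceGroup g) = sb i := rfl

theorem mk_dl {g : ℕ} (i : ZMod g) : (QuotientGroup.mk (dl i) : SurfaceGroup g) = sdl i := rfl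

section generators

variable {g : ℕ}

theorem isTwM_pm (i : ZMod g) : IsTwM i (pm g ⟨MA i, MA_stab i⟩) := by
  refine ⟨?_, fun j hj => ?_, fun j => ?_⟩
  · rw [pm_sa]; show (QuotientGroup.mk (MA i (fa i)) : SurfaceGroup g) = _
    rw [MA_fa_self]; rfl
  · rw [pm_sa]; show (QuotientGroup.mk (MA i (fa j)) : SurfaceGroup g) = _
    rw [MA_fa_ne hj]; rfl
  · rw [pm_sb]; show (QuotientGroup.mk (MA i (fb j)) : SurfaceGroup g) = _
    rw [MA_fb]; rfl

theorem isTwL_pm (i : ZMod g) : IsTwL i (pm g ⟨LA i, LA_stab i⟩) := by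
  refine ⟨?_, fun j hj => ?_, fun j => ?_⟩
  · rw [pm_sb]; show (QuotientGroup.mk (LA i (fb i)) : SurfaceGroup g) = _
    rw [LA_fb_self]; rfl
  · rw [pm_sb]; show (QuotientGroup.mk (LA i (fb j)) : SurfaceGroup g) = _
    rw [LA_fb_ne hj]; rfl
  · rw [pm_sa]; show (QuotientGroup.mk (LA i (fa j)) : SurfaceGroup g) = _
    rw [LA_fa]; rfl

theorem isTwZ_pm (hg : 3 ≤ g) (i : ZMod g) : IsTwZ i (pm g ⟨ZA hg i, ZA_stab hg i⟩) := by
  refine ⟨?_, ?_, ?_, fun j hj hj' => ?_, fun j hj => ?_⟩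
  · rw [pm_sa]; show (QuotientGroup.mk (ZA hg i (fa i)) : SurfaceGroup g) = _
    rw [ZA_fa_self]; rfl
  · rw [pm_sb]; show (QuotientGroup.mk (ZA hg i (fb i)) : SurfaceGroup g) = _
    rw [ZA_fb_self]; rfl
  · rw [pm_sa]; show (QuotientGroup.mk (ZA hg i (fa (i + 1))) : SurfaceGroup g) = _
    rw [ZA_fa_succ]; rfl
  · rw [pm_sa]; show (QuotientGroup.mk (ZA hg i (fa j)) : SurfaceGroup g) = _
    rw [ZA_fa_ne hg hj hj']; rfl
  · rw [pm_sb]; show (QuotientGroup.mk (ZA hg i (fb j)) : SurfaceGroup g) = _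
    rw [ZA_fb_ne hg hj]; rfl

theorem isRot_pm (hg : 3 ≤ g) : IsRot (pm g ⟨rA, rA_stab hg⟩) := by
  refine ⟨fun j => ?_, fun j => ?_⟩
  · rw [pm_sa]; show (QuotientGroup.mk (rA (fa j)) : SurfaceGroup g) = _
    rw [rA_fa]; rfl
  · rw [pm_sb]; show (QuotientGroup.mk (rA (fb j)) : SurfaceGroup g) = _
    rw [rA_fb]; rfl

theorem isRef_pm : IsRef (pm g ⟨sA, sA_stab⟩) := by
  refine ⟨fun j => ?_, fun j => ?_⟩
  · rw [pm_sa]; show (QuotientGroup.mk (sA (fa j)) : SurfaceGroup g) = _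
    rw [sA_fa]; rfl
  · rw [pm_sb]; show (QuotientGroup.mk (sA (fb j)) : SurfaceGroup g) = _
    rw [sA_fb]; rfl

theorem IsTwM.unique {i : ZMod g} {α β : MulAut (SurfaceGroup g)} (h : IsTwM i α)
    (h' : IsTwM i β) : α = β := by
  refine surf_ext (fun j => ?_) (fun j => ?_)
  · by_cases hj : j = i
    · subst hj; rw [h.1, h'.1]
    · rw [h.2.1 j hj, h'.2.1 j hj]
  · rw [h.2.2, h'.2.2]

theorem IsTwL.unique {i : ZMod g} {α β : MulAut (SurfaceGroup g)} (h : IsTwL i α)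
    (h' : IsTwL i β) : α = β := by
  refine surf_ext (fun j => ?_) (fun j => ?_)
  · rw [h.2.2, h'.2.2]
  · by_cases hj : j = i
    · subst hj; rw [h.1, h'.1]
    · rw [h.2.1 j hj, h'.2.1 j hj]

theorem IsTwZ.unique {i : ZMod g} {α β : MulAut (SurfaceGroup g)} (h : IsTwZ i α)
    (h' : IsTwZ i β) : α = β := by
  refine surf_ext (fun j => ?_) (fun j => ?_)
  · by_cases hj : j = i
    · subst hj; rw [h.1, h'.1]
    · by_cases hj' : j = i + 1
      · subst hj'; rw [h.2.2.1, h'.2.2.1]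
      · rw [h.2.2.2.1 j hj hj', h'.2.2.2.1 j hj hj']
  · by_cases hj : j = i
    · subst hj; rw [h.2.1, h'.2.1]
    · rw [h.2.2.2.2 j hj, h'.2.2.2.2 j hj]

theorem IsRot.unique {α β : MulAut (SurfaceGroup g)} (h : IsRot α) (h' : IsRot β) : α = β :=
  surf_ext (fun j => by rw [h.1, h'.1]) (fun j => by rw [h.2, h'.2])

theorem IsRef.unique {α β : MulAut (SurfaceGroup g)} (h : IsRef α) (h' : IsRef β) : α = β :=
  surf_ext (fun j => by rw [h.1, h'.1]) (fun j => by rw [h.2, h'.2])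

theorem outData_closure (hg : 3 ≤ g) : Subgroup.closure (outData hg).gens = ModPM g := by
  rw [ModPM]
  congr 1
  apply Subset.antisymm
  · rintro x (((⟨i, rfl⟩ | ⟨i, rfl⟩) | ⟨i, rfl⟩) | (rfl | rfl))
    · exact ⟨_, Or.inl ⟨i, isTwM_pm i⟩, rfl⟩
    · exact ⟨_, Or.inr (Or.inl ⟨i, isTwL_pm i⟩), rfl⟩
    · exact ⟨_, Or.inr (Or.inr (Or.inl ⟨i, isTwZ_pm hg i⟩)), rfl⟩
    · exact ⟨_, Or.inr (Or.inr (Or.inr (Or.inl (isRot_pm hg)))), rfl⟩
    · exact ⟨_, Or.inr (Or.inr (Or.inr (Or.inr isRef_pm))), rfl⟩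
  · rintro _ ⟨α, (⟨i, h⟩ | ⟨i, h⟩ | ⟨i, h⟩ | h | h), rfl⟩
    · rw [h.unique (isTwM_pm i)]
      exact Or.inl (Or.inl (Or.inl ⟨i, rfl⟩))
    · rw [h.unique (isTwL_pm i)]
      exact Or.inl (Or.inl (Or.inr ⟨i, rfl⟩))
    · rw [h.unique (isTwZ_pm hg i)]
      exact Or.inl (Or.inr ⟨i, rfl⟩)
    · rw [h.unique (isRot_pm hg)]
      exact Or.inr (Or.inl rfl)
    · rw [h.unique isRef_pm]
      exact Or.inr (Or.inr rfl)

end generators

/-- Every isometric action of the extended mapping class group of a closed surface of genus `g ≥ 3`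
on a complete CAT(0) space of covering dimension less than `g` has a fixed point. -/
theorem modPM_fixed {g : ℕ} (hg : 3 ≤ g) {d : ℕ} (hd : d < g) (X : Type u) [MetricSpace X]
    [CompleteSpace X] [Nonempty X] (hX : IsCAT0 X) (hdim : CovDimLE X d)
    [MulAction (ModPM g) X] [IsIsometricSMul (ModPM g) X] :
    ∃ x : X, ∀ γ : ModPM g, γ • x = x :=
  main_abs hg (outData hg) (ModPM g) (outData_closure hg) hd X hX hdim

end MP985a
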