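import Pool.Agent.Lib.MP_985a2b_al.Defs
import Pool.Agent.Lib.Brouwer.Main

/-!
# Face preserving maps of products of simplices hit every interior point

PROOF. Suppose `g t ≠ c` for all `t ∈ P := PS N n`. For `u ∈ P` put
`φ u = sup_{i,m} (u i m - c i m) / c i m` (finite supremum over `Fin N × Fin (n+1)`; if `N = 0` the
type `Fin N → _` has one element, so `g t = c` for `t = c`, contradiction: assume `N ≥ 1`; use
`Finset.sup'` over `univ`, it is continuous: `Continuous.finset_sup'_apply` or
`ContinuousOn.finset_sup'`). If `u ∈ P`, `u ≠ c` then `φ u > 0`: there is `i` with `u i ≠ c i`,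
`∑ m, (u i m - c i m) = 0` and not all terms vanish, so some term is positive
(`Finset.exists_pos_of_sum_zero_of_exists_nonzero`). Define
`r u = c - (φ u)⁻¹ • (u - c)`, i.e. `r u i m = c i m - (u i m - c i m) / φ u`. Then for `u ∈ P`,
`u ≠ c`: `r u i m ≥ 0` because `u i m - c i m ≤ φ u * c i m`, and `∑ m, r u i m = 1`, so
`r u ∈ P`; and if `(i, m)` attains the supremum then `r u i m = 0` and
`u i m = c i m * (1 + φ u) > 0`. The map `H t = r (g t)` is continuous on `P` (`φ (g t) > 0`), maps
`P` to `P`; `P` is convex, compact, nonempty (`c ∈ P`; it is `Set.pi univ` of standard simplices: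
`isCompact_univ_pi`, `convex_pi`, `isCompact_stdSimplex`, `convex_stdSimplex`). By the fixed point
theorem of Brouwer (`Pool.Agent.Lib.Brouwer.Main`, `exists_fixed`) there is `t ∈ P` with
`r (g t) = t`. Let `(i, m)` attain the supremum for `u = g t`: `t i m = r u i m = 0`, so by `hface`
`g t i m = 0`, but `u i m > 0`. Contradiction.
-/

namespace MP985a

open Set

theorem kkm {N n : ℕ} (g : (Fin N → Fin (n + 1) → ℝ) → (Fin N → Fin (n + 1) → ℝ))
    (hg : ContinuousOn g (PS N n)) (hmap : MapsTo g (PS N n) (PS N n))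
    (hface : ∀ t ∈ PS N n, ∀ i m, t i m = 0 → g t i m = 0)
    {c : Fin N → Fin (n + 1) → ℝ} (hc : c ∈ PS N n) (hpos : ∀ i m, 0 < c i m) :
    ∃ t ∈ PS N n, g t = c := by
  classical
  by_contra hcon
  have hne : ∀ t ∈ PS N n, g t ≠ c := fun t ht h => hcon ⟨t, ht, h⟩
  rcases Nat.eq_zero_or_pos N with hN | hN
  · subst hN
    exact hne c hc (Subsingleton.elim _ _)
  have hnonempty : Nonempty (Fin N × Fin (n + 1)) := ⟨(⟨0, hN⟩, 0)⟩
  let ψ : Fin N × Fin (n + 1) → (Fin N → Fin (n + 1) → ℝ) → ℝ :=
    fun p u => (u p.1 p.2 - c p.1 p.2) / c p.1 p.2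
  have hψ : ∀ p, Continuous (ψ p) := fun p => by
    change Continuous fun u : Fin N → Fin (n + 1) → ℝ => (u p.1 p.2 - c p.1 p.2) / c p.1 p.2
    fun_prop
  let φ : (Fin N → Fin (n + 1) → ℝ) → ℝ := fun u =>
    (Finset.univ : Finset (Fin N × Fin (n + 1))).sup' Finset.univ_nonempty fun p => ψ p u
  have hφc : Continuous φ := Continuous.finset_sup'_apply _ fun p _ => hψ p
  have hφle : ∀ u i m, (u i m - c i m) / c i m ≤ φ u := fun u i m =>
    Finset.le_sup' (fun p => ψ p u) (Finset.mem_univ (i, m))
  have hφatt : ∀ u, ∃ i m, φ u = (u i m - c i m) / c i m := by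
    intro u
    obtain ⟨p, _, hp⟩ := Finset.exists_mem_eq_sup' (Finset.univ_nonempty
      (α := Fin N × Fin (n + 1))) fun p => ψ p u
    exact ⟨p.1, p.2, hp⟩
  have hφpos : ∀ u ∈ PS N n, u ≠ c → 0 < φ u := by
    intro u hu huc
    by_contra hle
    rw [not_lt] at hle
    apply huc
    funext i
    have h1 : ∀ m ∈ (Finset.univ : Finset (Fin (n + 1))), u i m ≤ c i m := by
      intro m _
      have h2 := (hφle u i m).trans hle
      rw [div_le_iff₀ (hpos i m), zero_mul] at h2
      linarith
    have h3 : ∑ m, u i m = ∑ m, c i m := by rw [(hu i).2, (hc i).2]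
    have h4 := (Finset.sum_eq_sum_iff_of_le h1).1 h3
    funext m
    exact h4 m (Finset.mem_univ m)
  let r : (Fin N → Fin (n + 1) → ℝ) → (Fin N → Fin (n + 1) → ℝ) :=
    fun u i m => c i m - (u i m - c i m) / φ u
  have hrmem : ∀ u ∈ PS N n, u ≠ c → r u ∈ PS N n := by
    intro u hu huc i
    have hp := hφpos u hu huc
    constructor
    · intro m
      change 0 ≤ c i m - (u i m - c i m) / φ u
      have h1 := hφle u i m
      rw [div_le_iff₀ (hpos i m)] at h1
      have h2 : (u i m - c i m) / φ u ≤ c i m := by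
        rw [div_le_iff₀ hp]
        linarith
      linarith
    · change ∑ m, (c i m - (u i m - c i m) / φ u) = 1
      rw [Finset.sum_sub_distrib, ← Finset.sum_div, Finset.sum_sub_distrib, (hu i).2, (hc i).2]
      simp
  have hH : ContinuousOn (fun t => r (g t)) (PS N n) := by
    have h1 : ContinuousOn (fun t => φ (g t)) (PS N n) := hφc.comp_continuousOn hg
    refine continuousOn_pi.2 fun i => continuousOn_pi.2 fun m => ?_
    have h2 : ContinuousOn (fun t => g t i m) (PS N n) :=
      (continuous_apply_apply i m).comp_continuousOn hg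
    change ContinuousOn (fun t => c i m - (g t i m - c i m) / φ (g t)) (PS N n)
    refine continuousOn_const.sub ((h2.sub continuousOn_const).div h1 ?_)
    intro t ht
    exact (hφpos _ (hmap ht) (hne t ht)).ne'
  have hPS : PS N n = Set.pi univ fun _ : Fin N => stdSimplex ℝ (Fin (n + 1)) := by
    ext t
    simp [PS]
  have hcomp : IsCompact (PS N n) := by
    rw [hPS]
    exact isCompact_univ_pi fun _ => isCompact_stdSimplex ℝ (Fin (n + 1))
  have hconv : Convex ℝ (PS N n) := by
    rw [hPS]
    exact convex_pi fun _ _ => convex_stdSimplex ℝ (Fin (n + 1))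
  obtain ⟨t, ht, hfix⟩ := Brouwer.exists_fixed hcomp hconv ⟨c, hc⟩ hH
    fun t ht => hrmem _ (hmap ht) (hne t ht)
  obtain ⟨i, m, him⟩ := hφatt (g t)
  have hp := hφpos _ (hmap ht) (hne t ht)
  have hcp := hpos i m
  have h1 : t i m = c i m - (g t i m - c i m) / φ (g t) := by
    conv_lhs => rw [← hfix]
  have h2 : g t i m - c i m = φ (g t) * c i m := by
    rw [him, div_mul_cancel₀ _ hcp.ne']
  have h3 : t i m = 0 := by
    rw [h1, h2, mul_div_cancel_left₀ _ hp.ne', sub_self]
  have h4 := hface t ht i m h3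
  rw [h4] at h2
  have h5 : 0 < φ (g t) * c i m := mul_pos hp hcp
  linarith

end MP985a
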