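import Pool.Agent.Lib.MP_985a2b_al.Aut

/-!
# The lantern relation, words

The lantern relation is checked on words in six letters
`0 = a 0, 1 = b 0, 2 = a 1, 3 = b 1, 4 = a 2, 5 = b 2`.
-/

namespace MP985a

/-- Words in six letters and their inverses (`true`: the letter, `false`: its inverse). -/
abbrev W6 : Type := List (Fin 6 × Bool)

/-- Apply a substitution and reduce. -/
def app (A : Fin 6 → W6) (w : W6) : W6 :=
  FreeGroup.reduce (w.flatMap (fun x => if x.2 then A x.1 else FreeGroup.invRev (A x.1)))

theorem mk_app (A : Fin 6 → W6) (w : W6) :
    FreeGroup.mk (app A w) = FreeGroup.lift (fun i => FreeGroup.mk (A i)) (FreeGroup.mk w) := by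
  rw [app, FreeGroup.reduce.self]
  induction w with
  | nil => simp [FreeGroup.one_eq_mk]
  | cons x w ih =>
    rw [List.flatMap_cons, ← FreeGroup.mul_mk, ih]
    have h : (x :: w) = [x] ++ w := rfl
    rw [h, ← FreeGroup.mul_mk, map_mul]
    congr 1
    obtain ⟨i, b⟩ := x
    cases b
    · simp [FreeGroup.lift_mk, FreeGroup.inv_mk]
    · simp [FreeGroup.lift_mk]

/-- The codes of the automorphisms: `M 0, M 1, M 2, L 1, L 2, Z 0, Z 1` and their inverses. -/
def tab (c : Fin 7 × Bool) (k : Fin 6) : W6 :=
  match c.1.val, c.2, k.val with
  | 0, true, 0 => [(0, true), (1, true)]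
  | 0, false, 0 => [(0, true), (1, false)]
  | 1, true, 2 => [(2, true), (3, true)]
  | 1, false, 2 => [(2, true), (3, false)]
  | 2, true, 4 => [(4, true), (5, true)]
  | 2, false, 4 => [(4, true), (5, false)]
  | 3, true, 3 => [(3, true), (2, false)]
  | 3, false, 3 => [(3, true), (2, true)]
  | 4, true, 5 => [(5, true), (4, false)]
  | 4, false, 5 => [(5, true), (4, true)]
  | 5, true, 0 => [(0, true), (2, true), (3, false), (2, false), (1, true)]
  | 5, true, 1 => [(1, false), (2, true), (3, true), (2, false), (1, true), (2, true), (3, false),
      (2, false), (1, true)]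
  | 5, true, 2 => [(1, false), (2, true), (3, true), (2, false), (2, true)]
  | 5, false, 0 => [(0, true), (1, false), (2, true), (3, true), (2, false)]
  | 5, false, 1 => [(2, true), (3, false), (2, false), (1, true), (1, true), (1, false), (2, true),
      (3, true), (2, false)]
  | 5, false, 2 => [(2, true), (3, false), (2, false), (1, true), (2, true)]
  | 6, true, 2 => [(2, true), (4, true), (5, false), (4, false), (3, true)]
  | 6, true, 3 => [(3, false), (4, true), (5, true), (4, false), (3, true), (4, true), (5, false),
      (4, false), (3, true)]
  | 6, true, 4 => [(3, false), (4, true), (5, true), (4, false), (4, true)]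
  | 6, false, 2 => [(2, true), (3, false), (4, true), (5, true), (4, false)]
  | 6, false, 3 => [(4, true), (5, false), (4, false), (3, true), (3, true), (3, false), (4, true),
      (5, true), (4, false)]
  | 6, false, 4 => [(4, true), (5, false), (4, false), (3, true), (4, true)]
  | _, _, _ => [(k, true)]

/-- Apply a list of automorphisms (the first one is applied last). -/
def apps (l : List (Fin 7 × Bool)) (w : W6) : W6 := l.foldr (fun c w => app (tab c) w) w

/-- The left side of the lantern relation. -/
def lanL : List (Fin 7 × Bool) :=
  [(0, true), (1, true), (2, true), (3, false), (1, false), (5, false), (3, false), (6, true),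
    (3, true), (5, true), (1, true), (3, true)]

/-- The right side of the lantern relation. -/
def lanR : List (Fin 7 × Bool) :=
  [(5, true),
    (4, false), (2, false), (6, true), (3, true), (1, true), (4, true), (5, false), (3, false),
    (6, true),
    (3, true), (5, true), (4, false), (1, false), (3, false), (6, false), (2, true), (4, true),
    (3, false), (1, false), (1, false), (3, false), (6, true), (3, true), (1, true), (1, true),
    (3, true)]

set_option maxRecDepth 100000 in
theorem lan_words : ∀ k : Fin 6, apps lanL [(k, true)] = apps lanR [(k, true)] := by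
  decide +kernel

end MP985a
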