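import Pool.Agent.Lib.MP_985a2b_al.Stmt
import Pool.Agent.Lib.MP_985a2b_al.Final

/-!
# The theorem with the definitions of `Stmt`
-/

namespace MP985a

open Set

universe u

theorem plDist_eq (p q : EuclideanSpace ℝ (Fin 2)) :
    plDist (p 0, p 1) (q 0, q 1) = dist p q := by
  rw [EuclideanSpace.dist_eq, plDist]
  simp [Fin.sum_univ_two, Real.dist_eq, sq_abs]

theorem plPt_eq (p q : EuclideanSpace ℝ (Fin 2)) (s : ℝ) :
    plPt (p 0, p 1) (q 0, q 1) s =
      ((AffineMap.lineMap p q s : EuclideanSpace ℝ (Fin 2)) 0,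
        (AffineMap.lineMap p q s : EuclideanSpace ℝ (Fin 2)) 1) := by
  rw [AffineMap.lineMap_apply_module]
  simp [plPt]

theorem CAT0.isCAT0 {X : Type*} [MetricSpace X] (h : CAT0 X) : IsCAT0 X where
  geod := h.geod
  thin := by
    intro x y z γ η hγ hη x' y' z' h1 h2 h3 s hs t ht
    have := h.thin x y z γ η hγ hη (x' 0, x' 1) (y' 0, y' 1) (z' 0, z' 1)
      (by rw [plDist_eq, h1]) (by rw [plDist_eq, h2]) (by rw [plDist_eq, h3]) s hs t ht
    rwa [plPt_eq, plPt_eq, plDist_eq] at this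

/-- The twist data in `OutG (SG g)`. -/
noncomputable def outG {g : ℕ} (hg : 3 ≤ g) : TwistData g (OutG (SG g)) :=
  (outData hg : TwistData g (OutGroup (SurfaceGroup g)))

theorem outG_closure {g : ℕ} (hg : 3 ≤ g) : Subgroup.closure (outG hg).gens = ModSub g := by
  have h := outData_closure hg
  have e : ModSub g = (ModPM g : Subgroup (OutGroup (SurfaceGroup g))) := by
    unfold ModSub ModPM
    congr 1
  rw [e, ← h]
  rfl

theorem mcg_fixed {g : ℕ} (hg : 3 ≤ g) (X : Type u) [MetricSpace X]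
    [CompleteSpace X] [Nonempty X] (hX : CAT0 X) {d : ℕ} (hd : d < g) (hdim : CovDimLE X d)
    [hA : MulAction (MCG g) X] [hI : IsIsometricSMul (MCG g) X] :
    ∃ x : X, ∀ γ : MCG g, γ • x = x := by
  exact @main_abs.{u, 0} g hg (OutG (SG g)) _ (outG hg) (ModSub g) (outG_closure hg) d hd X _ _ _
    hX.isCAT0 hdim hA hI

end MP985a
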