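import Pool.Agent.Lib.MP_985a2b_al.Quad

/-!
# Minimizers of uniformly convex functions on complete CN spaces

`min_var`: if `b ∈ C` minimizes `f` on the midpoint convex set `C` then
`f b + dist b y ^2 ≤ f y` for all `y ∈ C`. PROOF. By induction on `n`:
`(1 - 1/2^n) * dist b y ^2 ≤ f y - f b` for all `y ∈ C`. `n = 0`: minimality. Step: let `m` be the
midpoint of `b` and `y` (`exists_mid`), `m ∈ C`, `dist b m = dist b y / 2`. Then
`f m - f b ≤ (f y - f b)/2 - dist b y ^2/4` and `f m - f b ≥ (1 - 1/2^n) dist b y ^2/4`, so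
`f y - f b ≥ dist b y ^2 /2 + (1 - 1/2^n) dist b y ^2/2 = (1 - 1/2^(n+1)) dist b y ^2`. Let
`n → ∞` (`ge_of_tendsto'`).

`exists_min`: let `I` be the infimum of `f` on `C` (`f ≥ 0`). Choose `y n ∈ C` with
`f (y n) < I + 1/(n+1)`. For `n, k` with midpoint `m ∈ C` of `y n, y k`: `I ≤ f m ≤
f (y n)/2 + f (y k)/2 - dist (y n) (y k)^2/4`, so `dist (y n) (y k) ^2 ≤ 2/(n+1) + 2/(k+1)`. Hence
`y` is a Cauchy sequence (e.g. `cauchySeq_of_le_tendsto_0` with the bound `√(4/(N+1))` for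
`n, k ≥ N`); its limit `b` lies in `C` (closed) and `f b = I` by continuity. Use `min_var`.
-/

namespace MP985a

variable {X : Type*} [MetricSpace X]

private theorem min_step (h : CN X) {C : Set X} (hm : MidConv C) {f : X → ℝ}
    (hconv : ∀ x y m, IsMid x y m → f m ≤ f x / 2 + f y / 2 - dist x y ^ 2 / 4)
    {b : X} (hb : b ∈ C) (hmin : ∀ y ∈ C, f b ≤ f y) (n : ℕ) :
    ∀ y ∈ C, (1 - (1 / 2 : ℝ) ^ n) * dist b y ^ 2 ≤ f y - f b := by
  induction n with
  | zero =>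
    intro y hy
    have := hmin y hy
    simp only [pow_zero, sub_self, zero_mul]
    linarith
  | succ n ih =>
    intro y hy
    obtain ⟨m, hmid⟩ := exists_mid h b y
    have h1 := ih m (hm b hb y hy m hmid)
    have h2 := hconv b y m hmid
    rw [hmid.1] at h1
    rw [pow_succ]
    nlinarith

theorem min_var (h : CN X) {C : Set X} (hm : MidConv C) {f : X → ℝ}
    (hconv : ∀ x y m, IsMid x y m → f m ≤ f x / 2 + f y / 2 - dist x y ^ 2 / 4)
    {b : X} (hb : b ∈ C) (hmin : ∀ y ∈ C, f b ≤ f y) {y : X} (hy : y ∈ C) :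
    f b + dist b y ^ 2 ≤ f y := by
  have h1 : Filter.Tendsto (fun n : ℕ => (1 - (1 / 2 : ℝ) ^ n) * dist b y ^ 2) Filter.atTop
      (nhds ((1 - 0) * dist b y ^ 2)) :=
    (tendsto_const_nhds.sub
      (tendsto_pow_atTop_nhds_zero_of_lt_one (by norm_num) (by norm_num))).mul_const _
  have h2 := le_of_tendsto' h1 fun n => min_step h hm hconv hb hmin n y hy
  linarith

theorem exists_min [CompleteSpace X] (h : CN X) {C : Set X} (hC : IsClosed C) (hm : MidConv C)
    (hne : C.Nonempty) (f : X → ℝ) (hf : Continuous f) (h0 : ∀ x, 0 ≤ f x)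
    (hconv : ∀ x y m, IsMid x y m → f m ≤ f x / 2 + f y / 2 - dist x y ^ 2 / 4) :
    ∃ b ∈ C, ∀ y ∈ C, f b + dist b y ^ 2 ≤ f y := by
  have hbdd : BddBelow (f '' C) := ⟨0, by rintro _ ⟨x, _, rfl⟩; exact h0 x⟩
  have hne' : (f '' C).Nonempty := hne.image f
  have hI : ∀ y ∈ C, sInf (f '' C) ≤ f y := fun y hy => csInf_le hbdd ⟨y, hy, rfl⟩
  have h1 : ∀ n : ℕ, ∃ y ∈ C, f y < sInf (f '' C) + 1 / ((n : ℝ) + 1) := by
    intro n
    have hpos : (0 : ℝ) < 1 / ((n : ℝ) + 1) := by positivity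
    obtain ⟨_, ⟨y, hy, rfl⟩, hlt⟩ := exists_lt_of_csInf_lt hne' (lt_add_of_pos_right
      (sInf (f '' C)) hpos)
    exact ⟨y, hy, hlt⟩
  choose y hyC hy using h1
  have hd : ∀ n k, dist (y n) (y k) ^ 2 ≤ 2 / ((n : ℝ) + 1) + 2 / ((k : ℝ) + 1) := by
    intro n k
    obtain ⟨m, hmid⟩ := exists_mid h (y n) (y k)
    have h2 := hI m (hm _ (hyC n) _ (hyC k) m hmid)
    have h3 := hconv _ _ m hmid
    have h4 := hy n
    have h5 := hy k
    have e1 : 2 / ((n : ℝ) + 1) = 2 * (1 / ((n : ℝ) + 1)) := by ring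
    have e2 : 2 / ((k : ℝ) + 1) = 2 * (1 / ((k : ℝ) + 1)) := by ring
    rw [e1, e2]
    linarith
  have hcau : CauchySeq y := by
    refine cauchySeq_of_le_tendsto_0 (fun N : ℕ => Real.sqrt (4 / ((N : ℝ) + 1))) ?_ ?_
    · intro n k N hn hk
      rw [← Real.sqrt_sq (dist_nonneg (x := y n) (y := y k))]
      refine Real.sqrt_le_sqrt ((hd n k).trans ?_)
      have hn' : (N : ℝ) + 1 ≤ (n : ℝ) + 1 := by
        have : (N : ℝ) ≤ (n : ℝ) := by exact_mod_cast hn
        linarith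
      have hk' : (N : ℝ) + 1 ≤ (k : ℝ) + 1 := by
        have : (N : ℝ) ≤ (k : ℝ) := by exact_mod_cast hk
        linarith
      have hN : (0 : ℝ) < (N : ℝ) + 1 := by positivity
      have g1 : 2 / ((n : ℝ) + 1) ≤ 2 / ((N : ℝ) + 1) :=
        div_le_div_of_nonneg_left (by norm_num) hN hn'
      have g2 : 2 / ((k : ℝ) + 1) ≤ 2 / ((N : ℝ) + 1) :=
        div_le_div_of_nonneg_left (by norm_num) hN hk'
      have g3 : 4 / ((N : ℝ) + 1) = 2 / ((N : ℝ) + 1) + 2 / ((N : ℝ) + 1) := by ring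
      rw [g3]
      exact add_le_add g1 g2
    · have t1 : Filter.Tendsto (fun N : ℕ => 4 * (1 / ((N : ℝ) + 1))) Filter.atTop
          (nhds (4 * 0)) := tendsto_one_div_add_atTop_nhds_zero_nat.const_mul 4
      have t2 := (Real.continuous_sqrt.tendsto _).comp t1
      rw [mul_zero, Real.sqrt_zero] at t2
      refine t2.congr fun N => ?_
      rw [Function.comp_apply]
      congr 1
      ring
  obtain ⟨b, hb⟩ := cauchySeq_tendsto_of_complete hcau
  have hbC : b ∈ C := hC.mem_of_tendsto hb (Filter.Eventually.of_forall hyC)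
  have hfb : f b ≤ sInf (f '' C) := by
    have t1 : Filter.Tendsto (fun n => f (y n)) Filter.atTop (nhds (f b)) :=
      (hf.tendsto b).comp hb
    have t2 : Filter.Tendsto (fun n : ℕ => sInf (f '' C) + 1 / ((n : ℝ) + 1)) Filter.atTop
        (nhds (sInf (f '' C) + 0)) :=
      tendsto_const_nhds.add tendsto_one_div_add_atTop_nhds_zero_nat
    have t3 := le_of_tendsto_of_tendsto' t1 t2 fun n => (hy n).le
    rwa [add_zero] at t3
  refine ⟨b, hbC, fun z hz => ?_⟩
  exact min_var h hm hconv hbC (fun w hw => hfb.trans (hI w hw)) hz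

end MP985a
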