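import Pool.Agent.Lib.MP_985a2b_al.Defs

/-!
# The relations in terms of positions

`v (2 i) = L i`, `v (2 i + 1) = Z i`, `m i = M i` (indices cast to `ZMod g`).
`v_even`, `v_odd`: unfold (`Int.mul_ediv_cancel_left`, `omega`).
`r_v`: conjugation by `r` shifts by two (`rL`, `rZ`; `x/2 + 1 = (x+2)/2`, casts).
`r_zpow_v`: for `a : ℤ`, `r^a * v x * (r^a)⁻¹ = v (x + 2 a)` (induction `Int.induction_on`).
`s_v`: `x = 2 i`: `s L i s⁻¹ = (L (-1 - i))⁻¹`, `-2 - 2 i = 2 (-1 - i)`; `x = 2 i + 1`: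
`s Z i s⁻¹ = (Z (-2 - i))⁻¹` and `-2 - (2 i + 1) = 2 (-2 - i) + 1`.
`v_comm`: for `2 ≤ y - x ≤ 2 g - 2`: both even (`comLL`), both odd (`comZZ`), `x = 2 i`,
`y = 2 j + 1`: `comLZ i j` needs `i ≠ j` and `i ≠ j + 1` in `ZMod g`: `j - i` is an integer with
`1/2 ≤ j - i`, i.e. `1 ≤ j - i ≤ g - 2` (from `2 ≤ 2 (j - i) + 1 ≤ 2 g - 2`), so neither `j - i` nor
`j + 1 - i` (between `2` and `g - 1`) is divisible by `g`
(`ZMod.intCast_eq_intCast_iff_dvd_sub`, `Int.le_of_dvd`); `x = 2 i + 1`, `y = 2 j`: `comLZ j i`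
needs `j ≠ i`, `j ≠ i + 1`: `2 ≤ 2 (j - i) - 1 ≤ 2 g - 2`, so `2 ≤ j - i ≤ g - 1` and
`1 ≤ j - i - 1 ≤ g - 2`.
`m_v_comm`: for `x` odd `comMZ`; for `x = 2 j`: `comML i j` with `i ≠ j` in `ZMod g` as
`0 < |2 j - 2 i| < 2 g`.
`cur_comm`: combine (for two `m`'s: `comMM`; for `m i` and `v x` with `2 ≤ |x - 2 i| ≤ 2 g - 2`:
`m_v_comm`).
`v_braid`: `x = 2 i`: `brLZ i`; `x = 2 i + 1`: `brLZ' i` (with the two sides exchanged), since
`v (2 i + 2) = L (i + 1)`. `m_v_braid`: `brML`.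
-/

namespace MP985a

private theorem cast_ne_of {g : ℕ} {i j : ℤ} (h1 : 1 ≤ j - i) (h2 : j - i ≤ g - 1) :
    (i : ZMod g) ≠ (j : ZMod g) := by
  intro h
  rw [ZMod.intCast_eq_intCast_iff_dvd_sub] at h
  have := Int.le_of_dvd (by omega) h
  omega

private theorem cast_ne_of' {g : ℕ} {i j : ℤ} (h1 : i ≠ j) (h2 : |i - j| < g) :
    (i : ZMod g) ≠ (j : ZMod g) := by
  rw [abs_lt] at h2
  rcases lt_or_gt_of_ne h1 with h | h
  · exact cast_ne_of (by omega) (by omega)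
  · exact (cast_ne_of (by omega) (by omega)).symm

namespace TwistData

variable {g : ℕ} {G : Type*} [Group G] (T : TwistData g G)

theorem v_even (i : ℤ) : T.v (2 * i) = T.L (i : ZMod g) := by
  unfold TwistData.v
  rw [if_pos (even_two_mul i), Int.mul_ediv_cancel_left i (by norm_num)]

theorem v_odd (i : ℤ) : T.v (2 * i + 1) = T.Z (i : ZMod g) := by
  unfold TwistData.v
  rw [if_neg (by simp), show (2 * i + 1) / 2 = i by omega]

theorem r_v (x : ℤ) : T.r * T.v x * T.r⁻¹ = T.v (x + 2) := by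
  rcases Int.even_or_odd' x with ⟨i, rfl | rfl⟩
  · rw [T.v_even, T.rL, show 2 * i + 2 = 2 * (i + 1) by ring, T.v_even]
    push_cast
    rfl
  · rw [T.v_odd, T.rZ, show 2 * i + 1 + 2 = 2 * (i + 1) + 1 by ring, T.v_odd]
    push_cast
    rfl

theorem r_m (i : ℤ) : T.r * T.m i * T.r⁻¹ = T.m (i + 1) := by
  unfold TwistData.m
  rw [T.rM]
  push_cast
  rfl

theorem r_zpow_v (a x : ℤ) : T.r ^ a * T.v x * (T.r ^ a)⁻¹ = T.v (x + 2 * a) := by
  induction a using Int.induction_on with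
  | zero => simp
  | succ n ih =>
    rw [show T.r ^ ((n : ℤ) + 1) = T.r * T.r ^ (n : ℤ) by rw [add_comm, zpow_one_add],
      show T.r * T.r ^ (n : ℤ) * T.v x * (T.r * T.r ^ (n : ℤ))⁻¹
        = T.r * (T.r ^ (n : ℤ) * T.v x * (T.r ^ (n : ℤ))⁻¹) * T.r⁻¹ by group, ih, T.r_v]
    congr 1
    ring
  | pred n ih =>
    have h := T.r_v (x + 2 * (-(n : ℤ) - 1))
    rw [show x + 2 * (-(n : ℤ) - 1) + 2 = x + 2 * -(n : ℤ) by ring, ← ih] at h
    have h2 : T.r * (T.r ^ (-(n : ℤ) - 1) * T.v x * (T.r ^ (-(n : ℤ) - 1))⁻¹) * T.r⁻¹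
        = T.r ^ (-(n : ℤ)) * T.v x * (T.r ^ (-(n : ℤ)))⁻¹ := by
      have : T.r ^ (-(n : ℤ)) = T.r * T.r ^ (-(n : ℤ) - 1) := by
        rw [← zpow_one_add]
        congr 1
        ring
      rw [this]
      group
    exact (mul_left_cancel (mul_right_cancel (h.trans h2.symm))).symm

theorem r_zpow_m (a i : ℤ) : T.r ^ a * T.m i * (T.r ^ a)⁻¹ = T.m (i + a) := by
  induction a using Int.induction_on with
  | zero => simp
  | succ n ih =>
    rw [show T.r ^ ((n : ℤ) + 1) = T.r * T.r ^ (n : ℤ) by rw [add_comm, zpow_one_add],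
      show T.r * T.r ^ (n : ℤ) * T.m i * (T.r * T.r ^ (n : ℤ))⁻¹
        = T.r * (T.r ^ (n : ℤ) * T.m i * (T.r ^ (n : ℤ))⁻¹) * T.r⁻¹ by group, ih, T.r_m]
    congr 1
    ring
  | pred n ih =>
    have h := T.r_m (i + (-(n : ℤ) - 1))
    rw [show i + (-(n : ℤ) - 1) + 1 = i + -(n : ℤ) by ring, ← ih] at h
    have h2 : T.r * (T.r ^ (-(n : ℤ) - 1) * T.m i * (T.r ^ (-(n : ℤ) - 1))⁻¹) * T.r⁻¹
        = T.r ^ (-(n : ℤ)) * T.m i * (T.r ^ (-(n : ℤ)))⁻¹ := by
      have : T.r ^ (-(n : ℤ)) = T.r * T.r ^ (-(n : ℤ) - 1) := by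
        rw [← zpow_one_add]
        congr 1
        ring
      rw [this]
      group
    exact (mul_left_cancel (mul_right_cancel (h.trans h2.symm))).symm

theorem s_v (x : ℤ) : T.s * T.v x * T.s⁻¹ = (T.v (-2 - x))⁻¹ := by
  rcases Int.even_or_odd' x with ⟨i, rfl | rfl⟩
  · rw [T.v_even, T.sL, show -2 - 2 * i = 2 * (-1 - i) by ring, T.v_even]
    push_cast
    rfl
  · rw [T.v_odd, T.sZ, show -2 - (2 * i + 1) = 2 * (-2 - i) + 1 by ring, T.v_odd]
    push_cast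
    rfl

theorem s_m (i : ℤ) : T.s * T.m i * T.s⁻¹ = (T.m (-1 - i))⁻¹ := by
  unfold TwistData.m
  rw [T.sM]
  push_cast
  rfl

theorem v_comm {x y : ℤ} (h1 : 2 ≤ y - x) (h2 : y - x ≤ 2 * g - 2) :
    Commute (T.v x) (T.v y) := by
  rcases Int.even_or_odd' x with ⟨i, rfl | rfl⟩ <;> rcases Int.even_or_odd' y with ⟨j, rfl | rfl⟩
  · rw [T.v_even, T.v_even]
    exact T.comLL _ _
  · rw [T.v_even, T.v_odd]
    refine T.comLZ _ _ (cast_ne_of (by omega) (by omega)) ?_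
    have := cast_ne_of (g := g) (i := i) (j := j + 1) (by omega) (by omega)
    push_cast at this
    exact this
  · rw [T.v_odd, T.v_even]
    refine (T.comLZ _ _ (cast_ne_of (by omega) (by omega)).symm ?_).symm
    have := cast_ne_of (g := g) (i := i + 1) (j := j) (by omega) (by omega)
    push_cast at this
    exact this.symm
  · rw [T.v_odd, T.v_odd]
    exact T.comZZ _ _

theorem m_comm (i j : ℤ) : Commute (T.m i) (T.m j) := T.comMM _ _

theorem m_v_comm {i x : ℤ} (h1 : x ≠ 2 * i) (h2 : |x - 2 * i| < 2 * g) :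
    Commute (T.m i) (T.v x) := by
  rcases Int.even_or_odd' x with ⟨j, rfl | rfl⟩
  · rw [T.v_even]
    refine T.comML _ _ (cast_ne_of' (by omega) ?_)
    rw [abs_lt] at h2 ⊢
    constructor <;> omega
  · rw [T.v_odd]
    exact T.comMZ _ _

theorem cur_comm {c c' : Bool × ℤ} (h1 : 2 ≤ pos c' - pos c) (h2 : pos c' - pos c ≤ 2 * g - 2) :
    Commute (T.cur c) (T.cur c') := by
  obtain ⟨b, x⟩ := c
  obtain ⟨b', x'⟩ := c'
  cases b <;> cases b'
  · simp only [pos, TwistData.cur, Bool.false_eq_true, if_false] at h1 h2 ⊢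
    exact T.v_comm h1 h2
  · simp only [pos, TwistData.cur, Bool.false_eq_true, if_false, if_true] at h1 h2 ⊢
    refine (T.m_v_comm (by omega) ?_).symm
    rw [abs_lt]
    constructor <;> omega
  · simp only [pos, TwistData.cur, Bool.false_eq_true, if_false, if_true] at h1 h2 ⊢
    refine T.m_v_comm (by omega) ?_
    rw [abs_lt]
    constructor <;> omega
  · simp only [pos, TwistData.cur, if_true] at h1 h2 ⊢
    exact T.m_comm _ _

theorem v_braid (x : ℤ) : T.v x * T.v (x + 1) * T.v x = T.v (x + 1) * T.v x * T.v (x + 1) := by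
  rcases Int.even_or_odd' x with ⟨i, rfl | rfl⟩
  · rw [T.v_even, T.v_odd]
    exact T.brLZ _
  · rw [show 2 * i + 1 + 1 = 2 * (i + 1) by ring, T.v_odd, T.v_even]
    have := T.brLZ' (i : ZMod g)
    push_cast
    exact this.symm

theorem m_v_braid (i : ℤ) :
    T.m i * T.v (2 * i) * T.m i = T.v (2 * i) * T.m i * T.v (2 * i) := by
  rw [T.v_even]
  exact T.brML _

end TwistData

end MP985a
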