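import Pool.Agent.Lib.MP_985a2b_al.Min

/-!
# Projection to closed midpoint convex sets

PROOF. For every `x` use `exists_min` with `f = fun y => dist x y ^ 2` (continuous, `≥ 0`, and
`hconv` is `mid_ineq h` at `z = x`): a point `π x ∈ C` with
`dist x (π x) ^2 + dist (π x) q ^2 ≤ dist x q ^2` for all `q ∈ C`. For `x ∈ C` take `q = x`:
`dist x (π x) = 0`. Nonexpansive: add the inequalities for `(x, q = π y)` and `(y, q = π x)`:
`dist x (π x)^2 + dist y (π y)^2 + 2 dist (π x) (π y)^2 ≤ dist x (π y)^2 + dist y (π x)^2`, and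
`quad h x y (π y) (π x)`: `dist x (π y)^2 + dist y (π x)^2 ≤ dist x (π x)^2 + dist y (π y)^2
+ 2 dist x y * dist (π y) (π x)`. So `dist (π x) (π y)^2 ≤ dist x y * dist (π x) (π y)`.
`proj_unique`: a point `p ∈ C` with `dist x p ≤ dist x q` for all `q ∈ C` is `π x`.
-/

namespace MP985a

variable {X : Type*} [MetricSpace X]

theorem exists_retract [CompleteSpace X] (h : CN X) {C : Set X} (hC : IsClosed C)
    (hm : MidConv C) (hne : C.Nonempty) :
    ∃ π : X → X, (∀ x, π x ∈ C) ∧ (∀ x ∈ C, π x = x) ∧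
      (∀ x y, dist (π x) (π y) ≤ dist x y) ∧
      (∀ x, ∀ q ∈ C, dist x (π x) ^ 2 + dist (π x) q ^ 2 ≤ dist x q ^ 2) := by
  have hex : ∀ x : X, ∃ b ∈ C, ∀ y ∈ C, dist x b ^ 2 + dist b y ^ 2 ≤ dist x y ^ 2 := fun x =>
    exists_min h hC hm hne (fun y => dist x y ^ 2) ((continuous_const.dist continuous_id).pow 2)
      (fun y => sq_nonneg _) (fun u v m huv => mid_ineq h huv x)
  choose π hπ1 hπ2 using hex
  refine ⟨π, hπ1, ?_, ?_, hπ2⟩
  · intro x hx
    have h1 := hπ2 x x hx
    rw [dist_self] at h1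
    have h2 : dist x (π x) ^ 2 ≤ 0 := by nlinarith [sq_nonneg (dist (π x) x)]
    have h3 : dist x (π x) = 0 := by
      have := sq_nonneg (dist x (π x))
      exact pow_eq_zero_iff (two_ne_zero) |>.1 (le_antisymm h2 this)
    exact (dist_eq_zero.1 h3).symm
  · intro x y
    have h1 := hπ2 x (π y) (hπ1 y)
    have h2 := hπ2 y (π x) (hπ1 x)
    have h3 := quad h x y (π y) (π x)
    rw [dist_comm (π y) (π x)] at h2 h3
    have h4 : dist (π x) (π y) ^ 2 ≤ dist x y * dist (π x) (π y) := by nlinarith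
    rcases (dist_nonneg (x := π x) (y := π y)).eq_or_lt with h0 | h0
    · rw [← h0]; exact dist_nonneg
    · have h5 : dist (π x) (π y) * dist (π x) (π y) ≤ dist x y * dist (π x) (π y) := by
        rw [← sq]; exact h4
      exact le_of_mul_le_mul_right h5 h0

end MP985a
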