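import Pool.Agent.Lib.MP_985a2b_al.Defs

/-!
# Midpoints and the quadrilateral inequality

`exists_mid`: `h x y (1/2)` gives `m` with the inequality; `z = x` gives `dist x m ^2 ≤
dist x y ^2 / 4` and `z = y` gives `dist y m ^2 ≤ dist x y ^2 / 4`, so both distances are
`≤ dist x y / 2` and by the triangle inequality they are equal to it.

`mid_ineq`: let `m0` be the midpoint of `exists_mid`. Its inequality at `z = m` gives
`dist m m0 ^2 ≤ (d/2)^2/2 + (d/2)^2/2 - d^2/4 = 0` with `d = dist x y`, so `m = m0`.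

`mid_dist_half`: common vertex `p`: `m` midpoint of `p x`, `m'` midpoint of `p x'`; then
`dist m m' ≤ dist x x' / 2`. PROOF. `mid_ineq` for `m'` at `z = m`:
`dist m m' ^2 ≤ dist m p ^2/2 + dist m x' ^2/2 - dist p x' ^2/4`; `mid_ineq` for `m` at `z = x'`:
`dist x' m ^2 ≤ dist x' p ^2/2 + dist x' x ^2/2 - dist p x ^2/4`; `dist p m = dist p x / 2`.
Altogether `dist m m' ^2 ≤ dist p x^2/8 + dist p x'^2/4 + dist x x'^2/4 - dist p x^2/8
- dist p x'^2/4 = dist x x' ^2 / 4`.

`mid_dist_le`: let `k` be a midpoint of `x` and `y'` (`exists_mid`). Then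
`dist m k ≤ dist y y' / 2` (common vertex `x`) and `dist k m' ≤ dist x x' / 2` (common vertex `y'`;
`IsMid` is symmetric: `IsMid x y m → IsMid y x m`). Triangle inequality.

`quad`: put `A = dist a b`, `B = dist c d`. If `A = 0` then `a = b` and both sides are equal up to
order; if `B = 0` then `c = d`, the same. Otherwise let `t = A / (A + B) ∈ (0,1)` and let `p` be
the point of `h a c t`: `dist z p^2 ≤ (1-t) dist z a^2 + t dist z c^2 - t(1-t) dist a c^2`.
`dist b d ≤ dist b p + dist p d` and `(u + w)^2 ≤ u^2/t + w^2/(1-t)`. Hence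
`dist b d^2 ≤ ((1-t)/t) dist a b^2 + dist b c^2 - (1-t) dist a c^2 + dist a d^2
 + (t/(1-t)) dist c d^2 - t dist a c^2`, and `(1-t)/t = B/A`, `t/(1-t) = A/B`, so
`dist b d^2 ≤ A B + A B + dist b c^2 + dist a d^2 - dist a c^2`.
-/

namespace MP985a

variable {X : Type*} [MetricSpace X]

theorem IsMid.symm {x y m : X} (h : IsMid x y m) : IsMid y x m := by
  refine ⟨?_, ?_⟩
  · rw [dist_comm y m, dist_comm y x]; exact h.2
  · rw [dist_comm m x, dist_comm y x]; exact h.1

theorem exists_mid (h : CN X) (x y : X) : ∃ m, IsMid x y m := by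
  obtain ⟨m, hm⟩ := h x y (1 / 2) ⟨by norm_num, by norm_num⟩
  have h1 := hm x
  have h2 := hm y
  rw [dist_self] at h1
  rw [dist_self, dist_comm y x] at h2
  have hd : 0 ≤ dist x y := dist_nonneg
  have h3 : dist x m ≤ dist x y / 2 := by
    have h4 : dist x m ^ 2 ≤ (dist x y / 2) ^ 2 := by nlinarith
    exact abs_le_of_sq_le_sq' h4 (by linarith) |>.2
  have h4 : dist y m ≤ dist x y / 2 := by
    have h5 : dist y m ^ 2 ≤ (dist x y / 2) ^ 2 := by nlinarith
    exact abs_le_of_sq_le_sq' h5 (by linarith) |>.2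
  have h5 := dist_triangle x m y
  rw [dist_comm y m] at h4
  exact ⟨m, by linarith, by linarith⟩

theorem mid_ineq (h : CN X) {x y m : X} (hm : IsMid x y m) (z : X) :
    dist z m ^ 2 ≤ dist z x ^ 2 / 2 + dist z y ^ 2 / 2 - dist x y ^ 2 / 4 := by
  obtain ⟨m0, hm0⟩ := h x y (1 / 2) ⟨by norm_num, by norm_num⟩
  have h1 := hm0 m
  have h2 : m = m0 := by
    rw [dist_comm m x, hm.1, hm.2] at h1
    have h3 : dist m m0 ^ 2 ≤ 0 := by nlinarith
    have h4 : dist m m0 = 0 := by
      have := sq_nonneg (dist m m0)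
      exact pow_eq_zero_iff (two_ne_zero) |>.1 (le_antisymm h3 this)
    exact dist_eq_zero.1 h4
  rw [h2]
  have h3 := hm0 z
  linarith

theorem mid_dist_half (h : CN X) {p x x' m m' : X} (hm : IsMid p x m) (hm' : IsMid p x' m') :
    dist m m' ≤ dist x x' / 2 := by
  have h1 := mid_ineq h hm' m
  have h2 := mid_ineq h hm x'
  have h3 : dist m p = dist p x / 2 := by rw [dist_comm]; exact hm.1
  rw [dist_comm x' m, dist_comm x' p, dist_comm x' x] at h2
  rw [h3] at h1
  have h4 : dist m m' ^ 2 ≤ (dist x x' / 2) ^ 2 := by nlinarith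
  have h5 : 0 ≤ dist x x' / 2 := by positivity
  exact abs_le_of_sq_le_sq' h4 h5 |>.2

theorem mid_dist_le (h : CN X) {x y x' y' m m' : X} (hm : IsMid x y m) (hm' : IsMid x' y' m') :
    dist m m' ≤ (dist x x' + dist y y') / 2 := by
  obtain ⟨k, hk⟩ := exists_mid h x y'
  have h1 := mid_dist_half h hm hk
  have h2 := mid_dist_half h hk.symm hm'.symm
  have h3 := dist_triangle m k m'
  linarith

theorem quad (h : CN X) (a b c d : X) :
    dist a c ^ 2 + dist b d ^ 2 ≤ dist a d ^ 2 + dist b c ^ 2 + 2 * dist a b * dist c d := by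
  rcases (dist_nonneg (x := a) (y := b)).eq_or_lt with h0 | hA
  · have h1 : a = b := dist_eq_zero.1 h0.symm
    subst h1
    rw [dist_self]
    linarith
  rcases (dist_nonneg (x := c) (y := d)).eq_or_lt with h0 | hB
  · have h1 : c = d := dist_eq_zero.1 h0.symm
    subst h1
    rw [dist_self]
    linarith
  obtain ⟨A, hAe⟩ : ∃ A, A = dist a b := ⟨_, rfl⟩
  obtain ⟨B, hBe⟩ : ∃ B, B = dist c d := ⟨_, rfl⟩
  rw [← hAe] at hA ⊢
  rw [← hBe] at hB ⊢
  have hAB : 0 < A + B := by linarith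
  have ht1 : 1 - A / (A + B) = B / (A + B) := by field_simp; ring
  obtain ⟨p, hp⟩ := h a c (A / (A + B)) ⟨by positivity, by rw [div_le_one hAB]; linarith⟩
  rw [ht1] at hp
  have h1 := hp b
  have h2 := hp d
  have h3 := dist_triangle b p d
  rw [dist_comm b a, ← hAe] at h1
  rw [dist_comm d a, dist_comm d c, ← hBe, dist_comm d p] at h2
  -- `(u + w)^2 ≤ u^2/t + w^2/(1-t)`
  have h4 : dist b d ^ 2 ≤ (A + B) / A * dist b p ^ 2 + (A + B) / B * dist p d ^ 2 := by
    have h5 : dist b d ^ 2 ≤ (dist b p + dist p d) ^ 2 :=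
      pow_le_pow_left₀ dist_nonneg h3 2
    refine h5.trans ?_
    have h6 : (A + B) / A * dist b p ^ 2 + (A + B) / B * dist p d ^ 2 -
        (dist b p + dist p d) ^ 2 = (B * dist b p - A * dist p d) ^ 2 / (A * B) := by
      field_simp
      ring
    have h7 : 0 ≤ (B * dist b p - A * dist p d) ^ 2 / (A * B) := by positivity
    linarith
  have h5 : (A + B) / A * dist b p ^ 2 ≤ (A + B) / A *
      (B / (A + B) * A ^ 2 + A / (A + B) * dist b c ^ 2 -
        A / (A + B) * (B / (A + B)) * dist a c ^ 2) :=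
    mul_le_mul_of_nonneg_left h1 (by positivity)
  have h6 : (A + B) / B * dist p d ^ 2 ≤ (A + B) / B *
      (B / (A + B) * dist a d ^ 2 + A / (A + B) * B ^ 2 -
        A / (A + B) * (B / (A + B)) * dist a c ^ 2) :=
    mul_le_mul_of_nonneg_left h2 (by positivity)
  have h7 : (A + B) / A * (B / (A + B) * A ^ 2 + A / (A + B) * dist b c ^ 2 -
        A / (A + B) * (B / (A + B)) * dist a c ^ 2) +
      (A + B) / B * (B / (A + B) * dist a d ^ 2 + A / (A + B) * B ^ 2 -
        A / (A + B) * (B / (A + B)) * dist a c ^ 2) =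
      2 * A * B + dist b c ^ 2 + dist a d ^ 2 - dist a c ^ 2 := by
    field_simp
    ring
  linarith

end MP985a
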