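import Pool.Agent.Lib.MP_985a2b_al.Aut

/-!
# Relations between the `M i` and `L i`

PROOF. `Commute` is an equation of automorphisms: `aut_ext`, `MulAut.mul_apply`, and compare the
values on every `fa k`, `fb k` (case distinctions `k = i`, `k = j`; `MA_fb`, `MA_fa_self`,
`MA_fa_ne`, `LA_fa`, `LA_fb_self`, `LA_fb_ne`, `map_mul`, `map_inv`; finish with `group`). For
`MA_comm`: on `fa k`, if `k = i = j` trivial, if `k = i ≠ j` both sides are `fa i * fb i`.
`MA_LA_braid`: on `fa i`: both sides send it to `fa i * fb i * (fa i)⁻¹`; on `fb i`: both sides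
give `fb i * (fa i)⁻¹ ...` (just compute); the other generators are fixed.
-/

namespace MP985a

variable {g : ℕ}

theorem MA_comm (i j : ZMod g) : Commute (MA i : MulAut (Fg g)) (MA j) := by
  by_cases hij : i = j
  · rw [hij]
  have hji : j ≠ i := fun e => hij e.symm
  refine aut_ext (fun k => ?_) (fun k => ?_)
  · by_cases hi : k = i
    · subst hi
      simp only [MulAut.mul_apply, MA_fa_ne hij, MA_fa_self, map_mul, MA_fb]
    · by_cases hj : k = j
      · subst hj
        simp only [MulAut.mul_apply, MA_fa_ne hji, MA_fa_self, map_mul, MA_fb]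
      · simp only [MulAut.mul_apply, MA_fa_ne hi, MA_fa_ne hj]
  · simp only [MulAut.mul_apply, MA_fb]

theorem LA_comm (i j : ZMod g) : Commute (LA i : MulAut (Fg g)) (LA j) := by
  by_cases hij : i = j
  · rw [hij]
  have hji : j ≠ i := fun e => hij e.symm
  refine aut_ext (fun k => ?_) (fun k => ?_)
  · simp only [MulAut.mul_apply, LA_fa]
  · by_cases hi : k = i
    · subst hi
      simp only [MulAut.mul_apply, LA_fb_ne hij, LA_fb_self, map_mul, map_inv, LA_fa]
    · by_cases hj : k = j
      · subst hj
        simp only [MulAut.mul_apply, LA_fb_ne hji, LA_fb_self, map_mul, map_inv, LA_fa]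
      · simp only [MulAut.mul_apply, LA_fb_ne hi, LA_fb_ne hj]

theorem MA_LA_comm {i j : ZMod g} (h : i ≠ j) : Commute (MA i : MulAut (Fg g)) (LA j) := by
  refine aut_ext (fun k => ?_) (fun k => ?_)
  · by_cases hi : k = i
    · subst hi
      simp only [MulAut.mul_apply, MA_fa_self, map_mul, LA_fa, LA_fb_ne h]
    · simp only [MulAut.mul_apply, MA_fa_ne hi, LA_fa]
  · by_cases hj : k = j
    · subst hj
      simp only [MulAut.mul_apply, MA_fb, LA_fb_self, map_mul, map_inv, MA_fa_ne h.symm]
    · simp only [MulAut.mul_apply, MA_fb, LA_fb_ne hj]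

theorem MA_LA_braid (i : ZMod g) :
    (MA i : MulAut (Fg g)) * LA i * MA i = LA i * MA i * LA i := by
  refine aut_ext (fun k => ?_) (fun k => ?_)
  · by_cases hi : k = i
    · subst hi
      simp only [MulAut.mul_apply, MA_fa_self, MA_fb, LA_fa, LA_fb_self, map_mul, map_inv]
      group
    · simp only [MulAut.mul_apply, MA_fa_ne hi, LA_fa]
  · by_cases hi : k = i
    · subst hi
      simp only [MulAut.mul_apply, MA_fa_self, MA_fb, LA_fa, LA_fb_self, map_mul, map_inv]
      group
    · simp only [MulAut.mul_apply, MA_fb, LA_fb_ne hi]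

end MP985a
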