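import Pool.Agent.Lib.MP_985a2b_al.Aut

/-!
# Relations between the `M i` and `Z i`

`MA_ZA_comm`: `MA i` fixes all `fb k`; it fixes `dl j`: `dl j = (fb j)⁻¹ * fa (j+1) * fb (j+1) *
(fa (j+1))⁻¹`, and `MA (j+1)` sends `fa (j+1) * fb (j+1) * (fa (j+1))⁻¹` to itself
(`fa * fb * fb * (fa * fb)⁻¹ = fa * fb * fa⁻¹`). Then compare values on all generators
(`aut_ext`; cases `k = j`, `k = j + 1`, `k = i`; `j + 1 ≠ j` by `succ_ne hg`).
`ZA_comm`: `ZA i` fixes `dl i`: `δ = dl i`, `δ * (fb i)⁻¹ * δ⁻¹ * δ * (fa (i+1) fb (i+1)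
(fa (i+1))⁻¹) * δ⁻¹ = δ`. `ZA i` and `ZA j` for `i ≠ j`: (a) `ZA i` maps `dl j` to `dl j` in all
cases: if `j ≠ i + 1`, `i ≠ j + 1`: the letters `fb j, fa (j+1), fb (j+1)` are fixed by `ZA i`
(`j ≠ i`, `j + 1 ≠ i`, `j + 1 ≠ i + 1`); if `j = i + 1`: `dl j = (fb (i+1))⁻¹ * fa (i+2) * ..` and
`fb (i+1)`, `fa (i+2)`, `fb (i+2)` are fixed by `ZA i` (`i + 2 ≠ i` because `g ≥ 3`); if `i = j + 1`:
`dl j = (fb j)⁻¹ * fa i * fb i * (fa i)⁻¹` and `ZA i` sends `fa i ↦ fa i * δ⁻¹`,
`fb i ↦ δ * fb i * δ⁻¹`, so `fa i * fb i * (fa i)⁻¹ ↦ fa i * fb i * (fa i)⁻¹`, and `fb j` is fixed.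
(b) Compare the values on `fa k`, `fb k`. Useful: prove a private lemma `ZA_dl : ZA hg i (dl j) = dl j`
for all `i j`, and `MA_dl : MA i (dl j) = dl j`. In `ZMod g` with `3 ≤ g`: `i + 1 ≠ i`,
`i + 1 + 1 ≠ i` (`(2 : ZMod g) ≠ 0`: `ZMod.natCast_self_eq_zero`/`(ZMod.natCast_eq_zero_iff 2 g)`).
-/

namespace MP985a

variable {g : ℕ}

theorem MA_dl (i j : ZMod g) : MA i (dl j) = dl j := by
  by_cases h : j + 1 = i
  · subst h
    simp only [dl, map_mul, map_inv, MA_fb, MA_fa_self]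
    group
  · simp only [dl, map_mul, map_inv, MA_fb, MA_fa_ne h]

theorem ZA_dl (hg : 3 ≤ g) (i j : ZMod g) : ZA hg i (dl j) = dl j := by
  by_cases h : j = i
  · subst h
    have e : ZA hg j (dl j) = ZA hg j ((fb j)⁻¹ * fa (j + 1) * fb (j + 1) * (fa (j + 1))⁻¹) := rfl
    rw [e]
    simp only [map_mul, map_inv, ZA_fb_self, ZA_fa_succ, ZA_fb_ne hg (succ_ne hg j)]
    have e2 : dl j = (fb j)⁻¹ * fa (j + 1) * fb (j + 1) * (fa (j + 1))⁻¹ := rfl
    rw [e2]
    group
  · by_cases h' : j + 1 = i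
    · subst h'
      have e : ZA hg (j + 1) (dl j) =
          ZA hg (j + 1) ((fb j)⁻¹ * fa (j + 1) * fb (j + 1) * (fa (j + 1))⁻¹) := rfl
      rw [e]
      simp only [map_mul, map_inv, ZA_fb_self, ZA_fa_self, ZA_fb_ne hg h]
      have e2 : dl j = (fb j)⁻¹ * fa (j + 1) * fb (j + 1) * (fa (j + 1))⁻¹ := rfl
      rw [e2]
      group
    · have h'' : j + 1 ≠ i + 1 := fun e => h (add_right_cancel e)
      simp only [dl, map_mul, map_inv, ZA_fb_ne hg h, ZA_fb_ne hg h', ZA_fa_ne hg h' h'']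

theorem MA_ZA_comm (hg : 3 ≤ g) (i j : ZMod g) : Commute (MA i) (ZA hg j) := by
  have key : MA i * ZA hg j = ZA hg j * MA i := by
    refine aut_ext (fun k => ?_) (fun k => ?_)
    · rw [MulAut.mul_apply, MulAut.mul_apply]
      by_cases h : k = j
      · subst h
        rw [ZA_fa_self, map_mul, map_inv, MA_dl]
        by_cases h2 : k = i
        · subst h2
          rw [MA_fa_self, map_mul, ZA_fa_self, ZA_fb_self]
          group
        · rw [MA_fa_ne h2, ZA_fa_self]
      · by_cases h' : k = j + 1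
        · subst h'
          rw [ZA_fa_succ, map_mul, MA_dl]
          by_cases h2 : j + 1 = i
          · subst h2
            rw [MA_fa_self, map_mul, ZA_fa_succ, ZA_fb_ne hg h]
            group
          · rw [MA_fa_ne h2, ZA_fa_succ]
        · rw [ZA_fa_ne hg h h']
          by_cases h2 : k = i
          · subst h2
            rw [MA_fa_self, map_mul, ZA_fa_ne hg h h', ZA_fb_ne hg h]
          · rw [MA_fa_ne h2, ZA_fa_ne hg h h']
    · rw [MulAut.mul_apply, MulAut.mul_apply, MA_fb]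
      by_cases h : k = j
      · subst h
        rw [ZA_fb_self, map_mul, map_mul, map_inv, MA_dl, MA_fb]
      · rw [ZA_fb_ne hg h, MA_fb]
  exact key

theorem ZA_comm (hg : 3 ≤ g) (i j : ZMod g) : Commute (ZA hg i) (ZA hg j) := by
  by_cases hij : i = j
  · subst hij
    exact Commute.refl _
  have key : ZA hg i * ZA hg j = ZA hg j * ZA hg i := by
    refine aut_ext (fun k => ?_) (fun k => ?_)
    · rw [MulAut.mul_apply, MulAut.mul_apply]
      by_cases h : k = j
      · subst h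
        rw [ZA_fa_self, map_mul, map_inv, ZA_dl]
        have h1 : k ≠ i := fun e => hij e.symm
        by_cases h2 : k = i + 1
        · subst h2
          rw [ZA_fa_succ, map_mul, ZA_dl, ZA_fa_self]
          group
        · rw [ZA_fa_ne hg h1 h2, ZA_fa_self]
      · by_cases h' : k = j + 1
        · subst h'
          rw [ZA_fa_succ, map_mul, ZA_dl]
          have h1 : j + 1 ≠ i + 1 := fun e => hij (add_right_cancel e).symm
          by_cases h2 : j + 1 = i
          · subst h2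
            rw [ZA_fa_self, map_mul, map_inv, ZA_dl, ZA_fa_succ]
            group
          · rw [ZA_fa_ne hg h2 h1, ZA_fa_succ]
        · rw [ZA_fa_ne hg h h']
          by_cases h2 : k = i
          · subst h2
            rw [ZA_fa_self, map_mul, map_inv, ZA_dl, ZA_fa_ne hg h h']
          · by_cases h3 : k = i + 1
            · subst h3
              rw [ZA_fa_succ, map_mul, ZA_dl, ZA_fa_ne hg h h']
            · rw [ZA_fa_ne hg h2 h3, ZA_fa_ne hg h h']
    · rw [MulAut.mul_apply, MulAut.mul_apply]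
      by_cases h : k = j
      · subst h
        have h1 : k ≠ i := fun e => hij e.symm
        rw [ZA_fb_self, map_mul, map_mul, map_inv, ZA_dl, ZA_fb_ne hg h1, ZA_fb_self]
      · rw [ZA_fb_ne hg h]
        by_cases h2 : k = i
        · subst h2
          rw [ZA_fb_self, map_mul, map_mul, map_inv, ZA_dl, ZA_fb_ne hg h]
        · rw [ZA_fb_ne hg h2, ZA_fb_ne hg h]
  exact key

end MP985a
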