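import Pool.Agent.Lib.MP_985a2b_al.Aut

/-!
# Relations between the `L i` and `Z j`

`LA_ZA_comm`: for `i ≠ j`, `i ≠ j + 1`: `LA i` changes only `fb i`, which does not occur in
`dl j, fa j, fb j, fa (j+1), fb (j+1)`, and `ZA j` fixes `fb i`, `fa i`. `aut_ext`, compare values.
`LA_ZA_braid`: only the letters with indices `i`, `i + 1` matter: with `a = fa i`, `b = fb i`,
`a' = fa (i+1)`, `b' = fb (i+1)`, `δ = b⁻¹ a' b' a'⁻¹`, compute both sides on `a, b, a', b'`
(`MulAut.mul_apply`, `map_mul`, `map_inv`, the value lemmas, `succ_ne hg i`) and finish with `group`;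
the other generators are fixed by both.
`LA_ZA_braid'`: the same with `LA (i+1)`, which changes `fb (i+1)` only.
(All relations were checked by computer for `g = 3, 4, 5`.)
-/

namespace MP985a

variable {g : ℕ}

theorem LA_ZA_comm (hg : 3 ≤ g) {i j : ZMod g} (h : i ≠ j) (h' : i ≠ j + 1) :
    Commute (LA i) (ZA hg j) := by
  have h1 : j ≠ i := h.symm
  have h2 : j + 1 ≠ i := h'.symm
  refine aut_ext (fun k => ?_) (fun k => ?_)
  · by_cases hj : k = j
    · subst hj
      simp only [MulAut.mul_apply, ZA_fa_self, dl, map_mul, map_inv, LA_fa, LA_fb_ne h1,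
        LA_fb_ne h2]
    · by_cases hj1 : k = j + 1
      · subst hj1
        simp only [MulAut.mul_apply, ZA_fa_succ, dl, map_mul, map_inv, LA_fa, LA_fb_ne h1,
          LA_fb_ne h2]
      · simp only [MulAut.mul_apply, ZA_fa_ne hg hj hj1, LA_fa]
  · by_cases hj : k = j
    · subst hj
      simp only [MulAut.mul_apply, ZA_fb_self, dl, map_mul, map_inv, LA_fa, LA_fb_ne h1,
        LA_fb_ne h2]
    · by_cases hi : k = i
      · subst hi
        simp only [MulAut.mul_apply, ZA_fb_ne hg hj, LA_fb_self, map_mul, map_inv,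
          ZA_fa_ne hg h h']
      · simp only [MulAut.mul_apply, ZA_fb_ne hg hj, LA_fb_ne hi]

theorem LA_ZA_braid (hg : 3 ≤ g) (i : ZMod g) :
    LA i * ZA hg i * LA i = ZA hg i * LA i * ZA hg i := by
  have h1 := succ_ne hg i
  refine aut_ext (fun k => ?_) (fun k => ?_)
  · by_cases hi : k = i
    · subst hi
      simp only [MulAut.mul_apply, ZA_fa_self, ZA_fa_succ, ZA_fb_self, ZA_fb_ne hg h1, dl,
        map_mul, map_inv, LA_fa, LA_fb_self, LA_fb_ne h1]
      group
    · by_cases hi1 : k = i + 1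
      · subst hi1
        simp only [MulAut.mul_apply, ZA_fa_self, ZA_fa_succ, ZA_fb_self, ZA_fb_ne hg h1, dl,
          map_mul, map_inv, LA_fa, LA_fb_self, LA_fb_ne h1]
        group
      · simp only [MulAut.mul_apply, ZA_fa_ne hg hi hi1, LA_fa]
  · by_cases hi : k = i
    · subst hi
      simp only [MulAut.mul_apply, ZA_fa_self, ZA_fa_succ, ZA_fb_self, ZA_fb_ne hg h1, dl,
        map_mul, map_inv, LA_fa, LA_fb_self, LA_fb_ne h1]
      group
    · simp only [MulAut.mul_apply, ZA_fb_ne hg hi, LA_fb_ne hi]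

theorem LA_ZA_braid' (hg : 3 ≤ g) (i : ZMod g) :
    LA (i + 1) * ZA hg i * LA (i + 1) = ZA hg i * LA (i + 1) * ZA hg i := by
  have h1 := succ_ne hg i
  have h2 := h1.symm
  refine aut_ext (fun k => ?_) (fun k => ?_)
  · by_cases hi : k = i
    · subst hi
      simp only [MulAut.mul_apply, ZA_fa_self, ZA_fa_succ, ZA_fb_self, ZA_fb_ne hg h1, dl,
        map_mul, map_inv, LA_fa, LA_fb_self, LA_fb_ne h2]
      simp only [mul_assoc, mul_inv_rev, inv_inv, inv_mul_cancel_left, mul_inv_cancel_left,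
        mul_inv_cancel, inv_mul_cancel, mul_one]
    · by_cases hi1 : k = i + 1
      · subst hi1
        simp only [MulAut.mul_apply, ZA_fa_self, ZA_fa_succ, ZA_fb_self, ZA_fb_ne hg h1, dl,
          map_mul, map_inv, LA_fa, LA_fb_self, LA_fb_ne h2]
        group
      · simp only [MulAut.mul_apply, ZA_fa_ne hg hi hi1, LA_fa]
  · by_cases hi : k = i
    · subst hi
      simp only [MulAut.mul_apply, ZA_fa_self, ZA_fa_succ, ZA_fb_self, ZA_fb_ne hg h1, dl,
        map_mul, map_inv, LA_fa, LA_fb_self, LA_fb_ne h2]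
      simp only [mul_assoc, mul_inv_rev, inv_inv, inv_mul_cancel_left, mul_inv_cancel_left,
        mul_inv_cancel, inv_mul_cancel, mul_one]
    · by_cases hi1 : k = i + 1
      · subst hi1
        simp only [MulAut.mul_apply, ZA_fa_self, ZA_fa_succ, ZA_fb_self, ZA_fb_ne hg h1, dl,
          map_mul, map_inv, LA_fa, LA_fb_self, LA_fb_ne h2]
        group
      · simp only [MulAut.mul_apply, ZA_fb_ne hg hi, LA_fb_ne hi1]

end MP985a
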