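import Pool.Agent.Lib.MP_985a2b_al.Aut

/-!
# Conjugation by the rotation and the reflection

PROOF. Write `r x r⁻¹ = y` as `r * x = y * r` (`mul_inv_eq_iff_eq_mul`) and compare values on all
generators (`aut_ext`, `MulAut.mul_apply`, value lemmas, case distinctions). `rA (dl i) = dl (i+1)`.
For the reflection write `s x s⁻¹ = y⁻¹` as `y * s * x = s` (so only the values of `x`, `y`, `s` are
needed, no inverses), e.g. `MA (-1 - i) * sA * MA i = sA`: on `fa i`: `MA i` gives `fa i * fb i`, `sA`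
gives `a⁻¹ * (a b a⁻¹) = b a⁻¹` with `a = fa (-1-i)`, `b = fb (-1-i)`, and `MA (-1-i)` gives
`b * (a b)⁻¹ = a⁻¹`. On `fb i`: `sA` gives `a b a⁻¹`, then `(a b) b (a b)⁻¹ = a b a⁻¹`. For `Z`:
`sA (dl i) = sA ((fb i)⁻¹ * fa (i+1) * fb (i+1) * (fa (i+1))⁻¹)`
`= (a_j b_j⁻¹ a_j⁻¹) * a_{j-1}⁻¹ * (a_{j-1} b_{j-1} a_{j-1}⁻¹) * a_{j-1}`
`= a_j b_j⁻¹ a_j⁻¹ b_{j-1}` with `j = -1 - i`, which is `(dl (j-1))⁻¹`, `j - 1 = -2 - i`.
`-1 - i = i' ↔ ..` : in case distinctions use `sub_eq_iff_eq_add` / `by ring_nf`/`linear_combination`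
to rewrite indices (`-1 - (i + 1) = -2 - i`, `-2 - i + 1 = -1 - i`; `congrArg fa`).
`rA_pow`: `(rA ^ n) (fa i) = fa (i + n)`, `(rA ^ n) (fb i) = fb (i + n)` by induction, and
`((g : ℕ) : ZMod g) = 0` (`ZMod.natCast_self`).
(All relations were checked by computer for `g = 3, 4, 5`.)
-/

namespace MP985a

variable {g : ℕ}

private theorem rr_dl (i : ZMod g) : rA (dl i) = dl (i + 1) := by
  simp only [dl, map_mul, map_inv, rA_fa, rA_fb]

theorem rA_MA (i : ZMod g) : rA * MA i * rA⁻¹ = (MA (i + 1) : MulAut (Fg g)) := by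
  rw [mul_inv_eq_iff_eq_mul]
  refine aut_ext (fun k => ?_) (fun k => ?_)
  · rw [MulAut.mul_apply, MulAut.mul_apply, rA_fa]
    by_cases h : k = i
    · subst h
      rw [MA_fa_self, MA_fa_self, map_mul, rA_fa, rA_fb]
    · rw [MA_fa_ne h, MA_fa_ne (fun e => h (add_right_cancel e)), rA_fa]
  · rw [MulAut.mul_apply, MulAut.mul_apply, rA_fb, MA_fb, MA_fb, rA_fb]

theorem rA_LA (i : ZMod g) : rA * LA i * rA⁻¹ = (LA (i + 1) : MulAut (Fg g)) := by
  rw [mul_inv_eq_iff_eq_mul]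
  refine aut_ext (fun k => ?_) (fun k => ?_)
  · rw [MulAut.mul_apply, MulAut.mul_apply, rA_fa, LA_fa, LA_fa, rA_fa]
  · rw [MulAut.mul_apply, MulAut.mul_apply, rA_fb]
    by_cases h : k = i
    · subst h
      rw [LA_fb_self, LA_fb_self, map_mul, map_inv, rA_fa, rA_fb]
    · rw [LA_fb_ne h, LA_fb_ne (fun e => h (add_right_cancel e)), rA_fb]

theorem rA_ZA (hg : 3 ≤ g) (i : ZMod g) : rA * ZA hg i * rA⁻¹ = ZA hg (i + 1) := by
  rw [mul_inv_eq_iff_eq_mul]
  refine aut_ext (fun k => ?_) (fun k => ?_)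
  · rw [MulAut.mul_apply, MulAut.mul_apply, rA_fa]
    by_cases h : k = i
    · subst h
      rw [ZA_fa_self, ZA_fa_self, map_mul, map_inv, rA_fa, rr_dl]
    · have h' : k + 1 ≠ i + 1 := fun e => h (add_right_cancel e)
      by_cases h2 : k = i + 1
      · subst h2
        rw [ZA_fa_succ, ZA_fa_succ, map_mul, rA_fa, rr_dl]
      · rw [ZA_fa_ne hg h h2, ZA_fa_ne hg h' (fun e => h2 (add_right_cancel e)), rA_fa]
  · rw [MulAut.mul_apply, MulAut.mul_apply, rA_fb]
    by_cases h : k = i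
    · subst h
      rw [ZA_fb_self, ZA_fb_self, map_mul, map_mul, map_inv, rA_fb, rr_dl]
    · rw [ZA_fb_ne hg h, ZA_fb_ne hg (fun e => h (add_right_cancel e)), rA_fb]

private theorem rr_neg_inj {a b k : ZMod g} (h : a - k = a - b) : k = b := by
  have := congrArg (fun x => a - x) h
  simpa using this

private theorem rr_conj {x y s : MulAut (Fg g)} (h : y * s * x = s) : s * x * s⁻¹ = y⁻¹ := by
  have h2 : s * x = y⁻¹ * s := by
    rw [eq_inv_mul_iff_mul_eq, ← mul_assoc]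
    exact h
  rw [h2, mul_inv_cancel_right]

theorem sA_MA (i : ZMod g) : sA * MA i * sA⁻¹ = (MA (-1 - i) : MulAut (Fg g))⁻¹ := by
  refine rr_conj (aut_ext (fun k => ?_) (fun k => ?_))
  · rw [MulAut.mul_apply, MulAut.mul_apply]
    by_cases h : k = i
    · subst h
      rw [MA_fa_self, map_mul, sA_fa, sA_fb]
      simp only [map_mul, map_inv, MA_fa_self, MA_fb]
      group
    · have h' : -1 - k ≠ -1 - i := fun e => h (rr_neg_inj e)
      rw [MA_fa_ne h, sA_fa, map_inv, MA_fa_ne h']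
  · rw [MulAut.mul_apply, MulAut.mul_apply, MA_fb, sA_fb]
    by_cases h : k = i
    · subst h
      simp only [map_mul, map_inv, MA_fa_self, MA_fb]
      group
    · have h' : -1 - k ≠ -1 - i := fun e => h (rr_neg_inj e)
      simp only [map_mul, map_inv, MA_fa_ne h', MA_fb]

theorem sA_LA (i : ZMod g) : sA * LA i * sA⁻¹ = (LA (-1 - i) : MulAut (Fg g))⁻¹ := by
  refine rr_conj (aut_ext (fun k => ?_) (fun k => ?_))
  · rw [MulAut.mul_apply, MulAut.mul_apply, LA_fa, sA_fa, map_inv, LA_fa]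
  · rw [MulAut.mul_apply, MulAut.mul_apply]
    by_cases h : k = i
    · subst h
      rw [LA_fb_self, map_mul, map_inv, sA_fa, sA_fb]
      simp only [map_mul, map_inv, LA_fa, LA_fb_self]
      group
    · have h' : -1 - k ≠ -1 - i := fun e => h (rr_neg_inj e)
      rw [LA_fb_ne h, sA_fb]
      simp only [map_mul, map_inv, LA_fa, LA_fb_ne h']

private theorem rr_idx (i : ZMod g) : (-1 - i : ZMod g) = (-2 - i) + 1 := by ring

private theorem rr_idx2 (i : ZMod g) : (-1 - (i + 1) : ZMod g) = -2 - i := by ring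

private theorem rr_s_dl (i : ZMod g) : sA (dl i) = (dl (-2 - i))⁻¹ := by
  simp only [dl, map_mul, map_inv, sA_fa, sA_fb, rr_idx2, rr_idx i]
  group

private theorem rr_ZA_dl (hg : 3 ≤ g) (j : ZMod g) : ZA hg j (dl j) = dl j := by
  have e : ZA hg j (dl j) = ZA hg j ((fb j)⁻¹ * fa (j + 1) * fb (j + 1) * (fa (j + 1))⁻¹) := rfl
  rw [e]
  simp only [map_mul, map_inv, ZA_fb_self, ZA_fa_succ, ZA_fb_ne hg (succ_ne hg j)]
  have e2 : dl j = (fb j)⁻¹ * fa (j + 1) * fb (j + 1) * (fa (j + 1))⁻¹ := rfl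
  rw [e2]
  group

theorem sA_ZA (hg : 3 ≤ g) (i : ZMod g) : sA * ZA hg i * sA⁻¹ = (ZA hg (-2 - i))⁻¹ := by
  have e1 : (-1 - i : ZMod g) = (-2 - i) + 1 := rr_idx i
  have e2 : (-1 - (i + 1) : ZMod g) = -2 - i := rr_idx2 i
  have hne : (-2 - i : ZMod g) + 1 ≠ -2 - i := succ_ne hg _
  refine rr_conj (aut_ext (fun k => ?_) (fun k => ?_))
  · rw [MulAut.mul_apply, MulAut.mul_apply]
    by_cases h : k = i
    · subst h
      rw [ZA_fa_self, map_mul, map_inv, sA_fa, rr_s_dl, e1, inv_inv, map_mul, map_inv, ZA_fa_succ,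
        rr_ZA_dl]
      group
    · by_cases h' : k = i + 1
      · subst h'
        rw [ZA_fa_succ, map_mul, sA_fa, rr_s_dl, e2, map_mul, map_inv, map_inv, ZA_fa_self,
          rr_ZA_dl]
        group
      · have h1 : (-1 - k : ZMod g) ≠ -2 - i := by
          rw [← e2]
          exact fun e => h' (rr_neg_inj e)
        have h2 : (-1 - k : ZMod g) ≠ (-2 - i) + 1 := by
          rw [← e1]
          exact fun e => h (rr_neg_inj e)
        rw [ZA_fa_ne hg h h', sA_fa, map_inv, ZA_fa_ne hg h1 h2]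
  · rw [MulAut.mul_apply, MulAut.mul_apply]
    by_cases h : k = i
    · subst h
      simp only [ZA_fb_self, map_mul, map_inv, sA_fb, rr_s_dl, e1, rr_ZA_dl, ZA_fa_succ,
        ZA_fb_ne hg hne]
      group
    · by_cases h' : k = i + 1
      · subst h'
        rw [ZA_fb_ne hg h, sA_fb, e2]
        simp only [map_mul, map_inv, ZA_fa_self, ZA_fb_self]
        group
      · have h1 : (-1 - k : ZMod g) ≠ -2 - i := by
          rw [← e2]
          exact fun e => h' (rr_neg_inj e)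
        have h2 : (-1 - k : ZMod g) ≠ (-2 - i) + 1 := by
          rw [← e1]
          exact fun e => h (rr_neg_inj e)
        rw [ZA_fb_ne hg h, sA_fb]
        simp only [map_mul, map_inv, ZA_fa_ne hg h1 h2, ZA_fb_ne hg h1]

theorem sA_sq : (sA : MulAut (Fg g)) * sA = 1 := by
  have h := sA_inv (g := g)
  calc (sA : MulAut (Fg g)) * sA = sA⁻¹ * sA := by rw [h]
    _ = 1 := inv_mul_cancel _

theorem sA_rA_sA : (sA : MulAut (Fg g)) * rA * sA = rA⁻¹ := by
  refine aut_ext (fun k => ?_) (fun k => ?_)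
  · rw [MulAut.mul_apply, MulAut.mul_apply, rA_inv_fa, sA_fa, map_inv, rA_fa, map_inv, sA_fa,
      inv_inv]
    congr 1
    ring
  · have e : (-1 - (-1 - k + 1) : ZMod g) = k - 1 := by ring
    rw [MulAut.mul_apply, MulAut.mul_apply, rA_inv_fb, sA_fb]
    simp only [map_mul, map_inv, rA_fa, rA_fb, sA_fa, sA_fb, e]
    group

theorem rA_pow_self : (rA : MulAut (Fg g)) ^ g = 1 := by
  have key : ∀ n : ℕ, ∀ i : ZMod g, ((rA : MulAut (Fg g)) ^ n) (fa i) = fa (i + (n : ZMod g)) ∧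
      ((rA : MulAut (Fg g)) ^ n) (fb i) = fb (i + (n : ZMod g)) := by
    intro n
    induction n with
    | zero => intro i; simp
    | succ n ih =>
      intro i
      rw [pow_succ, MulAut.mul_apply, MulAut.mul_apply, rA_fa, rA_fb, (ih (i + 1)).1,
        (ih (i + 1)).2]
      have e : i + 1 + (n : ZMod g) = i + ((n + 1 : ℕ) : ZMod g) := by push_cast; ring
      rw [e]
      exact ⟨rfl, rfl⟩
  refine aut_ext (fun k => ?_) (fun k => ?_)
  · rw [(key g k).1]
    simp
  · rw [(key g k).2]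
    simp

end MP985a
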