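import Pool.Agent.Lib.MP_985a2b_al.Aut

/-!
# The relator of the surface group

`relator g = ⁅a 0, b 0⁆ * ⁅a 1, b 1⁆ * ... * ⁅a (g-1), b (g-1)⁆`.

`MA_comm_fix`: `MA i ⁅fa j, fb j⁆ = ⁅fa j, fb j⁆` for all `i j` (`a b b (a b)⁻¹ b⁻¹ = a b a⁻¹ b⁻¹`), so
`MA i (relator g) = relator g` (`map_list_prod`, `List.map_map`, `List.map_congr_left`). The same for
`LA i`: `a (b a⁻¹) a⁻¹ (b a⁻¹)⁻¹ = a b a⁻¹ b⁻¹`.
`ZA0_relator`: for `g ≥ 3` `relator g = ⁅a 0, b 0⁆ * ⁅a 1, b 1⁆ * rest`, where `rest` is the product of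
`⁅a k, b k⁆` for `2 ≤ k < g` (`List.range_eq..`: `List.range_succ_eq_map` twice, or write
`g = n + 2`), `ZA hg 0` fixes `fa k`, `fb k` for these `k` (`(k : ZMod g) ≠ 0, 1`:
`ZMod.natCast_eq_zero_iff`, `Nat.le_of_dvd`, or `ZMod.val_natCast_of_lt`), and it fixes the product
`⁅a 0, b 0⁆ * ⁅a 1, b 1⁆`: with `δ = b0⁻¹ a1 b1 a1⁻¹`: `a0 ↦ a0 δ⁻¹`, `b0 ↦ δ b0 δ⁻¹`, `a1 ↦ δ a1`,
`b1 ↦ b1`: `⁅a0 δ⁻¹, δ b0 δ⁻¹⁆ = a0 b0 a0⁻¹ δ b0⁻¹ δ⁻¹` (as
`a0 δ⁻¹ δ b0 δ⁻¹ δ a0⁻¹ δ b0⁻¹ δ⁻¹`), `⁅δ a1, b1⁆ = δ a1 b1 a1⁻¹ δ⁻¹ b1⁻¹`, product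
`a0 b0 a0⁻¹ δ b0⁻¹ a1 b1 a1⁻¹ δ⁻¹ b1⁻¹ = a0 b0 a0⁻¹ δ δ δ⁻¹ b1⁻¹ = a0 b0 a0⁻¹ δ b1⁻¹`
`= a0 b0 a0⁻¹ b0⁻¹ a1 b1 a1⁻¹ b1⁻¹`.
`rA_relator`: `rA ⁅a k, b k⁆ = ⁅a (k+1), b (k+1)⁆`; the product over `k < g` of the shifted
commutators times... : `⁅a 0, b 0⁆ * rA (relator g) = relator g * ⁅a g, b g⁆` (both are the product
over `k < g + 1`: `List.range_succ`, `List.range_succ_eq_map`) and `(g : ZMod g) = 0`.
`sA_relator`: `sA ⁅a k, b k⁆ = ⁅a j, b j⁆⁻¹` with `j = -1 - k = (g - 1 - k : ℕ)` in `ZMod g` for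
`k < g`; `(relator g)⁻¹ = ` the reversed product of the inverses (`List.prod_inv_reverse`,
`List.map_reverse`, `List.reverse_range`/ `List.range` reversed is `k ↦ g - 1 - k`).
-/

namespace MP985a

/-- The commutator `x y x⁻¹ y⁻¹`. -/
def cm {G : Type*} [Group G] (x y : G) : G := x * y * x⁻¹ * y⁻¹

/-- The relator of the surface group of genus `g`. -/
def relator (g : ℕ) : Fg g :=
  ((List.range g).map (fun k : ℕ => cm (fa (k : ZMod g)) (fb (k : ZMod g)))).prod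

variable {g : ℕ}

private theorem map_cm (α : MulAut (Fg g)) (x y : Fg g) : α (cm x y) = cm (α x) (α y) := by
  unfold cm
  rw [map_mul, map_mul, map_mul, map_inv, map_inv]

private theorem map_relator (α : MulAut (Fg g)) :
    α (relator g) =
      ((List.range g).map (fun k : ℕ => cm (α (fa (k : ZMod g))) (α (fb (k : ZMod g))))).prod := by
  unfold relator
  rw [map_list_prod, List.map_map]
  congr 1
  refine List.map_congr_left fun k _ => ?_
  exact map_cm α _ _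

theorem MA_relator (i : ZMod g) : MA i (relator g) = relator g := by
  rw [map_relator]
  unfold relator
  congr 1
  refine List.map_congr_left fun k _ => ?_
  rw [MA_fb]
  by_cases h : (k : ZMod g) = i
  · rw [h, MA_fa_self]
    unfold cm
    group
  · rw [MA_fa_ne h]

theorem LA_relator (i : ZMod g) : LA i (relator g) = relator g := by
  rw [map_relator]
  unfold relator
  congr 1
  refine List.map_congr_left fun k _ => ?_
  rw [LA_fa]
  by_cases h : (k : ZMod g) = i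
  · rw [h, LA_fb_self]
    unfold cm
    group
  · rw [LA_fb_ne h]

theorem ZA0_relator (hg : 3 ≤ g) : ZA hg 0 (relator g) = relator g := by
  rw [map_relator]
  unfold relator
  obtain ⟨n, rfl⟩ : ∃ n, g = n + 2 := ⟨g - 2, by omega⟩
  have h10 : (1 : ZMod (n + 2)) ≠ 0 := one_ne_zero_zmod hg
  have hfa0 : ZA hg (0 : ZMod (n + 2)) (fa 0) = fa 0 * (dl 0)⁻¹ := ZA_fa_self hg 0
  have hfb0 : ZA hg (0 : ZMod (n + 2)) (fb 0) = dl 0 * fb 0 * (dl 0)⁻¹ := ZA_fb_self hg 0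
  have hfa1 : ZA hg (0 : ZMod (n + 2)) (fa 1) = dl 0 * fa 1 := by
    have h := ZA_fa_succ hg (0 : ZMod (n + 2))
    rwa [zero_add] at h
  have hfb1 : ZA hg (0 : ZMod (n + 2)) (fb 1) = fb 1 := ZA_fb_ne hg h10
  have hdl : (dl 0 : Fg (n + 2)) = (fb 0)⁻¹ * fa 1 * fb 1 * (fa 1)⁻¹ := by
    unfold dl
    rw [zero_add]
  have hrest : ∀ k ∈ List.range n,
      cm (ZA hg (0 : ZMod (n + 2)) (fa ((k + 1 + 1 : ℕ) : ZMod (n + 2))))
        (ZA hg (0 : ZMod (n + 2)) (fb ((k + 1 + 1 : ℕ) : ZMod (n + 2)))) =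
      cm (fa ((k + 1 + 1 : ℕ) : ZMod (n + 2))) (fb ((k + 1 + 1 : ℕ) : ZMod (n + 2))) := by
    intro k hk
    have hkn : k < n := List.mem_range.1 hk
    have h0 : ((k + 1 + 1 : ℕ) : ZMod (n + 2)) ≠ 0 := by
      intro h
      rw [ZMod.natCast_eq_zero_iff] at h
      have := Nat.le_of_dvd (by omega) h
      omega
    have h1 : ((k + 1 + 1 : ℕ) : ZMod (n + 2)) ≠ 0 + 1 := by
      intro h
      have h2 : ((k + 1 : ℕ) : ZMod (n + 2)) = 0 := by
        rw [Nat.cast_succ, zero_add] at h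
        exact add_eq_right.1 h
      rw [ZMod.natCast_eq_zero_iff] at h2
      have := Nat.le_of_dvd (by omega) h2
      omega
    rw [ZA_fa_ne hg h0 h1, ZA_fb_ne hg h0]
  rw [List.range_succ_eq_map, List.range_succ_eq_map]
  simp only [List.map_cons, List.map_map, List.prod_cons, Nat.succ_eq_add_one, Nat.cast_zero,
    zero_add, Nat.cast_one]
  rw [hfa0, hfb0, hfa1, hfb1]
  have hl : (List.map ((fun k : ℕ => cm (ZA hg (0 : ZMod (n + 2)) (fa (k : ZMod (n + 2))))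
      (ZA hg (0 : ZMod (n + 2)) (fb (k : ZMod (n + 2))))) ∘ Nat.succ ∘ Nat.succ) (List.range n)) =
      (List.map ((fun k : ℕ => cm (fa (k : ZMod (n + 2))) (fb (k : ZMod (n + 2)))) ∘
        Nat.succ ∘ Nat.succ) (List.range n)) :=
    List.map_congr_left hrest
  rw [← mul_assoc, ← mul_assoc]
  congr 1
  · rw [hdl]
    unfold cm
    group
  · exact congrArg List.prod hl

theorem rA_relator (hg : 3 ≤ g) :
    rA (relator g) = (cm (fa (0 : ZMod g)) (fb 0))⁻¹ * relator g * cm (fa (0 : ZMod g)) (fb 0) := by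
  have h1 : rA (relator g) = ((List.range g).map
      ((fun k : ℕ => cm (fa (k : ZMod g)) (fb (k : ZMod g))) ∘ Nat.succ)).prod := by
    rw [map_relator]
    congr 1
    refine List.map_congr_left fun k _ => ?_
    rw [rA_fa, rA_fb]
    change _ = cm (fa ((k + 1 : ℕ) : ZMod g)) (fb ((k + 1 : ℕ) : ZMod g))
    rw [Nat.cast_succ]
  have h2 : ((List.range (g + 1)).map (fun k : ℕ => cm (fa (k : ZMod g)) (fb (k : ZMod g)))).prod =
      cm (fa (0 : ZMod g)) (fb 0) * rA (relator g) := by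
    rw [h1, List.range_succ_eq_map, List.map_cons, List.map_map, List.prod_cons, Nat.cast_zero]
  have h3 : ((List.range (g + 1)).map (fun k : ℕ => cm (fa (k : ZMod g)) (fb (k : ZMod g)))).prod =
      relator g * cm (fa (0 : ZMod g)) (fb 0) := by
    rw [List.range_succ, List.map_append, List.prod_append]
    unfold relator
    rw [List.map_singleton, List.prod_singleton, ZMod.natCast_self]
  rw [mul_assoc, ← h3, h2, inv_mul_cancel_left]

theorem sA_relator : sA (relator g) = (relator g)⁻¹ := by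
  rw [map_relator]
  unfold relator
  have hrev : (List.range g).reverse = (List.range g).map (fun k => g - 1 - k) := by
    conv_lhs => rw [List.range_eq_range', List.reverse_range']
    simp only [Nat.zero_add]
  rw [List.prod_inv_reverse, List.map_map, ← List.map_reverse, hrev, List.map_map]
  congr 1
  refine List.map_congr_left fun k hk => ?_
  have hkg : k < g := List.mem_range.1 hk
  have h : (-1 - (k : ZMod g)) = ((g - 1 - k : ℕ) : ZMod g) := by
    have h1 : ((g - 1 - k : ℕ) : ZMod g) + ((k + 1 : ℕ) : ZMod g) = 0 := by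
      rw [← Nat.cast_add]
      have : g - 1 - k + (k + 1) = g := by omega
      rw [this, ZMod.natCast_self]
    rw [Nat.cast_succ] at h1
    linear_combination -h1
  rw [sA_fa, sA_fb, h]
  change _ = (cm (fa ((g - 1 - k : ℕ) : ZMod g)) (fb ((g - 1 - k : ℕ) : ZMod g)))⁻¹
  unfold cm
  group

end MP985a
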