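import Pool.Agent.Lib.MP_985a2b_al.TransA
import Pool.Agent.Lib.MP_985a2b_al.Quad

/-!
# Zero translation length

`quad_diff`. PROOF. `a = dist p u`, `b = dist p v`, `a' = dist p' u`, `b' = dist p' v`.
`quad h p p' u v`: `a^2 + b'^2 ≤ b^2 + a'^2 + 2 dist p p' * dist u v`; `quad h p p' v u`:
`b^2 + a'^2 ≤ a^2 + b'^2 + 2 dist p p' * dist v u`. So `|a^2 - b^2 - a'^2 + b'^2| ≤ 2 D D'`.
`((a - b) - (a' - b')) (a + b) = (a^2 - b^2 - a'^2 + b'^2) - (a' - b') ((a + b) - (a' + b'))`,
`|a' - b'| ≤ dist u v ≤ D'`, `|(a + b) - (a' + b')| ≤ 2 dist p p' ≤ 2 D`.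

`AE.of_centralizer`. PROOF. If `AE X {c}` fails there is `δ > 0` with `δ < dist x (c • x)` for all
`x`. Fix `x`. `L n = dist x (c^n • x) ≥ n δ` (`disp_pow_ge`), `L 0 = 0`.
`φ n a = dist ((c^n)⁻¹ • x) (a • x) - dist ((c^n)⁻¹ • x) x`, so `|φ n a| ≤ dist (a • x) x`.
Claim: `L (n+1) - L n → 0`. By `tendsto_iff_ultrafilter` let `U` be an ultrafilter on `ℕ` finer
than `atTop`. For every `a` the sequence `φ n a` stays in a compact interval, so it has a limit
`φ a` along `U` (`IsCompact.ultrafilter_le_nhds`, or `Ultrafilter.lim`). If `a` and `b` commute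
with `c` then `φ (a * b) = φ a + φ b`: put `p = (c^n)⁻¹ • x`, `p' = a • p = (c^n)⁻¹ • a • x`,
`u = (a * b) • x`, `v = a • x`. Then `φ n (a * b) - φ n a = dist p u - dist p v` and
`φ n b = dist p (b • x) - dist p x = dist p' u - dist p' v` (apply the isometry `a`), and
`dist p p' = dist x (a • x) =: D`, `dist u v = dist (b • x) x =: D'`. `quad_diff` gives
`|φ n (a * b) - φ n a - φ n b| * (dist p u + dist p v) ≤ 4 D D'` and
`dist p u + dist p v ≥ dist p v ≥ dist p x - dist x (a • x) = L n - D → ∞`. So the difference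
tends to `0`. By hypothesis `φ c = 0`, and `φ n c = dist ((c^n)⁻¹ • x) (c • x) - dist ((c^n)⁻¹ • x) x
= L (n+1) - L n` (apply `c^n`). This proves the claim. By Cesaro
(`Filter.Tendsto.cesaro`, `Finset.sum_range_sub`) `L n / n → 0`, but `L n / n ≥ δ` for `n ≥ 1`.
-/

namespace MP985a

variable {X : Type*} [MetricSpace X] {G : Type*} [Group G] [MulAction G X] [IsIsometricSMul G X]

theorem quad_diff (h : CN X) (p p' u v : X) {D D' : ℝ} (hD : dist p p' ≤ D)
    (hD' : dist u v ≤ D') :
    |(dist p u - dist p v) - (dist p' u - dist p' v)| * (dist p u + dist p v) ≤ 4 * D * D' := by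
  have q1 := quad h p p' u v
  have q2 := quad h p p' v u
  rw [dist_comm v u] at q2
  have hx : 0 ≤ dist p p' := dist_nonneg
  have hy : 0 ≤ dist u v := dist_nonneg
  have hxy : dist p p' * dist u v ≤ D * D' := mul_le_mul hD hD' hy (hx.trans hD)
  have hab : 0 ≤ dist p u + dist p v := add_nonneg dist_nonneg dist_nonneg
  have e1 : |(dist p u) ^ 2 - (dist p v) ^ 2 - (dist p' u) ^ 2 + (dist p' v) ^ 2| ≤
      2 * (D * D') := by
    rw [abs_le]
    constructor <;> linarith
  have e2 : |dist p' u - dist p' v| ≤ D' := by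
    refine le_trans ?_ hD'
    rw [abs_le]
    have h1 := dist_triangle p' u v
    have h2 := dist_triangle p' v u
    rw [dist_comm v u] at h2
    constructor <;> linarith
  have e3 : |(dist p' u + dist p' v) - (dist p u + dist p v)| ≤ 2 * D := by
    rw [abs_le]
    have h1 := dist_triangle p p' u
    have h2 := dist_triangle p p' v
    have h3 := dist_triangle p' p u
    have h4 := dist_triangle p' p v
    rw [dist_comm p' p] at h3 h4
    constructor <;> linarith
  have e4 : |dist p' u - dist p' v| * |(dist p' u + dist p' v) - (dist p u + dist p v)| ≤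
      D' * (2 * D) := mul_le_mul e2 e3 (abs_nonneg _) ((abs_nonneg _).trans e2)
  have e5 : ((dist p u - dist p v) - (dist p' u - dist p' v)) * (dist p u + dist p v) =
      ((dist p u) ^ 2 - (dist p v) ^ 2 - (dist p' u) ^ 2 + (dist p' v) ^ 2) +
        (dist p' u - dist p' v) * ((dist p' u + dist p' v) - (dist p u + dist p v)) := by
    ring
  calc |(dist p u - dist p v) - (dist p' u - dist p' v)| * (dist p u + dist p v)
      = |((dist p u - dist p v) - (dist p' u - dist p' v)) * (dist p u + dist p v)| := by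
        rw [abs_mul, abs_of_nonneg hab]
    _ ≤ 2 * (D * D') + D' * (2 * D) := by
        rw [e5]
        refine (abs_add_le _ _).trans (add_le_add e1 ?_)
        rw [abs_mul]
        exact e4
    _ = 4 * D * D' := by ring

/-- The differences of distances. -/
private noncomputable def ph (x : X) (c : G) (n : ℕ) (a : G) : ℝ :=
  dist ((c ^ n)⁻¹ • x) (a • x) - dist ((c ^ n)⁻¹ • x) x

omit [IsIsometricSMul G X] in
private theorem ph_bound (x : X) (c : G) (n : ℕ) (a : G) :
    ph x c n a ∈ Set.Icc (-dist (a • x) x) (dist (a • x) x) := by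
  unfold ph
  have h1 := dist_triangle ((c ^ n)⁻¹ • x) (a • x) x
  have h2 := dist_triangle ((c ^ n)⁻¹ • x) x (a • x)
  rw [dist_comm x (a • x)] at h2
  constructor <;> linarith

private theorem dist_inv_pow (x : X) (c : G) (n : ℕ) :
    dist ((c ^ n)⁻¹ • x) x = dist x (c ^ n • x) := by
  rw [← dist_smul (c ^ n) ((c ^ n)⁻¹ • x) x, smul_inv_smul]

private theorem ph_c (x : X) (c : G) (n : ℕ) :
    ph x c n c = dist x (c ^ (n + 1) • x) - dist x (c ^ n • x) := by
  unfold ph
  rw [dist_inv_pow]
  congr 1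
  rw [← dist_smul (c ^ n) ((c ^ n)⁻¹ • x) (c • x), smul_inv_smul, smul_smul, ← pow_succ]

private theorem ph_add (h : CN X) {c : G} {δ : ℝ}
    (hc : ∀ x : X, ∀ n : ℕ, n * δ ≤ dist x (c ^ n • x)) (x : X) {a b : G}
    (ha : Commute a c) (n : ℕ) :
    |ph x c n (a * b) - ph x c n a - ph x c n b| * (n * δ - dist x (a • x)) ≤
      4 * dist x (a • x) * dist (b • x) x := by
  set p : X := (c ^ n)⁻¹ • x with hp
  have hap : a • p = (c ^ n)⁻¹ • a • x := by
    rw [hp, smul_smul, smul_smul, ((ha.pow_right n).inv_right).eq]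
  have h1 : dist p (a • p) = dist x (a • x) := by
    rw [hap, hp, dist_smul]
  have h2 : dist ((a * b) • x) (a • x) = dist (b • x) x := by
    rw [mul_smul, dist_smul]
  have h3 := quad_diff h p (a • p) ((a * b) • x) (a • x) h1.le h2.le
  have h4 : ph x c n b = dist (a • p) ((a * b) • x) - dist (a • p) (a • x) := by
    rw [mul_smul, dist_smul, dist_smul]
    rfl
  have h5 : ph x c n (a * b) - ph x c n a - ph x c n b =
      (dist p ((a * b) • x) - dist p (a • x)) -
        (dist (a • p) ((a * b) • x) - dist (a • p) (a • x)) := by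
    rw [h4]
    unfold ph
    rw [← hp]
    ring
  rw [h5]
  refine le_trans (mul_le_mul_of_nonneg_left ?_ (abs_nonneg _)) h3
  have h6 := dist_triangle p (a • x) x
  rw [dist_comm (a • x) x] at h6
  have h7 : dist p x = dist x (c ^ n • x) := dist_inv_pow x c n
  have h8 := hc x n
  have h9 : 0 ≤ dist p ((a * b) • x) := dist_nonneg
  linarith

private theorem ph_limit {c : G} {δ : ℝ} (hδ : 0 < δ) (h : CN X)
    (hc : ∀ x : X, ∀ n : ℕ, n * δ ≤ dist x (c ^ n • x)) (x : X) {a b : G}
    (ha : Commute a c) :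
    Filter.Tendsto (fun n : ℕ => ph x c n (a * b) - ph x c n a - ph x c n b) Filter.atTop
      (nhds 0) := by
  have hlim : Filter.Tendsto (fun n : ℕ => (n : ℝ) * δ - dist x (a • x)) Filter.atTop
      Filter.atTop :=
    Filter.tendsto_atTop_add_const_right _ _
      (tendsto_natCast_atTop_atTop.atTop_mul_const hδ)
  rw [tendsto_zero_iff_abs_tendsto_zero]
  have hz : Filter.Tendsto (fun n : ℕ => (4 * dist x (a • x) * dist (b • x) x) /
      ((n : ℝ) * δ - dist x (a • x))) Filter.atTop (nhds 0) :=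
    tendsto_const_nhds.div_atTop hlim
  refine squeeze_zero' (Filter.Eventually.of_forall fun n => abs_nonneg _) ?_ hz
  filter_upwards [hlim.eventually_gt_atTop 0] with n hn
  rw [le_div_iff₀ hn]
  exact ph_add h hc x ha n

theorem AE.of_centralizer [Nonempty X] (h : CN X) (c : G)
    (hc : ∀ φ : G → ℝ, (∀ a b, Commute a c → Commute b c → φ (a * b) = φ a + φ b) → φ c = 0) :
    AE X {c} := by
  by_contra hAE
  unfold AE at hAE
  push Not at hAE
  obtain ⟨δ, hδ, hne⟩ := hAE
  have hne' : ∀ x : X, δ ≤ dist x (c • x) := by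
    intro x
    obtain ⟨s, hs, hlt⟩ := hne x
    rw [Set.mem_singleton_iff] at hs
    rw [hs] at hlt
    exact hlt.le
  have hpow : ∀ x : X, ∀ n : ℕ, n * δ ≤ dist x (c ^ n • x) :=
    fun x n => disp_pow_ge h c δ hδ hne' x n
  obtain ⟨x⟩ := ‹Nonempty X›
  have key : Filter.Tendsto (fun n : ℕ => dist x (c ^ (n + 1) • x) - dist x (c ^ n • x))
      Filter.atTop (nhds 0) := by
    rw [Filter.tendsto_iff_ultrafilter]
    intro U hU
    have hex : ∀ a : G, ∃ l : ℝ, Filter.Tendsto (fun n => ph x c n a) U (nhds l) := by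
      intro a
      have hle : (U.map (fun n => ph x c n a) : Filter ℝ) ≤
          Filter.principal (Set.Icc (-dist (a • x) x) (dist (a • x) x)) := by
        rw [Filter.le_principal_iff, Ultrafilter.coe_map, Filter.mem_map]
        exact Filter.Eventually.of_forall fun n => ph_bound x c n a
      obtain ⟨l, -, hl⟩ := isCompact_Icc.ultrafilter_le_nhds _ hle
      exact ⟨l, hl⟩
    choose φ hφ using hex
    have hadd : ∀ a b, Commute a c → Commute b c → φ (a * b) = φ a + φ b := by
      intro a b ha _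
      have h1 : Filter.Tendsto (fun n : ℕ => ph x c n (a * b) - ph x c n a - ph x c n b) U
          (nhds 0) := (ph_limit hδ h hpow x ha).mono_left hU
      have h2 := ((hφ (a * b)).sub (hφ a)).sub (hφ b)
      have h3 := tendsto_nhds_unique h1 h2
      linarith
    have h0 := hc φ hadd
    have h1 := hφ c
    rw [h0] at h1
    refine h1.congr fun n => ph_c x c n
  have hces := key.cesaro
  have hces' : Filter.Tendsto (fun n : ℕ => (n : ℝ)⁻¹ * dist x (c ^ n • x)) Filter.atTop
      (nhds 0) := by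
    refine hces.congr fun n => ?_
    rw [Finset.sum_range_sub (fun n => dist x (c ^ n • x)), pow_zero, one_smul, dist_self,
      sub_zero]
  have hle : δ ≤ 0 := by
    refine ge_of_tendsto hces' ?_
    filter_upwards [Filter.eventually_gt_atTop 0] with n hn
    have hn' : (0 : ℝ) < n := by exact_mod_cast hn
    rw [inv_mul_eq_div, le_div_iff₀ hn', mul_comm]
    exact hpow x n
  linarith

end MP985a
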