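import Pool.Agent.Lib.MP_985a2b_al.Pos
import Pool.Agent.Lib.MP_985a2b_al.TransB

/-!
# Every twist has almost fixed points

`add_of`: a function `φ` that is additive on the centralizer of `c` satisfies `φ 1 = 0`,
`φ a⁻¹ = -φ a` and `φ (a⁻¹ * b * a) = φ b` for `a, b` commuting with `c`; if
`a * b * a = b * a * b` then `φ a = φ b`.

`AE_M0`. PROOF. `AE.of_centralizer` with `c = M 0`. For `g ≥ 3` the elements `0, 1, 2` of `ZMod g`
are different, so `M 1, M 2, Z 0, Z 1, L 1, L 2` commute with `M 0` (`comMM`, `comMZ`, `comML`). Apply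
`φ` to `lantern`: `φ (M 0) + φ (M 1) + φ (M 2) + φ (Z 1) = φ (Z 0) + φ (Z 1) + φ (Z 1)` (the
conjugating words are products of elements commuting with `M 0`). The braid relations
`brML 1`, `brML 2`, `brLZ 1` (`L 1, Z 1`), `brLZ' 0` (`L 1, Z 0`), `brLZ' 1` (`L 2, Z 1`) give
`φ (M 1) = φ (L 1) = φ (Z 1) = φ (Z 0)` and `φ (M 2) = φ (L 2) = φ (Z 1)`. So `φ (M 0) = 0`.

`AE_single`. PROOF. `conj_of_braid`: if `a b a = b a b` then `(a b) a (a b)⁻¹ = b`. So `m 0`, `m i`
(powers of `r`), `v (2 i)` (`m_v_braid`) and `v (2 i + 1)` (`v_braid`) are all conjugate to `M 0`;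
use `AE.of_conj` (or `AE.conj`) for singletons.
-/

namespace MP985a


private theorem Single_one {G : Type*} [Group G] {c : G} {φ : G → ℝ}
    (hφ : ∀ a b, Commute a c → Commute b c → φ (a * b) = φ a + φ b) : φ 1 = 0 := by
  have h := hφ 1 1 (Commute.one_left c) (Commute.one_left c)
  rw [mul_one] at h
  linarith

private theorem Single_inv {G : Type*} [Group G] {c : G} {φ : G → ℝ}
    (hφ : ∀ a b, Commute a c → Commute b c → φ (a * b) = φ a + φ b) {a : G}
    (ha : Commute a c) : φ a⁻¹ = -φ a := by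
  have h := hφ a a⁻¹ ha ha.inv_left
  rw [mul_inv_cancel, Single_one hφ] at h
  linarith

private theorem Single_conj {G : Type*} [Group G] {c : G} {φ : G → ℝ}
    (hφ : ∀ a b, Commute a c → Commute b c → φ (a * b) = φ a + φ b) {w b : G}
    (hw : Commute w c) (hb : Commute b c) : φ (w⁻¹ * b * w) = φ b := by
  rw [hφ _ _ (hw.inv_left.mul_left hb) hw, hφ _ _ hw.inv_left hb, Single_inv hφ hw]
  ring

private theorem Single_braid {G : Type*} [Group G] {c : G} {φ : G → ℝ}
    (hφ : ∀ a b, Commute a c → Commute b c → φ (a * b) = φ a + φ b) {a b : G}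
    (ha : Commute a c) (hb : Commute b c) (h : a * b * a = b * a * b) : φ a = φ b := by
  have h1 := congrArg φ h
  rw [hφ _ _ (ha.mul_left hb) ha, hφ _ _ ha hb, hφ _ _ (hb.mul_left ha) hb, hφ _ _ hb ha] at h1
  linarith

private theorem Single_conj_braid {G : Type*} [Group G] {a b : G}
    (h : a * b * a = b * a * b) : (a * b) * a * (a * b)⁻¹ = b := by
  rw [h, mul_assoc b a b, mul_assoc, mul_inv_cancel, mul_one]

private theorem Single_AE {G : Type*} [Group G] {X : Type*} [MetricSpace X] [MulAction G X]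
    [IsIsometricSMul G X] {a : G} (ha : AE X ({a} : Set G)) (w : G) {b : G}
    (hb : w * a * w⁻¹ = b) : AE X ({b} : Set G) := by
  have h := AE.conj ha w
  rw [Set.image_singleton, hb] at h
  exact h

namespace TwistData

variable {g : ℕ} {G : Type*} [Group G] (T : TwistData g G)
variable {X : Type*} [MetricSpace X] [MulAction G X] [IsIsometricSMul G X]

theorem AE_M0 [Nonempty X] (h : CN X) (hg : 3 ≤ g) : AE X ({T.M 0} : Set G) := by
  refine AE.of_centralizer h (T.M 0) fun φ hφ => ?_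
  have h01 : (0 : ZMod g) ≠ 1 := by
    intro e
    have h2 : ((1 : ℕ) : ZMod g) = 0 := by
      rw [Nat.cast_one]
      exact e.symm
    rw [ZMod.natCast_eq_zero_iff] at h2
    have := Nat.le_of_dvd (by norm_num) h2
    omega
  have h02 : (0 : ZMod g) ≠ 2 := by
    intro e
    have h2 : ((2 : ℕ) : ZMod g) = 0 := by
      rw [Nat.cast_ofNat]
      exact e.symm
    rw [ZMod.natCast_eq_zero_iff] at h2
    have := Nat.le_of_dvd (by norm_num) h2
    omega
  have cM : ∀ j, Commute (T.M j) (T.M 0) := fun j => (T.comMM 0 j).symm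
  have cZ : ∀ j, Commute (T.Z j) (T.M 0) := fun j => (T.comMZ 0 j).symm
  have cL1 : Commute (T.L 1) (T.M 0) := (T.comML 0 1 h01).symm
  have cL2 : Commute (T.L 2) (T.M 0) := (T.comML 0 2 h02).symm
  have e1 : φ (T.M 1) = φ (T.L 1) := Single_braid hφ (cM 1) cL1 (T.brML 1)
  have e2 : φ (T.L 1) = φ (T.Z 1) := Single_braid hφ cL1 (cZ 1) (T.brLZ 1)
  have e3 : φ (T.L 1) = φ (T.Z 0) := by
    refine Single_braid hφ cL1 (cZ 0) ?_
    have := T.brLZ' 0
    rw [zero_add] at this
    exact this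
  have e4 : φ (T.M 2) = φ (T.L 2) := Single_braid hφ (cM 2) cL2 (T.brML 2)
  have e5 : φ (T.L 2) = φ (T.Z 1) := by
    refine Single_braid hφ cL2 (cZ 1) ?_
    have := T.brLZ' 1
    rw [one_add_one_eq_two] at this
    exact this
  have cw1 : Commute (T.L 1 * T.Z 0 * T.M 1 * T.L 1) (T.M 0) :=
    ((cL1.mul_left (cZ 0)).mul_left (cM 1)).mul_left cL1
  have cw2 : Commute (T.L 1 * T.Z 0 * (T.L 2)⁻¹ * (T.M 1)⁻¹ * (T.L 1)⁻¹ * (T.Z 1)⁻¹ *
      T.M 2 * T.L 2) (T.M 0) :=
    (((((((cL1.mul_left (cZ 0)).mul_left cL2.inv_left).mul_left (cM 1).inv_left).mul_left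
      cL1.inv_left).mul_left (cZ 1).inv_left).mul_left (cM 2)).mul_left cL2)
  have cw3 : Commute (T.L 1 * T.M 1 * T.M 1 * T.L 1) (T.M 0) :=
    ((cL1.mul_left (cM 1)).mul_left (cM 1)).mul_left cL1
  have hl := congrArg φ T.lantern
  rw [hφ _ _ (((cM 0).mul_left (cM 1)).mul_left (cM 2))
      ((cw1.inv_left.mul_left (cZ 1)).mul_left cw1),
    hφ _ _ ((cM 0).mul_left (cM 1)) (cM 2), hφ _ _ (cM 0) (cM 1), Single_conj hφ cw1 (cZ 1),
    hφ _ _ ((cZ 0).mul_left ((cw2.inv_left.mul_left (cZ 1)).mul_left cw2))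
      ((cw3.inv_left.mul_left (cZ 1)).mul_left cw3),
    hφ _ _ (cZ 0) ((cw2.inv_left.mul_left (cZ 1)).mul_left cw2),
    Single_conj hφ cw2 (cZ 1), Single_conj hφ cw3 (cZ 1)] at hl
  linarith

theorem AE_single [Nonempty X] (h : CN X) (hg : 3 ≤ g) (c : Bool × ℤ) :
    AE X ({T.cur c} : Set G) := by
  have hm : ∀ i : ℤ, AE X ({T.m i} : Set G) := by
    intro i
    have h0 : T.m 0 = T.M 0 := by simp [TwistData.m]
    have h1 : AE X ({T.m 0} : Set G) := by
      rw [h0]
      exact T.AE_M0 h hg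
    refine Single_AE h1 (T.r ^ i) ?_
    rw [r_zpow_m, zero_add]
  have hv : ∀ i : ℤ, AE X ({T.v (2 * i)} : Set G) := fun i =>
    Single_AE (hm i) _ (Single_conj_braid (T.m_v_braid i))
  obtain ⟨b, x⟩ := c
  cases b
  · change AE X ({T.v x} : Set G)
    rcases Int.even_or_odd' x with ⟨k, rfl | rfl⟩
    · exact hv k
    · exact Single_AE (hv k) _ (Single_conj_braid (T.v_braid (2 * k)))
  · exact hm x

end TwistData

end MP985a
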