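import Pool.Agent.Lib.MP_985a2b_al.Relator

/-!
# Definitions for the statement of the theorem on mapping class groups
-/

namespace MP985a

open Set

/-- The Euclidean distance in the plane. -/
noncomputable def plDist (p q : ℝ × ℝ) : ℝ := √((p.1 - q.1) ^ 2 + (p.2 - q.2) ^ 2)

/-- The point with parameter `s` on the segment from `p` to `q` in the plane. -/
def plPt (p q : ℝ × ℝ) (s : ℝ) : ℝ × ℝ :=
  ((1 - s) * p.1 + s * q.1, (1 - s) * p.2 + s * q.2)

/-- CAT(0) spaces: any two points are joined by a geodesic segment, and geodesic triangles are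
not fatter than their comparison triangles `x' y' z'` in the Euclidean plane (for two points on two
sides of a triangle; the two sides have a common vertex `x`). -/
structure CAT0 (X : Type*) [MetricSpace X] : Prop where
  geod : ∀ x y : X, ∃ γ : ℝ → X, IsGeod γ x y
  thin : ∀ (x y z : X) (γ η : ℝ → X), IsGeod γ x y → IsGeod η x z →
    ∀ x' y' z' : ℝ × ℝ,
      plDist x' y' = dist x y → plDist x' z' = dist x z → plDist y' z' = dist y z →
      ∀ s ∈ Icc (0 : ℝ) 1, ∀ t ∈ Icc (0 : ℝ) 1,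
        dist (γ s) (η t) ≤ plDist (plPt x' y' s) (plPt x' z' t)

/-- The fundamental group of the closed orientable surface of genus `g`: generators `a i`, `b i`
(`i` modulo `g`), one relation `[a 0, b 0] [a 1, b 1] ⋯ [a (g-1), b (g-1)] = 1`. -/
def SG (g : ℕ) : Type := PresentedGroup ({relator g} : Set (FreeGroup (ZMod g × Bool)))

instance (g : ℕ) : Group (SG g) :=
  inferInstanceAs (Group (PresentedGroup ({relator g} : Set (FreeGroup (ZMod g × Bool)))))

/-- The generator `a i`. -/
def SG.a {g : ℕ} (i : ZMod g) : SG g :=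
  (PresentedGroup.of (i, false) : PresentedGroup ({relator g} : Set (FreeGroup (ZMod g × Bool))))

/-- The generator `b i`. -/
def SG.b {g : ℕ} (i : ZMod g) : SG g :=
  (PresentedGroup.of (i, true) : PresentedGroup ({relator g} : Set (FreeGroup (ZMod g × Bool))))

/-- The curve `(b i)⁻¹ a (i+1) b (i+1) (a (i+1))⁻¹` joining the handles `i` and `i + 1`. -/
def SG.c {g : ℕ} (i : ZMod g) : SG g :=
  (SG.b i)⁻¹ * SG.a (i + 1) * SG.b (i + 1) * (SG.a (i + 1))⁻¹

open SG

/-- The Dehn twist about `b i`. -/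
def TwB {g : ℕ} (i : ZMod g) (f : SG g → SG g) : Prop :=
  f (a i) = a i * b i ∧ (∀ j, j ≠ i → f (a j) = a j) ∧ ∀ j, f (b j) = b j

/-- The Dehn twist about `a i`. -/
def TwA {g : ℕ} (i : ZMod g) (f : SG g → SG g) : Prop :=
  f (b i) = b i * (a i)⁻¹ ∧ (∀ j, j ≠ i → f (b j) = b j) ∧ ∀ j, f (a j) = a j

/-- The Dehn twist about `c i`. -/
def TwC {g : ℕ} (i : ZMod g) (f : SG g → SG g) : Prop :=
  f (a i) = a i * (c i)⁻¹ ∧ f (b i) = c i * b i * (c i)⁻¹ ∧ f (a (i + 1)) = c i * a (i + 1) ∧
    (∀ j, j ≠ i → j ≠ i + 1 → f (a j) = a j) ∧ ∀ j, j ≠ i → f (b j) = b j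

/-- The rotation of order `g`. -/
def Rot {g : ℕ} (f : SG g → SG g) : Prop :=
  (∀ j, f (a j) = a (j + 1)) ∧ ∀ j, f (b j) = b (j + 1)

/-- The orientation reversing reflection. -/
def Refl {g : ℕ} (f : SG g → SG g) : Prop :=
  (∀ j, f (a j) = (a (-1 - j))⁻¹) ∧ ∀ j, f (b j) = a (-1 - j) * b (-1 - j) * (a (-1 - j))⁻¹

/-- The generating automorphisms. -/
def Gen {g : ℕ} (f : SG g → SG g) : Prop :=
  (∃ i, TwB i f) ∨ (∃ i, TwA i f) ∨ (∃ i, TwC i f) ∨ Rot f ∨ Refl f

/-- The outer automorphism group: automorphisms modulo inner automorphisms. -/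
def OutG (Γ : Type*) [Group Γ] : Type _ := MulAut Γ ⧸ (MulAut.conj (G := Γ)).range

theorem conj_range_normal (Γ : Type*) [Group Γ] : (MulAut.conj (G := Γ)).range.Normal := by
  refine ⟨?_⟩
  rintro _ ⟨x, rfl⟩ α
  refine ⟨α x, ?_⟩
  ext y
  simp

instance (Γ : Type*) [Group Γ] : Group (OutG Γ) :=
  haveI := conj_range_normal Γ
  inferInstanceAs (Group (MulAut Γ ⧸ (MulAut.conj (G := Γ)).range))

/-- The class of an automorphism. -/
def OutG.mk {Γ : Type*} [Group Γ] (α : MulAut Γ) : OutG Γ :=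
  (QuotientGroup.mk α : MulAut Γ ⧸ (MulAut.conj (G := Γ)).range)

/-- The subgroup of `Out (π₁ S_g)` generated by the Dehn twists about the curves `a i`, `b i`,
`c i`, the rotation and the reflection. -/
def ModSub (g : ℕ) : Subgroup (OutG (SG g)) :=
  Subgroup.closure {x | ∃ α : MulAut (SG g), Gen α ∧ OutG.mk α = x}

/-- The extended mapping class group of the closed orientable surface of genus `g`. -/
def MCG (g : ℕ) : Type := ModSub g

instance (g : ℕ) : Group (MCG g) := inferInstanceAs (Group (ModSub g))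

end MP985a
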