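import Pool.Agent.Lib.MP_985a2b_al.Relator
import Pool.Agent.Lib.MP_985a2b_al.RelA
import Pool.Agent.Lib.MP_985a2b_al.RelB
import Pool.Agent.Lib.MP_985a2b_al.RelC
import Pool.Agent.Lib.MP_985a2b_al.RelR

/-!
# The surface group, its outer automorphism group and the mapping class group

`ModPM g`: the subgroup of `Out (SurfaceGroup g)` generated by the classes of the automorphisms
`IsTwM`, `IsTwL`, `IsTwZ` (Dehn twists), `IsRot` (a rotation of order `g`), `IsRef` (a reflection).

`NC g` is the normal closure of the relator in the free group. `Stab g` is the subgroup of all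
automorphisms `α` of the free group with `(NC g).map α = NC g`.
`stab_of`: if `α (relator g)` is conjugate to `relator g` or to its inverse then `α ∈ Stab g`.
PROOF. `α` maps the normal closure of `{R}` onto the normal closure of `{α R}`
(`Subgroup.map_normalClosure`), and the normal closure of a conjugate of `R^±1` is the normal closure
of `R` (`Subgroup.normalClosure_le_normal` twice).
`pm`: the homomorphism `Stab g →* MulAut (SurfaceGroup g)`, `QuotientGroup.congr`, with
`pm α (mk x) = mk (α x)`.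
-/

namespace MP985a

open Set

/-- The normal closure of the relator. -/
def NC (g : ℕ) : Subgroup (Fg g) := Subgroup.normalClosure {relator g}

instance (g : ℕ) : (NC g).Normal := Subgroup.normalClosure_normal

/-- The fundamental group of the closed orientable surface of genus `g`. -/
abbrev SurfaceGroup (g : ℕ) : Type := PresentedGroup ({relator g} : Set (Fg g))

/-- The generator `a i`. -/
def sa {g : ℕ} (i : ZMod g) : SurfaceGroup g := PresentedGroup.of (i, false)

/-- The generator `b i`. -/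
def sb {g : ℕ} (i : ZMod g) : SurfaceGroup g := PresentedGroup.of (i, true)

instance conjRange_normal (Γ : Type*) [Group Γ] : (MulAut.conj (G := Γ)).range.Normal := by
  refine ⟨?_⟩
  rintro _ ⟨x, rfl⟩ α
  refine ⟨α x, ?_⟩
  ext y
  simp

/-- The outer automorphism group. -/
abbrev OutGroup (Γ : Type*) [Group Γ] : Type _ := MulAut Γ ⧸ (MulAut.conj (G := Γ)).range

/-- `α` is the twist about `b i`. -/
def IsTwM {g : ℕ} (i : ZMod g) (α : MulAut (SurfaceGroup g)) : Prop :=
  α (sa i) = sa i * sb i ∧ (∀ j, j ≠ i → α (sa j) = sa j) ∧ ∀ j, α (sb j) = sb j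

/-- `α` is the twist about `a i`. -/
def IsTwL {g : ℕ} (i : ZMod g) (α : MulAut (SurfaceGroup g)) : Prop :=
  α (sb i) = sb i * (sa i)⁻¹ ∧ (∀ j, j ≠ i → α (sb j) = sb j) ∧ ∀ j, α (sa j) = sa j

/-- The curve joining the handles `i` and `i + 1`. -/
def sdl {g : ℕ} (i : ZMod g) : SurfaceGroup g :=
  (sb i)⁻¹ * sa (i + 1) * sb (i + 1) * (sa (i + 1))⁻¹

/-- `α` is the twist about the curve `sdl i`. -/
def IsTwZ {g : ℕ} (i : ZMod g) (α : MulAut (SurfaceGroup g)) : Prop :=
  α (sa i) = sa i * (sdl i)⁻¹ ∧ α (sb i) = sdl i * sb i * (sdl i)⁻¹ ∧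
    α (sa (i + 1)) = sdl i * sa (i + 1) ∧ (∀ j, j ≠ i → j ≠ i + 1 → α (sa j) = sa j) ∧
    ∀ j, j ≠ i → α (sb j) = sb j

/-- `α` is the rotation. -/
def IsRot {g : ℕ} (α : MulAut (SurfaceGroup g)) : Prop :=
  (∀ j, α (sa j) = sa (j + 1)) ∧ ∀ j, α (sb j) = sb (j + 1)

/-- `α` is the reflection. -/
def IsRef {g : ℕ} (α : MulAut (SurfaceGroup g)) : Prop :=
  (∀ j, α (sa j) = (sa (-1 - j))⁻¹) ∧
    ∀ j, α (sb j) = sa (-1 - j) * sb (-1 - j) * (sa (-1 - j))⁻¹

/-- The generating automorphisms. -/
def IsGen {g : ℕ} (α : MulAut (SurfaceGroup g)) : Prop :=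
  (∃ i, IsTwM i α) ∨ (∃ i, IsTwL i α) ∨ (∃ i, IsTwZ i α) ∨ IsRot α ∨ IsRef α

/-- The extended mapping class group of the closed orientable surface of genus `g`, as the subgroup
of the outer automorphism group of the surface group generated by Dehn twists, a rotation and a
reflection. -/
def ModPM (g : ℕ) : Subgroup (OutGroup (SurfaceGroup g)) :=
  Subgroup.closure
    ((QuotientGroup.mk : MulAut (SurfaceGroup g) → OutGroup (SurfaceGroup g)) '' {α | IsGen α})

theorem surf_ext {g : ℕ} {α β : MulAut (SurfaceGroup g)} (ha : ∀ i, α (sa i) = β (sa i))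
    (hb : ∀ i, α (sb i) = β (sb i)) : α = β := by
  have h : (α : SurfaceGroup g →* SurfaceGroup g) = (β : SurfaceGroup g →* SurfaceGroup g) := by
    refine PresentedGroup.ext ?_
    rintro ⟨i, b⟩
    cases b
    · exact ha i
    · exact hb i
  ext x
  exact DFunLike.congr_fun h x

/-- The automorphisms of the free group preserving `NC g`. -/
def Stab (g : ℕ) : Subgroup (MulAut (Fg g)) where
  carrier := {α | (NC g).map (α : Fg g →* Fg g) = NC g}
  one_mem' := by
    show (NC g).map ((1 : MulAut (Fg g)) : Fg g →* Fg g) = NC g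
    exact Subgroup.map_id _
  mul_mem' := by
    intro α β hα hβ
    show (NC g).map ((α * β : MulAut (Fg g)) : Fg g →* Fg g) = NC g
    have h1 : ((α * β : MulAut (Fg g)) : Fg g →* Fg g) =
        (α : Fg g →* Fg g).comp (β : Fg g →* Fg g) := rfl
    rw [h1, ← Subgroup.map_map, hβ]
    exact hα
  inv_mem' := by
    intro α hα
    show (NC g).map ((α⁻¹ : MulAut (Fg g)) : Fg g →* Fg g) = NC g
    have hα' : (NC g).map (α : Fg g →* Fg g) = NC g := hα
    have h1 : ((α⁻¹ : MulAut (Fg g)) : Fg g →* Fg g).comp (α : Fg g →* Fg g) =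
        MonoidHom.id _ := by
      ext x
      simp
    calc (NC g).map ((α⁻¹ : MulAut (Fg g)) : Fg g →* Fg g)
        = ((NC g).map (α : Fg g →* Fg g)).map ((α⁻¹ : MulAut (Fg g)) : Fg g →* Fg g) := by
          rw [hα']
      _ = NC g := by rw [Subgroup.map_map, h1, Subgroup.map_id]

theorem stab_of {g : ℕ} {α : MulAut (Fg g)} (c : Fg g)
    (h : α (relator g) = c * relator g * c⁻¹ ∨ α (relator g) = c * (relator g)⁻¹ * c⁻¹) :
    α ∈ Stab g := by
  show (NC g).map (α : Fg g →* Fg g) = NC g
  have hN : (NC g).Normal := inferInstance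
  have hRm : relator g ∈ NC g := Subgroup.subset_normalClosure rfl
  have hmem : α (relator g) ∈ NC g := by
    rcases h with h | h
    · rw [h]; exact hN.conj_mem _ hRm c
    · rw [h]; exact hN.conj_mem _ (inv_mem hRm) c
  -- the image is normal
  have hmap : ((NC g).map (α : Fg g →* Fg g)).Normal :=
    hN.map (α : Fg g →* Fg g) α.surjective
  apply le_antisymm
  · -- the preimage of `NC g` is normal and contains the relator
    rw [Subgroup.map_le_iff_le_comap]
    have h1 : ((NC g).comap (α : Fg g →* Fg g)).Normal := hN.comap _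
    refine Subgroup.normalClosure_le_normal (N := (NC g).comap (α : Fg g →* Fg g)) ?_
    rintro _ rfl
    exact hmem
  · refine Subgroup.normalClosure_le_normal (N := (NC g).map (α : Fg g →* Fg g)) ?_
    rintro _ rfl
    have h2 : α (relator g) ∈ (NC g).map (α : Fg g →* Fg g) := ⟨_, hRm, rfl⟩
    rcases h with h | h
    · have h3 := hmap.conj_mem _ h2 c⁻¹
      have h4 : c⁻¹ * α (relator g) * c⁻¹⁻¹ = relator g := by rw [h]; group
      rwa [h4] at h3
    · have h3 := inv_mem (hmap.conj_mem _ h2 c⁻¹)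
      have h4 : (c⁻¹ * α (relator g) * c⁻¹⁻¹)⁻¹ = relator g := by rw [h]; group
      rwa [h4] at h3

/-- The induced automorphism of the surface group. -/
noncomputable def pm (g : ℕ) : Stab g →* MulAut (SurfaceGroup g) where
  toFun α := QuotientGroup.congr (NC g) (NC g) α.1 α.2
  map_one' := by
    ext x
    obtain ⟨x, rfl⟩ := QuotientGroup.mk_surjective x
    rfl
  map_mul' := by
    intro α β
    ext x
    obtain ⟨x, rfl⟩ := QuotientGroup.mk_surjective x
    rfl

theorem pm_sa {g : ℕ} (α : Stab g) (i : ZMod g) :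
    pm g α (sa i) = (QuotientGroup.mk (α.1 (fa i)) : SurfaceGroup g) := rfl

theorem pm_sb {g : ℕ} (α : Stab g) (i : ZMod g) :
    pm g α (sb i) = (QuotientGroup.mk (α.1 (fb i)) : SurfaceGroup g) := rfl

theorem MA_stab {g : ℕ} (i : ZMod g) : MA i ∈ Stab g :=
  stab_of 1 (Or.inl (by simp [MA_relator]))

theorem LA_stab {g : ℕ} (i : ZMod g) : LA i ∈ Stab g :=
  stab_of 1 (Or.inl (by simp [LA_relator]))

theorem rA_stab {g : ℕ} (hg : 3 ≤ g) : rA ∈ Stab g :=
  stab_of ((cm (fa (0 : ZMod g)) (fb 0))⁻¹) (Or.inl (by simp [rA_relator hg]))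

theorem sA_stab {g : ℕ} : sA ∈ Stab g :=
  stab_of 1 (Or.inr (by simp [sA_relator]))

/-- All twists `Z i` are conjugate to `Z 0` by powers of the rotation. -/
theorem ZA_stab {g : ℕ} (hg : 3 ≤ g) (i : ZMod g) : ZA hg i ∈ Stab g := by
  have h : ∀ n : ℕ, ZA hg (n : ZMod g) ∈ Stab g := by
    intro n
    induction n with
    | zero =>
      refine stab_of 1 (Or.inl ?_)
      simp [ZA0_relator hg]
    | succ n ih =>
      have h1 := rA_ZA hg (n : ZMod g)
      rw [Nat.cast_succ, ← h1]
      exact mul_mem (mul_mem (rA_stab hg) ih) (inv_mem (rA_stab hg))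
  haveI : NeZero g := ⟨by omega⟩
  have := h i.val
  rwa [ZMod.natCast_zmod_val] at this

end MP985a
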