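import Pool.Agent.Lib.MP_985a2b_al.Blocks
import Pool.Agent.Lib.MP_985a2b_al.Single

/-!
# All twists together

`AE_total`. PROOF. The `3 g` twists are `T.cur c`, `c ∈ F := Blk 0 (2 g - 1)` (positions
`0, .., 2 g - 1`): `L i = v (2 i)`, `Z i = v (2 i + 1)`, `M i = m i` for `0 ≤ i < g`
(`ZMod.natCast_zmod_val`/`ZMod.intCast_cast`: every element of `ZMod g` is the cast of an integer in
`[0, g)`). `helly_induct` with `F`, `K = g`, `N = 1`, `f = 1` (`hcomm` is empty: `Fin 1`),
`d < 1 * g`. `hsmall`: `S ⊆ F`, `S.card ≤ g`.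
Case 1: `(false, 2 i) ∈ S` for all `i = 0, .., g-1`. These are `g` curves, so `S` is equal to this
set, and it is AE: the `L i` commute (`AE.iUnion_comm` over `Fin g`, or induction with
`AE.union_comm`, `comLL`).
Case 2: `(false, 2 i) ∉ S` for some `0 ≤ i < g`. Since `S` has at most `g < 2 g - 1` curves, there is
`x ∈ [2 i + 1, 2 i + 2 g - 1]` such that neither `(false, x)` nor `(false, x - 2 g)` is in `S`
(the `2 g - 1` residues modulo `2 g` different from `2 i`; the map `c ↦` residue of the position of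
the `(false, _)` curves; for every such `x` exactly one of `x`, `x - 2 g` is in `[0, 2 g - 1]`).
Then `T.cur '' S ⊆ T.cur '' (Blk (2 i + 1) (x - 1)) ∪ T.cur '' (Blk (x + 1) (2 i + 2 g - 1)) ∪
{m i} ∪ {m (x / 2)}`: for `c ∈ S` with position `y ∈ [0, 2 g - 1]`, replace `y` by `y + 2 g` if
`y < 2 i` (`v (y + 2 g) = v y`, `m (j + g) = m j`: `v_even`, `v_odd`, casts); if `y = 2 i` then
`c = (true, i)`; if the new `y` is `x` then `c = (true, y/2)` and `x` is even. The blocks have
length `≤ 2 g - 2` (`AE_Blk`), the two blocks commute with each other (`cur_comm`: positions differ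
by `≥ 2` and `≤ 2 g - 2`), `m i` and `m (x/2)` commute with each other and with both blocks
(`m_comm`, `m_v_comm`: `y ≠ 2 i`, `|y - 2 i| < 2 g`; `y ≠ x`, `|y - x| < 2 g`; if `x` is odd omit
`m (x/2)`). `AE.union_comm` three times.
-/

namespace MP985a

open Set

namespace TwistData

variable {g : ℕ} {G : Type*} [Group G] (T : TwistData g G)
variable {X : Type*} [MetricSpace X] [MulAction G X] [IsIsometricSMul G X]

/-- Shifting a curve by the full period. -/
private theorem cur_shift (c : Bool × ℤ) :
    ∃ c', pos c' = pos c + 2 * g ∧ T.cur c' = T.cur c ∧ c'.1 = c.1 := by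
  obtain ⟨b, y⟩ := c
  cases b
  · refine ⟨(false, y + 2 * g), rfl, ?_, rfl⟩
    change T.v (y + 2 * g) = T.v y
    have hdiv : (y + 2 * g) / 2 = y / 2 + g := by omega
    have hcast : (((y + 2 * g) / 2 : ℤ) : ZMod g) = ((y / 2 : ℤ) : ZMod g) := by
      rw [hdiv, Int.cast_add, Int.cast_natCast, ZMod.natCast_self, add_zero]
    have hev : Even (y + 2 * (g : ℤ)) ↔ Even y := by
      rw [Int.even_add]
      simp
    unfold TwistData.v
    rw [hcast]
    by_cases hy : Even y
    · rw [if_pos hy, if_pos (hev.mpr hy)]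
    · rw [if_neg hy, if_neg (fun h => hy (hev.mp h))]
  · refine ⟨(true, y + g), ?_, ?_, rfl⟩
    · change 2 * (y + g) = 2 * y + 2 * g
      ring
    · change T.M ((y + g : ℤ) : ZMod g) = T.M (y : ZMod g)
      rw [Int.cast_add, Int.cast_natCast, ZMod.natCast_self, add_zero]

theorem AE_small [CompleteSpace X] [Nonempty X] (h : CN X) {d : ℕ} (hE : Ess X d) (hd : d < g)
    (hg : 3 ≤ g) (S : Finset (Bool × ℤ)) (hS : S ⊆ Blk 0 (2 * g - 1)) (hc : S.card ≤ g) :
    AE X (T.cur '' (S : Set (Bool × ℤ))) := by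
  classical
  have hsingle : ∀ c, AE X ({T.cur c} : Set G) := T.AE_single h hg
  by_cases hall : ∀ i : ℕ, i < g → ((false, 2 * (i : ℤ)) : Bool × ℤ) ∈ S
  · have hinj : Function.Injective (fun i : ℕ => ((false, 2 * (i : ℤ)) : Bool × ℤ)) := by
      intro a b hab
      have := (Prod.mk.inj hab).2
      omega
    have hsub : (Finset.range g).image (fun i : ℕ => ((false, 2 * (i : ℤ)) : Bool × ℤ)) ⊆ S := by
      intro c hc
      obtain ⟨i, hi, rfl⟩ := Finset.mem_image.mp hc
      exact hall i (Finset.mem_range.mp hi)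
    have hcard : ((Finset.range g).image
        (fun i : ℕ => ((false, 2 * (i : ℤ)) : Bool × ℤ))).card = g := by
      rw [Finset.card_image_of_injective _ hinj, Finset.card_range]
    have heqS := Finset.eq_of_subset_of_card_le hsub (by rw [hcard]; exact hc)
    have hU := AE.iUnion_comm h (N := g)
      (fun i : Fin g => ({T.cur (false, 2 * ((i : ℕ) : ℤ))} : Set G)) (fun i => hsingle _) (by
        rintro i j - s hs t ht
        rw [Set.mem_singleton_iff] at hs ht
        rw [hs, ht]
        change Commute (T.v (2 * ((i : ℕ) : ℤ))) (T.v (2 * ((j : ℕ) : ℤ)))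
        rw [T.v_even, T.v_even]
        exact T.comLL _ _)
    refine AE.mono hU ?_
    rintro _ ⟨c, hcS, rfl⟩
    rw [← heqS, Finset.mem_coe] at hcS
    obtain ⟨i, hi, rfl⟩ := Finset.mem_image.mp hcS
    exact Set.mem_iUnion.mpr ⟨⟨i, Finset.mem_range.mp hi⟩, rfl⟩
  · push Not at hall
    obtain ⟨i, hig, hiS⟩ := hall
    -- the free position
    obtain ⟨x, hx1, hx2, hx3, hx4⟩ : ∃ x : ℤ, 2 * (i : ℤ) + 1 ≤ x ∧ x ≤ 2 * i + 2 * g - 1 ∧
        ((false, x) : Bool × ℤ) ∉ S ∧ ((false, x - 2 * g) : Bool × ℤ) ∉ S := by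
      by_contra hcon
      push Not at hcon
      have hle : (Finset.Icc (2 * (i : ℤ) + 1) (2 * i + 2 * g - 1)).card ≤ S.card := by
        refine Finset.card_le_card_of_injOn
          (fun x => if ((false, x) : Bool × ℤ) ∈ S then (false, x) else (false, x - 2 * g)) ?_ ?_
        · intro x hx
          rw [Finset.mem_coe, Finset.mem_Icc] at hx
          rw [Finset.mem_coe]
          dsimp only
          by_cases hxS : ((false, x) : Bool × ℤ) ∈ S
          · rw [if_pos hxS]
            exact hxS
          · rw [if_neg hxS]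
            exact hcon x hx.1 hx.2 hxS
        · intro x hx y hy hxy
          rw [Finset.mem_coe, Finset.mem_Icc] at hx hy
          dsimp only at hxy
          split_ifs at hxy
          · exact (Prod.mk.inj hxy).2
          · have := (Prod.mk.inj hxy).2
            omega
          · have := (Prod.mk.inj hxy).2
            omega
          · have := (Prod.mk.inj hxy).2
            omega
      rw [Int.card_Icc] at hle
      omega
    have hrem := T.AE_remove h hsingle (2 * (i : ℤ) + 1) (2 * i + 2 * g - 1) x hx1 hx2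
      (by omega) (T.AE_Blk h hE hd hsingle _ _ (by omega))
      (T.AE_Blk h hE hd hsingle _ _ (by omega))
    have hC := AE.union_comm h hrem (hsingle (true, (i : ℤ))) (by
      rintro _ ⟨⟨b, y⟩, ⟨hy, -⟩, rfl⟩ t ht
      rw [Set.mem_singleton_iff] at ht
      rw [ht]
      rw [mem_Blk] at hy
      cases b
      · have hy' : pos (false, y) = y := rfl
        rw [hy'] at hy
        refine (T.m_v_comm (i := (i : ℤ)) (x := y) (by omega) ?_).symm
        rw [abs_lt]
        constructor <;> omega
      · exact T.m_comm y i)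
    refine AE.mono hC ?_
    rintro _ ⟨c, hcS, rfl⟩
    rw [Finset.mem_coe] at hcS
    have hpc := hS hcS
    rw [mem_Blk] at hpc
    -- the shifted curve
    obtain ⟨c', hc1, hc2, hc3, hc4⟩ : ∃ c' : Bool × ℤ, T.cur c' = T.cur c ∧
        (2 * (i : ℤ) ≤ pos c' ∧ pos c' ≤ 2 * i + 2 * g - 1) ∧ c' ≠ (false, x) ∧
        (pos c' = 2 * i → c' = (true, (i : ℤ))) := by
      by_cases hlt : pos c < 2 * i
      · obtain ⟨c', h1, h2, h3⟩ := T.cur_shift c
        refine ⟨c', h2, ⟨by omega, by omega⟩, ?_, fun h' => by omega⟩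
        rintro rfl
        apply hx4
        obtain ⟨b, y⟩ := c
        have hb : b = false := h3.symm
        subst hb
        have e1 : x = y + 2 * g := h1
        have e2 : x - 2 * g = y := by omega
        rw [e2]
        exact hcS
      · refine ⟨c, rfl, ⟨by omega, by omega⟩, ?_, ?_⟩
        · rintro rfl
          exact hx3 hcS
        · intro hpos
          obtain ⟨b, y⟩ := c
          cases b
          · have hy' : pos (false, y) = y := rfl
            rw [hy'] at hpos
            rw [hpos] at hcS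
            exact absurd hcS hiS
          · have hy' : pos (true, y) = 2 * y := rfl
            rw [hy'] at hpos
            have : y = i := by omega
            rw [this]
    by_cases hpos : pos c' = 2 * i
    · right
      rw [← hc1, hc4 hpos]
      rfl
    · left
      refine ⟨c', ⟨?_, hc3⟩, hc1⟩
      rw [mem_Blk]
      omega

theorem AE_total [CompleteSpace X] [Nonempty X] (h : CN X) {d : ℕ} (hE : Ess X d) (hd : d < g)
    (hg : 3 ≤ g) : AE X (range T.M ∪ range T.L ∪ range T.Z) := by
  have hne : NeZero g := ⟨by omega⟩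
  have hU : AE X (T.cur '' (Blk 0 (2 * g - 1) : Set (Bool × ℤ))) := by
    refine helly_induct h hE (N := 1) (K := g) (by omega) T.cur (Blk 0 (2 * g - 1))
      (fun _ => 1) ?_ ?_
    · intro t t' htt
      exact absurd (Subsingleton.elim t t') htt
    · intro S hS hc
      exact T.AE_small h hE hd hg S hS hc
  have hval : ∀ i : ZMod g, (((i.val : ℕ) : ℤ) : ZMod g) = i := by
    intro i
    rw [Int.cast_natCast, ZMod.natCast_zmod_val]
  refine AE.mono hU ?_
  rintro _ ((⟨i, rfl⟩ | ⟨i, rfl⟩) | ⟨i, rfl⟩)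
  · refine ⟨(true, (i.val : ℤ)), ?_, ?_⟩
    · rw [Finset.mem_coe, mem_Blk]
      have hp : pos (true, (i.val : ℤ)) = 2 * (i.val : ℤ) := rfl
      have := ZMod.val_lt i
      rw [hp]
      omega
    · change T.M (((i.val : ℕ) : ℤ) : ZMod g) = T.M i
      rw [hval]
  · refine ⟨(false, 2 * (i.val : ℤ)), ?_, ?_⟩
    · rw [Finset.mem_coe, mem_Blk]
      have hp : pos (false, 2 * (i.val : ℤ)) = 2 * (i.val : ℤ) := rfl
      have := ZMod.val_lt i
      rw [hp]
      omega
    · change T.v (2 * (i.val : ℤ)) = T.L i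
      rw [T.v_even, hval]
  · refine ⟨(false, 2 * (i.val : ℤ) + 1), ?_, ?_⟩
    · rw [Finset.mem_coe, mem_Blk]
      have hp : pos (false, 2 * (i.val : ℤ) + 1) = 2 * (i.val : ℤ) + 1 := rfl
      have := ZMod.val_lt i
      rw [hp]
      omega
    · change T.v (2 * (i.val : ℤ) + 1) = T.Z i
      rw [T.v_odd, hval]

end TwistData

end MP985a
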