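import Pool.Agent.Lib.MP_985a2b_al.Disp

/-!
# Powers of an element without almost fixed points

Let `δ ≤ dist x (c • x)` for all `x`, `0 < δ`.

(1) For every `x` and `k`: `2^k * δ ≤ dist x (c^(2^k) • x)`. PROOF. Induction on `k` for all
elements `c` and numbers `δ` at once: it is enough to see `2 * δ ≤ dist x (c^2 • x)` for all `x`.
Let `m` be the midpoint of `x` and `c • x`; `c • m` is the midpoint of `c • x` and `c^2 • x`.
`mid_dist_half` with the common vertex `c • x` (use `IsMid.symm` for the first):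
`δ ≤ dist m (c • m) ≤ dist x (c^2 • x) / 2`. (`c^(2^(k+1)) = (c^2)^(2^k)`.)

(2) `L n = dist x (c^n • x)`: `L (n + m) ≤ L n + L m` (isometries), so `L (n * q) ≤ q * L n` and
`L (a + r) ≤ L a + r * L 1`.

(3) For `n ≥ 1` and `k` let `q = 2^k / n`, `r = 2^k % n < n`. Then
`2^k δ ≤ L (n q + r) ≤ q L n + n L 1`, and `q ≤ 2^k / n`, so
`n δ ≤ (n q / 2^k) L n + n^2 L 1 / 2^k ≤ L n + n^2 L 1 / 2^k`. Let `k → ∞`.
-/

namespace MP985a

variable {X : Type*} [MetricSpace X] {G : Type*} [Group G] [MulAction G X] [IsIsometricSMul G X]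

private theorem transA_sq (h : CN X) (c : G) (δ : ℝ) (hc : ∀ x : X, δ ≤ dist x (c • x))
    (x : X) : 2 * δ ≤ dist x (c ^ 2 • x) := by
  obtain ⟨m, hm⟩ := exists_mid h x (c • x)
  have hm' : IsMid (c • x) (c ^ 2 • x) (c • m) := by
    have e : c ^ 2 • x = c • c • x := by rw [pow_two, mul_smul]
    refine ⟨?_, ?_⟩
    · rw [e, dist_smul, dist_smul]; exact hm.1
    · rw [e, dist_smul, dist_smul]; exact hm.2
  have h1 := mid_dist_half h hm.symm hm'
  have h2 := hc m
  linarith

private theorem transA_pow (h : CN X) (k : ℕ) : ∀ (c : G) (δ : ℝ),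
    (∀ x : X, δ ≤ dist x (c • x)) → ∀ x : X, 2 ^ k * δ ≤ dist x (c ^ (2 ^ k) • x) := by
  induction k with
  | zero => intro c δ hc x; simpa using hc x
  | succ k ih =>
    intro c δ hc x
    have h1 := ih (c ^ 2) (2 * δ) (transA_sq h c δ hc) x
    rw [← pow_mul] at h1
    have e : (2 : ℕ) * 2 ^ k = 2 ^ (k + 1) := by rw [pow_succ]; ring
    rw [e] at h1
    calc (2 : ℝ) ^ (k + 1) * δ = 2 ^ k * (2 * δ) := by rw [pow_succ]; ring
      _ ≤ _ := h1

private theorem transA_le (c : G) (x : X) (q : ℕ) :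
    dist x (c ^ q • x) ≤ q * dist x (c • x) := by
  induction q with
  | zero => simp
  | succ q ih =>
    have e : c ^ (q + 1) • x = c ^ q • c • x := by rw [pow_succ, mul_smul]
    rw [e]
    calc dist x (c ^ q • c • x) ≤ dist x (c ^ q • x) + dist (c ^ q • x) (c ^ q • c • x) :=
          dist_triangle _ _ _
      _ ≤ q * dist x (c • x) + dist x (c • x) := by rw [dist_smul]; linarith
      _ = ((q + 1 : ℕ) : ℝ) * dist x (c • x) := by push_cast; ring

theorem disp_pow_ge (h : CN X) (c : G) (δ : ℝ) (hδ : 0 < δ) (hc : ∀ x : X, δ ≤ dist x (c • x))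
    (x : X) (n : ℕ) : n * δ ≤ dist x (c ^ n • x) := by
  rcases Nat.eq_zero_or_pos n with rfl | hn
  · simp
  by_contra hlt
  push Not at hlt
  have hn' : (0 : ℝ) < n := by exact_mod_cast hn
  have key : ∀ k : ℕ, (n * δ - dist x (c ^ n • x)) * 2 ^ k ≤ n ^ 2 * dist x (c • x) := by
    intro k
    have h1 := transA_pow h k c δ hc x
    set q := 2 ^ k / n with hq
    set r := 2 ^ k % n with hr
    have hqr : n * q + r = 2 ^ k := Nat.div_add_mod _ _
    have hrn : r < n := Nat.mod_lt _ hn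
    have h2 : dist x (c ^ (2 ^ k) • x) ≤ q * dist x (c ^ n • x) + r * dist x (c • x) := by
      rw [← hqr, pow_add, mul_smul]
      calc dist x (c ^ (n * q) • c ^ r • x)
          ≤ dist x (c ^ (n * q) • x) + dist (c ^ (n * q) • x) (c ^ (n * q) • c ^ r • x) :=
            dist_triangle _ _ _
        _ ≤ q * dist x (c ^ n • x) + r * dist x (c • x) := by
            rw [dist_smul, pow_mul]
            exact add_le_add (transA_le (c ^ n) x q) (transA_le c x r)
    have hL1 : (0 : ℝ) ≤ dist x (c • x) := dist_nonneg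
    have hLn : (0 : ℝ) ≤ dist x (c ^ n • x) := dist_nonneg
    have hrn' : (r : ℝ) ≤ n := by exact_mod_cast hrn.le
    have hnq : (n : ℝ) * q ≤ 2 ^ k := by
      have : n * q ≤ 2 ^ k := by omega
      exact_mod_cast this
    have h3 : 2 ^ k * δ ≤ q * dist x (c ^ n • x) + n * dist x (c • x) :=
      (h1.trans h2).trans (by
        have := mul_le_mul_of_nonneg_right hrn' hL1
        linarith)
    have h4 := mul_le_mul_of_nonneg_left h3 hn'.le
    have h5 := mul_le_mul_of_nonneg_right hnq hLn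
    nlinarith
  have hpos : 0 < n * δ - dist x (c ^ n • x) := by linarith
  obtain ⟨k, hk⟩ := pow_unbounded_of_one_lt
    (n ^ 2 * dist x (c • x) / (n * δ - dist x (c ^ n • x))) (one_lt_two : (1 : ℝ) < 2)
  rw [div_lt_iff₀ hpos] at hk
  have := key k
  linarith [mul_comm ((2 : ℝ) ^ k) (n * δ - dist x (c ^ n • x))]

end MP985a
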