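import Pool.Agent.Lib.MP_985a2b_al.UDefs

/-!
# Ultralimits satisfy the inequality of Bruhat and Tits

PROOF. Let `x = cls a`, `y = cls b` and `t ∈ [0,1]`. For every `n` choose `m n` by `hX (a n) (b n) t`.
`z = a n` gives `dist (a n) (m n)^2 ≤ t * dist (a n) (b n)^2 - t (1 - t) dist (a n) (b n)^2
= t^2 dist (a n) (b n)^2 ≤ dist (a n) (b n)^2`, so
`dist (m n) (u n) ≤ dist (a n) (b n) + dist (a n) (u n)` is bounded by a multiple of `l n` and
`m ∈ BSeq u l`. For `z = cls c` divide the inequality of `m n` at `c n` by `(l n)^2` and pass to the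
limit along `F` (`le_of_tendsto_of_tendsto'`, `Tendsto.pow`, `Tendsto.const_mul`,
`div_pow`).
-/

namespace MP985a

open Filter Topology

theorem IsULim.cn {X Y : Type*} [MetricSpace X] [MetricSpace Y] {F : Ultrafilter ℕ}
    {u : ℕ → X} {l : ℕ → ℝ} {cls : BSeq u l → Y} (h : IsULim F u l cls) (hX : CN X) : CN Y := by
  intro x y t ht
  obtain ⟨a, rfl⟩ := h.surj x
  obtain ⟨b, rfl⟩ := h.surj y
  have h1 : ∀ n, ∃ m : X, ∀ z : X, dist z m ^ 2 ≤ (1 - t) * dist z (a.1 n) ^ 2 +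
      t * dist z (b.1 n) ^ 2 - t * (1 - t) * dist (a.1 n) (b.1 n) ^ 2 := fun n =>
    hX (a.1 n) (b.1 n) t ht
  choose m hm using h1
  obtain ⟨Ca, hCa⟩ := a.2
  obtain ⟨Cb, hCb⟩ := b.2
  have hmb : ∃ C, ∀ n, dist (m n) (u n) ≤ C * l n := by
    refine ⟨2 * Ca + Cb, fun n => ?_⟩
    have h2 := hm n (a.1 n)
    rw [dist_self] at h2
    have h3 : dist (a.1 n) (m n) ^ 2 ≤ dist (a.1 n) (b.1 n) ^ 2 := by
      nlinarith [sq_nonneg (dist (a.1 n) (b.1 n)), ht.1, ht.2,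
        mul_nonneg (sub_nonneg.2 ht.2) (sq_nonneg (dist (a.1 n) (b.1 n))),
        mul_nonneg ht.1 (mul_nonneg (sub_nonneg.2 ht.2) (sq_nonneg (dist (a.1 n) (b.1 n))))]
    have h4 : dist (a.1 n) (m n) ≤ dist (a.1 n) (b.1 n) :=
      (sq_le_sq₀ dist_nonneg dist_nonneg).1 h3
    have h5 := dist_triangle (a.1 n) (u n) (b.1 n)
    have h6 := dist_triangle (m n) (a.1 n) (u n)
    rw [dist_comm (u n) (b.1 n)] at h5
    rw [dist_comm (m n) (a.1 n)] at h6
    have h7 := hCa n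
    have h8 := hCb n
    nlinarith
  refine ⟨cls ⟨m, hmb⟩, fun z => ?_⟩
  obtain ⟨c, rfl⟩ := h.surj z
  have := F.neBot
  refine le_of_tendsto_of_tendsto' ((h.lim c ⟨m, hmb⟩).pow 2)
    ((((h.lim c a).pow 2).const_mul (1 - t)).add (((h.lim c b).pow 2).const_mul t) |>.sub
      (((h.lim a b).pow 2).const_mul (t * (1 - t)))) fun n => ?_
  have hl := h.pos n
  have h2 := hm n (c.1 n)
  have h3 : (1 - t) * (dist (c.1 n) (a.1 n) / l n) ^ 2 + t * (dist (c.1 n) (b.1 n) / l n) ^ 2 -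
      t * (1 - t) * (dist (a.1 n) (b.1 n) / l n) ^ 2 =
      ((1 - t) * dist (c.1 n) (a.1 n) ^ 2 + t * dist (c.1 n) (b.1 n) ^ 2 -
        t * (1 - t) * dist (a.1 n) (b.1 n) ^ 2) / l n ^ 2 := by
    rw [div_pow, div_pow, div_pow]
    ring
  rw [h3, div_pow]
  exact div_le_div_of_nonneg_right h2 (sq_nonneg _)

end MP985a
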