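import Pool.Agent.Lib.MP_985a2b_al.UDefs
import Pool.Agent.Lib.MP_985a2b_al.UCN
import Pool.Agent.Lib.MP_985a2b_al.Bary

/-!
# Barycenters in ultralimits

Let `p j = cls (P j)`, `w` in the simplex and `B : BSeq u l` such that `B n` is a barycenter of the
points `P j n` with weights `w` for every `n`. Then `cls B` is a barycenter of `p` with weights `w`.
PROOF. For `y = cls c`: `∑ j, w j * dist (B n) (P j n)^2 ≤ ∑ j, w j * dist (c n) (P j n)^2`; divide
by `(l n)^2` and pass to the limit (`tendsto_finset_sum`).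

`ubary_bseq`: if `b n` is a barycenter of `P j n` (weights `w` in the simplex, so `k > 0`) for every
`n`, then `b` is in `BSeq u l`. PROOF. Let `C` be such that `dist (P j n) (u n) ≤ C * l n` for all
`j, n` (maximum over `j`, `C ≥ 0`). Then `∑ j, w j * dist (b n) (P j n)^2 ≤
∑ j, w j * dist (u n) (P j n)^2 ≤ (C * l n)^2`, so there is `j` with
`dist (b n) (P j n) ≤ C * l n` (otherwise the left side is `> (C l n)^2` as the weights sum to `1`),
and `dist (b n) (u n) ≤ 2 * C * l n`.
-/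

namespace MP985a

open Filter Topology

theorem ubary_bseq {X : Type*} [MetricSpace X] {u : ℕ → X} {l : ℕ → ℝ} (hl : ∀ n, 0 < l n)
    {k : ℕ} (P : Fin k → BSeq u l) {w : Fin k → ℝ} (hw : w ∈ stdSimplex ℝ (Fin k)) (b : ℕ → X)
    (hb : ∀ n, IsBary (fun j => (P j).1 n) w (b n)) :
    ∃ C, ∀ n, dist (b n) (u n) ≤ C * l n := by
  choose D hD using fun j => (P j).2
  set C : ℝ := ∑ j, |D j| with hC
  have hC0 : 0 ≤ C := Finset.sum_nonneg fun j _ => abs_nonneg _
  have hDC : ∀ j n, dist ((P j).1 n) (u n) ≤ C * l n := by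
    intro j n
    refine (hD j n).trans (mul_le_mul_of_nonneg_right ?_ (hl n).le)
    exact (le_abs_self _).trans
      (Finset.single_le_sum (f := fun j => |D j|) (fun j _ => abs_nonneg _) (Finset.mem_univ j))
  refine ⟨2 * C, fun n => ?_⟩
  have hsum : ∑ j, w j * dist (b n) ((P j).1 n) ^ 2 ≤ (C * l n) ^ 2 := by
    refine (hb n (u n)).trans ?_
    calc ∑ j, w j * dist (u n) ((P j).1 n) ^ 2 ≤ ∑ j, w j * (C * l n) ^ 2 := by
          refine Finset.sum_le_sum fun j _ => mul_le_mul_of_nonneg_left ?_ (hw.1 j)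
          refine pow_le_pow_left₀ dist_nonneg ?_ 2
          rw [dist_comm]; exact hDC j n
      _ = (C * l n) ^ 2 := by rw [← Finset.sum_mul, hw.2, one_mul]
  obtain ⟨j, hj⟩ : ∃ j, dist (b n) ((P j).1 n) ≤ C * l n := by
    by_contra hne
    push Not at hne
    have hCl : 0 ≤ C * l n := mul_nonneg hC0 (hl n).le
    have hex : ∃ j, 0 < w j := by
      by_contra hno
      push Not at hno
      have : ∑ j, w j ≤ 0 := Finset.sum_nonpos fun j _ => hno j
      rw [hw.2] at this
      linarith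
    obtain ⟨i, hi⟩ := hex
    have : (C * l n) ^ 2 < ∑ j, w j * dist (b n) ((P j).1 n) ^ 2 := by
      calc (C * l n) ^ 2 = ∑ j, w j * (C * l n) ^ 2 := by rw [← Finset.sum_mul, hw.2, one_mul]
        _ < _ := by
          refine Finset.sum_lt_sum (fun j _ => ?_) ⟨i, Finset.mem_univ i, ?_⟩
          · exact mul_le_mul_of_nonneg_left (pow_le_pow_left₀ hCl (hne j).le 2) (hw.1 j)
          · exact mul_lt_mul_of_pos_left (pow_lt_pow_left₀ (hne i) hCl two_ne_zero) hi
    linarith
  calc dist (b n) (u n) ≤ dist (b n) ((P j).1 n) + dist ((P j).1 n) (u n) := dist_triangle _ _ _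
    _ ≤ C * l n + C * l n := add_le_add hj (hDC j n)
    _ = 2 * C * l n := by ring

theorem IsULim.bary {X Y : Type*} [MetricSpace X] [MetricSpace Y] {F : Ultrafilter ℕ}
    {u : ℕ → X} {l : ℕ → ℝ} {cls : BSeq u l → Y} (h : IsULim F u l cls)
    {k : ℕ} (P : Fin k → BSeq u l) {w : Fin k → ℝ} (hw : w ∈ stdSimplex ℝ (Fin k))
    (B : BSeq u l) (hB : ∀ n, IsBary (fun j => (P j).1 n) w (B.1 n)) :
    IsBary (fun j => cls (P j)) w (cls B) := by
  intro y
  obtain ⟨c, rfl⟩ := h.surj y
  have := F.neBot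
  have hlim : ∀ x : BSeq u l, Tendsto
      (fun n => ∑ j, w j * (dist (x.1 n) ((P j).1 n) / l n) ^ 2) F
      (𝓝 (∑ j, w j * dist (cls x) (cls (P j)) ^ 2)) := by
    intro x
    refine tendsto_finsetSum _ fun j _ => ?_
    exact ((h.lim x (P j)).pow 2).const_mul (w j)
  refine le_of_tendsto_of_tendsto' (hlim B) (hlim c) fun n => ?_
  have hl := h.pos n
  have e : ∀ x : BSeq u l, ∑ j, w j * (dist (x.1 n) ((P j).1 n) / l n) ^ 2 =
      (∑ j, w j * dist (x.1 n) ((P j).1 n) ^ 2) / l n ^ 2 := by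
    intro x
    rw [Finset.sum_div]
    refine Finset.sum_congr rfl fun j _ => ?_
    rw [div_pow, mul_div_assoc]
  rw [e B, e c]
  exact div_le_div_of_nonneg_right (hB n (c.1 n)) (sq_nonneg _)

end MP985a
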