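import Pool.Agent.Lib.MP_985a2b_al.Defs

/-!
# Ultralimits of one rescaled metric space: the interface
-/

namespace MP985a

open Filter Topology

/-- Sequences at bounded rescaled distance from the sequence `u` of base points. -/
def BSeq {X : Type*} [MetricSpace X] (u : ℕ → X) (l : ℕ → ℝ) : Type _ :=
  {x : ℕ → X // ∃ C, ∀ n, dist (x n) (u n) ≤ C * l n}

/-- `Y` is an ultralimit (along `F`) of the spaces `X` with the metric `dist / l n` and the base
points `u n`; `cls` sends a sequence to its class. -/
structure IsULim {X Y : Type*} [MetricSpace X] [MetricSpace Y] (F : Ultrafilter ℕ) (u : ℕ → X)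
    (l : ℕ → ℝ) (cls : BSeq u l → Y) : Prop where
  fine : (F : Filter ℕ) ≤ atTop
  pos : ∀ n, 0 < l n
  surj : Function.Surjective cls
  lim : ∀ x y : BSeq u l,
    Tendsto (fun n => dist (x.1 n) (y.1 n) / l n) F (𝓝 (dist (cls x) (cls y)))

end MP985a
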