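import Pool.Agent.Lib.MP_985a2b_al.UDefs

/-!
# Existence of the ultralimit as a metric space

PROOF. On `S = BSeq u l` put `D x y =` the limit along `F` of `dist (x n) (y n) / l n`: this
sequence is bounded (`≤ C_x + C_y`, `≥ 0`), so it stays in the compact interval and has a limit
(`isCompact_Icc.ultrafilter_le_nhds`; choose it; limits are unique: `tendsto_nhds_unique`,
`F.neBot`). `D x x = 0`, symmetric, triangle inequality (`le_of_tendsto_of_tendsto'` etc.): a
`PseudoMetricSpace` on a copy of `S`. `Y = SeparationQuotient` of it is a `MetricSpace`;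
`cls = SeparationQuotient.mk`, `dist (mk x) (mk y) = D x y` (`SeparationQuotient.dist_mk`).
-/

namespace MP985a

open Filter Topology

universe u

private theorem umet_exists {X : Type u} [MetricSpace X] (F : Ultrafilter ℕ)
    (b : ℕ → X) (l : ℕ → ℝ) (hl : ∀ n, 0 < l n) (x y : BSeq b l) :
    ∃ d : ℝ, Tendsto (fun n => dist (x.1 n) (y.1 n) / l n) F (𝓝 d) := by
  obtain ⟨C, hC⟩ := x.2
  obtain ⟨C', hC'⟩ := y.2
  have hmem : ∀ n, dist (x.1 n) (y.1 n) / l n ∈ Set.Icc (0 : ℝ) (C + C') := by
    intro n
    have hn := hl n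
    refine ⟨by positivity, ?_⟩
    rw [div_le_iff₀ hn, add_mul]
    calc dist (x.1 n) (y.1 n) ≤ dist (x.1 n) (b n) + dist (y.1 n) (b n) :=
          dist_triangle_right _ _ _
      _ ≤ C * l n + C' * l n := add_le_add (hC n) (hC' n)
  have h : ((F.map fun n => dist (x.1 n) (y.1 n) / l n : Ultrafilter ℝ) : Filter ℝ) ≤
      𝓟 (Set.Icc (0 : ℝ) (C + C')) := by
    rw [Ultrafilter.coe_map, le_principal_iff, mem_map]
    exact Filter.Eventually.of_forall hmem
  obtain ⟨d, _, hd⟩ := isCompact_Icc.ultrafilter_le_nhds _ h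
  exact ⟨d, hd⟩

theorem exists_ulim {X : Type u} [MetricSpace X] (F : Ultrafilter ℕ) (hF : (F : Filter ℕ) ≤ atTop)
    (b : ℕ → X) (l : ℕ → ℝ) (hl : ∀ n, 0 < l n) :
    ∃ (Y : Type u) (_ : MetricSpace Y) (cls : BSeq b l → Y), IsULim F b l cls := by
  classical
  choose D hD using umet_exists F b l hl
  have hDself : ∀ x, D x x = 0 := by
    intro x
    refine tendsto_nhds_unique (hD x x) ?_
    refine tendsto_const_nhds.congr fun n => ?_
    rw [dist_self, zero_div]
  have hDcomm : ∀ x y, D x y = D y x := by
    intro x y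
    refine tendsto_nhds_unique (hD x y) ?_
    refine (hD y x).congr fun n => ?_
    rw [dist_comm]
  have hDtri : ∀ x y z, D x z ≤ D x y + D y z := by
    intro x y z
    refine le_of_tendsto_of_tendsto' (hD x z) ((hD x y).add (hD y z)) fun n => ?_
    rw [← add_div]
    exact div_le_div_of_nonneg_right (dist_triangle _ _ _) (hl n).le
  let inst : PseudoMetricSpace (BSeq b l) :=
    { dist := D
      dist_self := hDself
      dist_comm := hDcomm
      dist_triangle := hDtri }
  refine ⟨@SeparationQuotient (BSeq b l) inst.toUniformSpace.toTopologicalSpace, inferInstance,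
    SeparationQuotient.mk, ?_⟩
  exact
    { fine := hF
      pos := hl
      surj := SeparationQuotient.surjective_mk
      lim := fun x y => hD x y }

end MP985a
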